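import Pool.Agent.Lib.MP_0430e4_lc.BY.Words

/-!
Words over `F_2` and Boolean words (project BEYOND, helper1); split off from `BY.Final`.
-/

open Finset

namespace Pool.Agent.Lib.MP_0430e4_lc.BY

variable {n : ℕ}

/-- from words over `F_2` to Boolean words -/
def toB (x : Wd n) : Fin n → Bool := fun i => decide (x i ≠ 0)

/-- from Boolean words to words over `F_2` -/
def ofB (x : Fin n → Bool) : Wd n := fun i => if x i then 1 else 0

theorem ofB_toB (x : Wd n) : ofB (toB x) = x := by
  funext i
  unfold ofB toB
  rcases z01 (x i) with h | h <;> simp [h]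

theorem toB_ofB (x : Fin n → Bool) : toB (ofB x) = x := by
  funext i
  unfold ofB toB
  cases h : x i <;> simp [h]

end Pool.Agent.Lib.MP_0430e4_lc.BY
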