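import Pool.Agent.Lib.MP_0430e4_lc.BY.Struct
import Pool.Agent.Lib.MP_0430e4_lc.BY.ToB
import Pool.Agent.Lib.MP_0430e4_lc.Exact.INP

/-!
Final step of project BEYOND (helper1): transfer to `Fin n → Bool`, and the statement
`R(δ) < ℓ(δ)` in a neighbourhood of `δ* = 1/2 - 1/π`.
-/

open Finset Filter Topology
open scoped Pointwise

namespace Pool.Agent.Lib.MP_0430e4_lc.BY

variable {n : ℕ}

theorem wt_sub (x y : Wd n) : wt (x - y) = hammingDist x y := by
  unfold wt; rw [hammingDist_eq_hammingNorm, neg_eq, ← sub_eq_add']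

theorem dist_toB (x y : Wd n) : hammingDist (toB x) (toB y) = hammingDist x y := by
  unfold hammingDist
  congr 1
  ext i
  simp only [Finset.mem_filter, Finset.mem_univ, true_and]
  unfold toB
  rcases z01 (x i) with h | h <;> rcases z01 (y i) with h' | h' <;> simp [h, h']

theorem toB_injective : Function.Injective (toB : Wd n → (Fin n → Bool)) := fun x y h => by
  rw [← ofB_toB x, ← ofB_toB y, h]

theorem card_le_maxCode {d : ℕ} {C : Finset (Wd n)} (hC : IsCode d C) :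
    C.card ≤ Tensor.maxCode n d := by
  classical
  have hb : BddAbove {m : ℕ | ∃ C : Finset (Fin n → Bool),
    (∀ x ∈ C, ∀ y ∈ C, x ≠ y → d ≤ hammingDist x y) ∧ C.card = m} := by
    refine ⟨Fintype.card (Fin n → Bool), ?_⟩
    rintro m ⟨C, -, rfl⟩
    exact Finset.card_le_univ C
  apply le_csSup hb
  refine ⟨C.image toB, ?_, Finset.card_image_of_injective _ toB_injective⟩
  intro x hx y hy hxy
  obtain ⟨x', hx', rfl⟩ := Finset.mem_image.mp hx
  obtain ⟨y', hy', rfl⟩ := Finset.mem_image.mp hy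
  rw [dist_toB, ← wt_sub]
  exact hC x' hx' y' hy' (fun h => hxy (by rw [h]))

theorem exists_isCode (n d : ℕ) : ∃ C : Finset (Wd n), IsCode d C ∧ C.card = Tensor.maxCode n d := by
  classical
  obtain ⟨C, hC, hc⟩ := Tensor.maxCode_attained n d
  have hinj : Function.Injective (ofB : (Fin n → Bool) → Wd n) := fun x y h => by
    rw [← toB_ofB x, ← toB_ofB y, h]
  refine ⟨C.image ofB, ?_, by rw [Finset.card_image_of_injective _ hinj, hc]⟩
  intro x hx y hy hxy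
  obtain ⟨x', hx', rfl⟩ := Finset.mem_image.mp hx
  obtain ⟨y', hy', rfl⟩ := Finset.mem_image.mp hy
  rw [wt_sub, ← dist_toB, toB_ofB, toB_ofB]
  exact hC x' hx' y' hy' (fun h => hxy (by rw [h]))

/-- rate of the best codes -/
noncomputable def Rr (δ : ℝ) : ℝ :=
  limsup (fun n : ℕ => Real.logb 2 (Tensor.maxCode n ⌈δ * n⌉₊) / n) atTop

theorem rate_nonneg (δ : ℝ) (n : ℕ) : 0 ≤ Real.logb 2 (Tensor.maxCode n ⌈δ * n⌉₊) / n :=
  div_nonneg (Real.logb_nonneg (by norm_num) (by exact_mod_cast Tensor.one_le_maxCode _ _))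
    (Nat.cast_nonneg _)

theorem isCobdd (δ : ℝ) : IsCoboundedUnder (· ≤ ·) atTop
    (fun n : ℕ => Real.logb 2 (Tensor.maxCode n ⌈δ * n⌉₊) / n) :=
  IsCoboundedUnder.of_frequently_ge (a := 0)
    (Eventually.frequently (Eventually.of_forall fun n => rate_nonneg δ n))

theorem maxCode_le_two_pow (n d : ℕ) : Tensor.maxCode n d ≤ 2 ^ n := by
  obtain ⟨C, _, hc⟩ := Tensor.maxCode_attained n d
  rw [← hc]
  calc C.card ≤ Fintype.card (Fin n → Bool) := Finset.card_le_univ C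
    _ = 2 ^ n := by simp

theorem rate_le_one (δ : ℝ) (n : ℕ) : Real.logb 2 (Tensor.maxCode n ⌈δ * n⌉₊) / n ≤ 1 := by
  rcases Nat.eq_zero_or_pos n with rfl | hn
  · simp
  have hn' : (0 : ℝ) < n := by exact_mod_cast hn
  rw [div_le_one hn']
  have h1 : (Tensor.maxCode n ⌈δ * n⌉₊ : ℝ) ≤ 2 ^ n := by exact_mod_cast maxCode_le_two_pow n _
  calc Real.logb 2 (Tensor.maxCode n ⌈δ * n⌉₊) ≤ Real.logb 2 (2 ^ n) :=
        Real.logb_le_logb_of_le (by norm_num) (by exact_mod_cast Tensor.one_le_maxCode _ _) h1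
    _ = n := by rw [Real.logb_pow, Real.logb_self_eq_one (by norm_num), mul_one]

theorem isBdd (δ : ℝ) : IsBoundedUnder (· ≤ ·) atTop
    (fun n : ℕ => Real.logb 2 (Tensor.maxCode n ⌈δ * n⌉₊) / n) :=
  isBoundedUnder_of ⟨1, fun n => rate_le_one δ n⟩

/-- hypothesis (L) of `struct` at `δ` -/
theorem hL_of {δ r : ℝ} (h0 : 0 < δ) (h1 : δ < 1 / 2) (hr : Tensor.ell δ ≤ r) (ε : ℝ) (hε : 0 < ε) :
    ∃ n0 : ℕ, ∀ n ≥ n0, ∀ C : Finset (Wd n), IsCode ⌈δ * n⌉₊ C → (C.card : ℝ) ≤ pw n (r + ε) := by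
  have h2 : limsup (fun n : ℕ => Real.logb 2 (Tensor.maxCode n ⌈δ * n⌉₊) / n) atTop < r + ε :=
    lt_of_le_of_lt ((Tensor.limsup_le_ell h0 h1).trans hr) (by linarith)
  have h3 := eventually_lt_of_limsup_lt h2 (isBdd δ)
  obtain ⟨n0, hn0⟩ := eventually_atTop.mp h3
  refine ⟨max n0 1, fun n hn C hC => ?_⟩
  have h4 := hn0 n ((le_max_left _ _).trans hn)
  have hn' : (0 : ℝ) < n := by exact_mod_cast (le_max_right n0 1).trans hn
  rw [div_lt_iff₀ hn'] at h4
  have h5 : (0 : ℝ) < Tensor.maxCode n ⌈δ * n⌉₊ := by exact_mod_cast Tensor.one_le_maxCode _ _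
  have h6 : (Tensor.maxCode n ⌈δ * n⌉₊ : ℝ) ≤ pw n (r + ε) := by
    unfold pw
    rw [← Real.logb_le_iff_le_rpow (by norm_num) h5]
    exact h4.le
  exact (by exact_mod_cast card_le_maxCode hC : (C.card : ℝ) ≤ Tensor.maxCode n ⌈δ * n⌉₊).trans h6

/-- conclusion of `struct` in terms of the rate -/
theorem Rr_le_of {δ r : ℝ} (h : ∃ n0 : ℕ, ∀ n ≥ n0, ∀ C : Finset (Wd n), IsCode ⌈δ * n⌉₊ C →
    (C.card : ℝ) < pw n r) : Rr δ ≤ r := by
  obtain ⟨n0, h⟩ := h
  unfold Rr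
  apply limsup_le_of_le (isCobdd δ)
  filter_upwards [eventually_ge_atTop (max n0 1)] with n hn
  obtain ⟨C, hC, hc⟩ := exists_isCode n ⌈δ * n⌉₊
  have h4 := h n ((le_max_left _ _).trans hn) C hC
  rw [hc] at h4
  have hn' : (0 : ℝ) < n := by exact_mod_cast (le_max_right n0 1).trans hn
  have h5 : (0 : ℝ) < Tensor.maxCode n ⌈δ * n⌉₊ := by exact_mod_cast Tensor.one_le_maxCode _ _
  rw [div_le_iff₀ hn']
  unfold pw at h4
  rw [Real.logb_le_iff_le_rpow (by norm_num) h5]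
  exact h4.le

/-- shortening: fixing a coordinate costs at most a factor two -/
theorem maxCode_shorten (n d : ℕ) : Tensor.maxCode (n + 1) d ≤ 2 * Tensor.maxCode n d := by
  classical
  obtain ⟨C, hC, hc⟩ := exists_isCode (n + 1) d
  rw [← hc]
  have key : ∀ b : ZMod 2, (C.filter (fun x => x 0 = b)).card ≤ Tensor.maxCode n d := by
    intro b
    have hinj : Set.InjOn (fun x : Wd (n + 1) => (Fin.tail x : Wd n)) (C.filter (fun x => x 0 = b)) := by
      intro x hx y hy hxy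
      have hx0 := (Finset.mem_filter.mp hx).2
      have hy0 := (Finset.mem_filter.mp hy).2
      rw [← Fin.cons_self_tail x, ← Fin.cons_self_tail y]
      simp only at hxy
      rw [hxy, hx0, hy0]
    rw [← Finset.card_image_of_injOn hinj]
    apply card_le_maxCode
    intro x hx y hy hxy
    obtain ⟨x', hx', rfl⟩ := Finset.mem_image.mp hx
    obtain ⟨y', hy', rfl⟩ := Finset.mem_image.mp hy
    rw [Finset.mem_filter] at hx' hy'
    have h1 := hC x' hx'.1 y' hy'.1 (fun h => hxy (by rw [h]))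
    refine h1.trans (le_of_eq ?_)
    unfold wt hammingNorm
    symm
    rw [Finset.card_filter, Finset.card_filter, Fin.sum_univ_succ]
    have h2 : (x' - y') 0 = 0 := by rw [Pi.sub_apply, hx'.2, hy'.2, sub_self]
    rw [h2, if_neg (by simp), zero_add]
    apply Finset.sum_congr rfl
    intro i _
    rfl
  have h1 : C.card = (C.filter (fun x => x 0 = 0)).card + (C.filter (fun x => x 0 = 1)).card := by
    rw [← Finset.card_union_of_disjoint]
    · congr 1
      ext x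
      rw [Finset.mem_union, Finset.mem_filter, Finset.mem_filter]
      constructor
      · intro h
        rcases z01 (x 0) with h' | h'
        · exact Or.inl ⟨h, h'⟩
        · exact Or.inr ⟨h, h'⟩
      · rintro (h | h) <;> exact h.1
    · rw [Finset.disjoint_left]
      intro x hx hy
      rw [Finset.mem_filter] at hx hy
      rw [hx.2] at hy
      exact absurd hy.2 (by decide)
  have h2 := key 0
  have h3 := key 1
  omega

theorem maxCode_shorten_k (k n d : ℕ) : Tensor.maxCode (n + k) d ≤ 2 ^ k * Tensor.maxCode n d := by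
  induction k with
  | zero => simp
  | succ k ih =>
    calc Tensor.maxCode (n + (k + 1)) d ≤ 2 * Tensor.maxCode (n + k) d := maxCode_shorten (n + k) d
      _ ≤ 2 * (2 ^ k * Tensor.maxCode n d) := Nat.mul_le_mul_left 2 ih
      _ = _ := by ring

theorem maxCode_anti {n d d' : ℕ} (h : d ≤ d') : Tensor.maxCode n d' ≤ Tensor.maxCode n d := by
  obtain ⟨C, hC, hc⟩ := exists_isCode n d'
  rw [← hc]
  exact card_le_maxCode fun x hx y hy hxy => h.trans (hC x hx y hy hxy)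

/-- **Conclusion of BEYOND**: if (I), (III) hold at `δ* = 1/2 - 1/π` and Marton's conjecture holds
over `F_2` then `R(δ*) < 1/2 = ℓ(δ*)`, and `R < ℓ` on a neighbourhood of `δ*`. -/
theorem rate_at (hI : ∀ c : ℝ, 0 < c → ∃ ε : ℝ, 0 < ε ∧ ∃ n0 : ℕ, ∀ n ≥ n0, ∀ C : Finset (Wd n),
      IsCode ⌈(1 / 2 - 1 / Real.pi) * n⌉₊ C →
      pw n (1 / 2 - ε) ≤ C.card → ∃ s : Wd n, pw n (1 / 2 - c) * C.card ≤ ‖Tsum C s‖)
    (hIII : ∃ ε : ℝ, 0 < ε ∧ ∃ n0 : ℕ, ∀ n ≥ n0, ∀ C : Finset (Wd n),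
      IsCode ⌈(1 / 2 - 1 / Real.pi) * n⌉₊ C →
      (∀ x ∈ C, ∀ y ∈ C, 4 ∣ wt (x - y)) → (C.card : ℝ) ≤ pw n (1 / 2 - ε))
    (hP : ∀ (n : ℕ) (A : Finset (Wd n)), A.Nonempty → ∀ K : ℝ, ((A + A).card : ℝ) ≤ K * A.card →
      ∃ (V : AddSubgroup (Wd n)) (x : Wd n) (A' : Finset (Wd n)), Nat.card V ≤ A.card ∧
        (∀ a ∈ A', a ∈ A ∧ x - a ∈ V) ∧ (A.card : ℝ) / (2 * K ^ 200) ≤ A'.card) :
    ∃ ε : ℝ, 0 < ε ∧ Rr (1 / 2 - 1 / Real.pi) ≤ 1 / 2 - ε := by
  obtain ⟨ε, hε, h⟩ := struct (fun n => ⌈(1 / 2 - 1 / Real.pi) * n⌉₊)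
    (hL_of Exact.mid_pos Exact.mid_lt (Exact.fin_mid_ell Exact.inputs).le) hI hIII hP
  exact ⟨ε, hε, Rr_le_of h⟩

/-- `R` cannot jump to the left of `δ₀` (shortening) nor increase to the right of it: if `R(δ₀) < r`
then `R(δ) ≤ r` for all `δ > δ₀ - κ`. -/
theorem Rr_le_near {δ₀ r : ℝ} (h0 : 0 < δ₀) (hr : Rr δ₀ < r) :
    ∃ κ : ℝ, 0 < κ ∧ ∀ δ : ℝ, δ₀ - κ < δ → Rr δ ≤ r := by
  have hr0 : 0 ≤ Rr δ₀ := le_limsup_of_frequently_le
    (Eventually.frequently (Eventually.of_forall fun n => rate_nonneg δ₀ n)) (isBdd δ₀)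
  set g : ℝ := min (r - Rr δ₀) 1 with hg
  have hgpos : 0 < g := lt_min (by linarith) one_pos
  have hg1 : g ≤ 1 := min_le_right _ _
  have hgr : Rr δ₀ + g ≤ r := by have := min_le_left (r - Rr δ₀) 1; linarith
  have h2 : limsup (fun n : ℕ => Real.logb 2 (Tensor.maxCode n ⌈δ₀ * n⌉₊) / n) atTop < Rr δ₀ + g / 2 := by
    have : limsup (fun n : ℕ => Real.logb 2 (Tensor.maxCode n ⌈δ₀ * n⌉₊) / n) atTop = Rr δ₀ := rfl
    rw [this]; linarith
  have h3 := eventually_lt_of_limsup_lt h2 (isBdd δ₀)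
  obtain ⟨n0, hn0⟩ := eventually_atTop.mp h3
  refine ⟨δ₀ * (g / 8), by positivity, fun δ hδ => ?_⟩
  by_cases hcase : δ₀ ≤ δ
  · -- monotone
    have h4 : Rr δ ≤ Rr δ₀ := by
      unfold Rr
      apply limsup_le_limsup
      · filter_upwards with n
        apply div_le_div_of_nonneg_right _ (Nat.cast_nonneg _)
        apply Real.logb_le_logb_of_le (by norm_num) (by exact_mod_cast Tensor.one_le_maxCode _ _)
        have : ⌈δ₀ * n⌉₊ ≤ ⌈δ * n⌉₊ := Nat.ceil_mono (mul_le_mul_of_nonneg_right hcase (Nat.cast_nonneg _))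
        exact_mod_cast maxCode_anti this
      · exact isCobdd δ
      · exact isBdd δ₀
    linarith
  · rw [not_le] at hcase
    unfold Rr
    apply limsup_le_of_le (isCobdd δ)
    obtain ⟨n1, hn1⟩ := exists_nat_ge (8 / g)
    filter_upwards [eventually_ge_atTop (max (2 * n0 + 4) (max n1 1))] with m hm
    have hm0 : 2 * n0 + 4 ≤ m := (le_max_left _ _).trans hm
    have hmn1 : n1 ≤ m := (le_max_left n1 1).trans ((le_max_right _ _).trans hm)
    have hm' : (0 : ℝ) < m := by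
      have : 0 < m := by omega
      exact_mod_cast this
    have hmg : 8 ≤ g * m := by
      have h4 : 8 / g ≤ m := hn1.trans (by exact_mod_cast hmn1)
      rw [div_le_iff₀ hgpos] at h4; linarith
    set q : ℝ := 1 - δ / δ₀ with hq
    have hq0 : 0 ≤ q := by
      rw [hq, sub_nonneg, div_le_one h0]; exact hcase.le
    have hqg : q ≤ g / 8 := by
      rw [hq]
      have h5 : 1 - g / 8 ≤ δ / δ₀ := by
        rw [le_div_iff₀ h0]; nlinarith
      linarith
    set k : ℕ := ⌈q * m⌉₊ with hk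
    have hk1 : q * m ≤ k := Nat.le_ceil _
    have hk2 : (k : ℝ) < q * m + 1 := Nat.ceil_lt_add_one (by positivity)
    have hk3 : (k : ℝ) ≤ g / 8 * m + 1 := by nlinarith
    have hm4 : (2 * n0 + 4 : ℝ) ≤ m := by exact_mod_cast hm0
    have hkm : k ≤ m := by
      have : (k : ℝ) ≤ m := by nlinarith
      exact_mod_cast this
    obtain ⟨N, hN⟩ := Nat.exists_eq_add_of_le hkm
    have hNr : (m : ℝ) = k + N := by rw [hN]; push_cast; ring
    have hNn0 : n0 ≤ N := by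
      have : (n0 : ℝ) ≤ N := by nlinarith
      exact_mod_cast this
    have hN1 : 1 ≤ N := by
      have : (1 : ℝ) ≤ N := by
        have h6 : (0 : ℝ) ≤ n0 := Nat.cast_nonneg _
        nlinarith
      exact_mod_cast this
    have hNpos : (0 : ℝ) < N := by exact_mod_cast hN1
    have h5 := hn0 N hNn0
    rw [div_lt_iff₀ hNpos] at h5
    have hdist : ⌈δ₀ * N⌉₊ ≤ ⌈δ * m⌉₊ := by
      apply Nat.ceil_mono
      have h6 : δ₀ * N = δ₀ * m - δ₀ * k := by rw [hNr]; ring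
      have h7 : δ₀ * (q * m) = δ₀ * m - δ * m := by
        rw [hq]; field_simp
      have h8 : δ₀ * (q * m) ≤ δ₀ * k := mul_le_mul_of_nonneg_left hk1 h0.le
      linarith
    have h6 : Tensor.maxCode m ⌈δ * m⌉₊ ≤ 2 ^ k * Tensor.maxCode N ⌈δ₀ * N⌉₊ := by
      have h7 := maxCode_shorten_k k N ⌈δ * m⌉₊
      rw [show N + k = m by omega] at h7
      exact h7.trans (Nat.mul_le_mul_left _ (maxCode_anti hdist))
    have h7 : (Tensor.maxCode m ⌈δ * m⌉₊ : ℝ) ≤ 2 ^ k * Tensor.maxCode N ⌈δ₀ * N⌉₊ := by exact_mod_cast h6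
    have hpos1 : (0 : ℝ) < Tensor.maxCode m ⌈δ * m⌉₊ := by exact_mod_cast Tensor.one_le_maxCode _ _
    have hpos2 : (0 : ℝ) < Tensor.maxCode N ⌈δ₀ * N⌉₊ := by exact_mod_cast Tensor.one_le_maxCode _ _
    have h8 : Real.logb 2 (Tensor.maxCode m ⌈δ * m⌉₊) ≤
        k + Real.logb 2 (Tensor.maxCode N ⌈δ₀ * N⌉₊) := by
      calc Real.logb 2 (Tensor.maxCode m ⌈δ * m⌉₊)
          ≤ Real.logb 2 (2 ^ k * Tensor.maxCode N ⌈δ₀ * N⌉₊) :=
            Real.logb_le_logb_of_le (by norm_num) hpos1 h7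
        _ = _ := by
            rw [Real.logb_mul (by positivity) hpos2.ne', Real.logb_pow,
              Real.logb_self_eq_one (by norm_num), mul_one]
    rw [div_le_iff₀ hm']
    have h9 : (Rr δ₀ + g / 2) * N ≤ (Rr δ₀ + g / 2) * m := by
      apply mul_le_mul_of_nonneg_left _ (by positivity)
      rw [hNr]; linarith [(Nat.cast_nonneg k : (0 : ℝ) ≤ k)]
    calc Real.logb 2 (Tensor.maxCode m ⌈δ * m⌉₊) ≤ k + (Rr δ₀ + g / 2) * N := by linarith
      _ ≤ (g / 8 * m + 1) + (Rr δ₀ + g / 2) * m := by linarith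
      _ ≤ (Rr δ₀ + g) * m := by nlinarith
      _ ≤ r * m := mul_le_mul_of_nonneg_right hgr hm'.le

/-- **BEYOND, final form**: under the hypotheses of `rate_at`, `R < ℓ` on a neighbourhood of
`δ* = 1/2 - 1/π`, where `ℓ(δ)` is the exponent of Delsarte's linear program. -/
theorem rate_near (h : ∃ ε : ℝ, 0 < ε ∧ Rr (1 / 2 - 1 / Real.pi) ≤ 1 / 2 - ε) :
    ∃ κ : ℝ, 0 < κ ∧ ∀ δ : ℝ, |δ - (1 / 2 - 1 / Real.pi)| < κ → Rr δ < Tensor.ell δ := by
  obtain ⟨ε, hε, h⟩ := h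
  obtain ⟨κ1, hκ1, h1⟩ := Rr_le_near (r := 1 / 2 - ε / 2) Exact.mid_pos (by linarith)
  have hc := Exact.ell_continuousAt Exact.mid_pos
  have h2 : ∀ᶠ δ in 𝓝 (1 / 2 - 1 / Real.pi), 1 / 2 - ε / 2 < Tensor.ell δ := by
    apply hc.eventually_const_lt
    rw [Exact.fin_mid_ell Exact.inputs]; linarith
  obtain ⟨κ2, hκ2, h3⟩ := Metric.eventually_nhds_iff.mp h2
  refine ⟨min κ1 κ2, lt_min hκ1 hκ2, fun δ hδ => ?_⟩
  have h4 : Rr δ ≤ 1 / 2 - ε / 2 := by
    apply h1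
    have := (abs_lt.mp (hδ.trans_le (min_le_left _ _))).1
    linarith
  have h5 : 1 / 2 - ε / 2 < Tensor.ell δ := by
    apply h3
    rw [Real.dist_eq]
    exact hδ.trans_le (min_le_right _ _)
  linarith

end Pool.Agent.Lib.MP_0430e4_lc.BY
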