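import Mathlib

open MeasureTheory intervalIntegral Finset

namespace Pool.Agent.Lib.MP_0430e4_lc.BY

/-- The Beta integral at natural arguments. -/
theorem beta_nat (b : ℕ) : ∀ a : ℕ, ∫ t in (0:ℝ)..1, t ^ a * (1 - t) ^ b =
    ((a.factorial : ℝ) * b.factorial) / (a + b + 1).factorial := by
  induction b with
  | zero =>
    intro a
    simp only [pow_zero, mul_one, integral_pow, Nat.factorial_zero, Nat.cast_one, add_zero]
    rw [Nat.factorial_succ]
    have : (a.factorial : ℝ) ≠ 0 := by positivity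
    push_cast
    field_simp
    simp
  | succ b ih =>
    intro a
    have hd : ∀ t : ℝ, HasDerivAt (fun t : ℝ => t ^ (a+1) * (1 - t) ^ (b+1))
        (((a:ℝ)+1) * t ^ a * (1 - t) ^ (b+1) - ((b:ℝ)+1) * (t ^ (a+1) * (1 - t) ^ b)) t := by
      intro t
      have h1 : HasDerivAt (fun t : ℝ => t ^ (a+1)) (((a+1 : ℕ):ℝ) * t ^ a) t := by
        simpa using hasDerivAt_pow (a+1) t
      have h2 : HasDerivAt (fun t : ℝ => (1 - t)) (-1) t := by
        simpa using (hasDerivAt_id t).const_sub 1
      have h3 := h2.pow (b+1)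
      have h4 := h1.mul h3
      refine h4.congr_deriv ?_
      push_cast
      ring_nf
      try simp
      try ring
    have hc1 : Continuous (fun t : ℝ => ((a:ℝ)+1) * t ^ a * (1 - t) ^ (b+1)) := by fun_prop
    have hc2 : Continuous (fun t : ℝ => ((b:ℝ)+1) * (t ^ (a+1) * (1 - t) ^ b)) := by fun_prop
    have hF := integral_eq_sub_of_hasDerivAt (a := (0:ℝ)) (b := 1) (fun t _ => hd t)
      ((hc1.sub hc2).intervalIntegrable 0 1)
    rw [integral_sub (hc1.intervalIntegrable _ _) (hc2.intervalIntegrable _ _)] at hF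
    simp only [intervalIntegral.integral_const_mul, mul_assoc] at hF
    rw [ih (a+1)] at hF
    have h0 : (a:ℝ) + 1 ≠ 0 := by positivity
    have e1 : ∫ t in (0:ℝ)..1, t ^ a * (1 - t) ^ (b+1) =
        ((b:ℝ)+1) / ((a:ℝ)+1) * (((a+1).factorial : ℝ) * b.factorial / (a + 1 + b + 1).factorial) := by
      simp at hF
      rw [sub_eq_zero] at hF
      rw [div_mul_eq_mul_div, eq_div_iff h0, mul_comm, hF]
    rw [e1, Nat.factorial_succ a, Nat.factorial_succ b]
    have e2 : a + 1 + b + 1 = a + (b + 1) + 1 := by ring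
    rw [e2]
    push_cast
    field_simp

/-- 1/C(n,w) = (n+1) int_0^1 t^w (1-t)^(n-w). -/
theorem inv_choose_eq {n w : ℕ} (hw : w ≤ n) :
    ((n.choose w : ℝ))⁻¹ = (n + 1) * ∫ t in (0:ℝ)..1, t ^ w * (1 - t) ^ (n - w) := by
  rw [beta_nat, Nat.choose_eq_factorial_div_factorial hw, Nat.cast_div (Nat.factorial_mul_factorial_dvd_factorial hw) (by positivity)]
  have : w + (n - w) = n := by omega
  rw [this, Nat.factorial_succ]
  push_cast
  have h1 : (n.factorial : ℝ) ≠ 0 := by positivity
  have h2 : (w.factorial : ℝ) ≠ 0 := by positivity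
  have h3 : ((n-w).factorial : ℝ) ≠ 0 := by positivity
  field_simp

end Pool.Agent.Lib.MP_0430e4_lc.BY
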