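import Pool.Agent.Lib.MP_0430e4_lc.BY.Assm

/-!
Project BEYOND (helper1): helper64's form of Theorem M (rays next to `-i`, window in `t`, radii in `[1,2]`)
gives hypothesis (I) of `struct` and the final statement.
-/

open Finset Filter Topology

namespace Pool.Agent.Lib.MP_0430e4_lc.BY

/-- helper64's form of Theorem M at distance `D n`. -/
def ThmM (D : ℕ → ℕ) : Prop :=
  ∀ η : ℝ, 0 < η → ∃ pa pb : ℝ, Real.pi / 2 - η < pa ∧ pa < pb ∧ pb < Real.pi / 2 ∧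
    ∀ τ : ℝ, 0 < τ → ∃ g : ℝ, 0 < g ∧ ∃ n₀ : ℕ, ∀ n ≥ n₀, ∀ C : Finset (Wd n), C.Nonempty →
      IsCode (D n) C →
      (∀ φ : ℝ, pa ≤ φ → φ ≤ pb → ∀ t : ℝ, |t - 1 / 2| ≤ η → ∀ R : ℝ, 1 ≤ R → R ≤ 2 →
        (1 - t) ^ n * ‖∑ x ∈ C, ∑ y ∈ C,
          (((t / ((1 - t) * R) : ℝ) : ℂ) * Complex.exp (-((φ : ℂ) * Complex.I))) ^ wt (x - y)‖ ≤
            C.card * pw n (-(1 / 2) - τ)) →
      (C.card : ℝ) ≤ pw n (1 / 2 - g)

theorem star_enum {n : ℕ} (C : Finset (Wd n)) (z : ℂ) :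
    ‖∑ x ∈ C, ∑ y ∈ C, (starRingEnd ℂ z) ^ wt (x - y)‖ = ‖∑ x ∈ C, ∑ y ∈ C, z ^ wt (x - y)‖ := by
  rw [← Complex.norm_conj (∑ x ∈ C, ∑ y ∈ C, z ^ wt (x - y))]
  simp only [map_sum, map_pow]

/-- the two coefficients at `z = q e^{iφ}`, `φ = π/2 - ψ` -/
theorem norm_ca_le {q φ : ℝ} (hq : 0 ≤ q) :
    ‖ca ((q : ℂ) * Complex.exp ((φ : ℂ) * Complex.I))‖ ≤ (1 + q) / 2 := by
  unfold ca
  rw [norm_div, Complex.norm_ofNat]
  apply div_le_div_of_nonneg_right _ (by norm_num)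
  refine (norm_sub_le _ _).trans ?_
  rw [norm_one, norm_mul, norm_mul, Complex.norm_I, Complex.norm_exp_ofReal_mul_I,
    Complex.norm_real, Real.norm_eq_abs, abs_of_nonneg hq]
  linarith

theorem norm_cb_le {q φ : ℝ} (hq : 0 ≤ q) :
    ‖cb ((q : ℂ) * Complex.exp ((φ : ℂ) * Complex.I))‖ ≤ (|1 - q| + q * |Real.pi / 2 - φ|) / 2 := by
  unfold cb
  rw [norm_div, Complex.norm_ofNat]
  apply div_le_div_of_nonneg_right _ (by norm_num)
  have h1 : 1 + Complex.I * ((q : ℂ) * Complex.exp ((φ : ℂ) * Complex.I)) =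
      ((1 - q : ℝ) : ℂ) + (q : ℂ) * (Complex.I * (Complex.exp ((φ : ℂ) * Complex.I) -
        Complex.exp (((Real.pi / 2 : ℝ) : ℂ) * Complex.I))) := by
    have h2 : Complex.exp (((Real.pi / 2 : ℝ) : ℂ) * Complex.I) = Complex.I := by
      push_cast
      exact Complex.exp_pi_div_two_mul_I
    rw [h2]
    have hI := Complex.I_mul_I
    push_cast
    linear_combination (q : ℂ) * hI
  rw [h1]
  refine (norm_add_le _ _).trans ?_
  rw [Complex.norm_real, Real.norm_eq_abs, norm_mul, norm_mul, Complex.norm_I, one_mul,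
    Complex.norm_real, Real.norm_eq_abs, abs_of_nonneg hq]
  have h3 : ‖Complex.exp ((φ : ℂ) * Complex.I) - Complex.exp (((Real.pi / 2 : ℝ) : ℂ) * Complex.I)‖ ≤
      |Real.pi / 2 - φ| := by
    have h4 : Complex.exp ((φ : ℂ) * Complex.I) - Complex.exp (((Real.pi / 2 : ℝ) : ℂ) * Complex.I) =
        Complex.exp (((Real.pi / 2 : ℝ) : ℂ) * Complex.I) *
          (Complex.exp (Complex.I * ((φ - Real.pi / 2 : ℝ) : ℂ)) - 1) := by
      rw [mul_sub, mul_one, ← Complex.exp_add]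
      congr 2
      push_cast; ring
    rw [h4, norm_mul, Complex.norm_exp_ofReal_mul_I, one_mul]
    refine (Real.norm_exp_I_mul_ofReal_sub_one_le).trans ?_
    rw [Real.norm_eq_abs, abs_sub_comm]
  have h5 := mul_le_mul_of_nonneg_left h3 hq
  linarith

theorem hI_of_ThmM {D : ℕ → ℕ} (hM : ThmM D) :
    ∀ c : ℝ, 0 < c → ∃ ε : ℝ, 0 < ε ∧ ∃ n0 : ℕ, ∀ n ≥ n0, ∀ C : Finset (Wd n), IsCode (D n) C →
      pw n (1 / 2 - ε) ≤ C.card → ∃ s : Wd n, pw n (1 / 2 - c) * C.card ≤ ‖Tsum C s‖ := by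
  intro c hc
  set η : ℝ := min (c / 16) (1 / 8) with hηdef
  have hη : 0 < η := lt_min (by positivity) (by norm_num)
  have hη1 : η ≤ c / 16 := min_le_left _ _
  have hη2 : η ≤ 1 / 8 := min_le_right _ _
  obtain ⟨pa, pb, hpa, hab, hpb, h1⟩ := hM η hη
  obtain ⟨g, hg, n₀, h2⟩ := h1 (c / 2) (by positivity)
  refine ⟨g / 2, by positivity, max n₀ 1, fun n hn C hC hcard => ?_⟩
  have hn1 : 1 ≤ n := (le_max_right _ _).trans hn
  have hlt : pw n (1 / 2 - g) < C.card := by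
    refine lt_of_lt_of_le ?_ hcard
    unfold pw
    apply Real.rpow_lt_rpow_of_exponent_lt (by norm_num)
    apply mul_lt_mul_of_pos_right (by linarith)
    exact_mod_cast hn1
  have hCpos : (0 : ℝ) < C.card := lt_of_lt_of_le (pw_pos n _) hcard
  have hCne : C.Nonempty := by rw [← Finset.card_pos]; exact_mod_cast hCpos
  by_contra hcon
  push Not at hcon
  refine absurd (h2 n ((le_max_left _ _).trans hn) C hCne hC ?_) (not_le.mpr hlt)
  intro φ hφ1 hφ2 t ht R hR1 hR2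
  have ht1 := abs_le.mp ht
  have hRpos : 0 < R := by linarith
  have h1t : 0 < 1 - t := by linarith
  have htpos : 0 < t := by linarith
  set q : ℝ := t / ((1 - t) * R) with hq
  have hqpos : 0 ≤ q := by positivity
  have hψ : |Real.pi / 2 - φ| ≤ η := by
    rw [abs_of_nonneg (by linarith)]; linarith
  -- pass to the conjugate point
  have h3 : ‖∑ x ∈ C, ∑ y ∈ C, ((q : ℂ) * Complex.exp (-((φ : ℂ) * Complex.I))) ^ wt (x - y)‖ =
      ‖∑ x ∈ C, ∑ y ∈ C, ((q : ℂ) * Complex.exp ((φ : ℂ) * Complex.I)) ^ wt (x - y)‖ := by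
    rw [← star_enum C ((q : ℂ) * Complex.exp ((φ : ℂ) * Complex.I))]
    have h4 : (starRingEnd ℂ) ((q : ℂ) * Complex.exp ((φ : ℂ) * Complex.I)) =
        (q : ℂ) * Complex.exp (-((φ : ℂ) * Complex.I)) := by
      rw [map_mul, Complex.conj_ofReal, ← Complex.exp_conj, map_mul, Complex.conj_ofReal,
        Complex.conj_I]
      congr 2; ring
    rw [h4]
  rw [h3]
  have h5 := enum_le C ((q : ℂ) * Complex.exp ((φ : ℂ) * Complex.I))
    (T := pw n (1 / 2 - c) * C.card) (fun s => (hcon s).le)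
  have h6 : (1 - t) * (‖ca ((q : ℂ) * Complex.exp ((φ : ℂ) * Complex.I))‖ +
      ‖cb ((q : ℂ) * Complex.exp ((φ : ℂ) * Complex.I))‖) ≤ 1 / 2 + 2 * η := by
    have h7 := norm_ca_le (φ := φ) hqpos
    have h8 := norm_cb_le (φ := φ) hqpos
    have h9 : (1 - t) * q = t / R := by rw [hq]; field_simp
    have h10 : (1 - t) * |1 - q| = |1 - t - t / R| := by
      rw [← h9, ← abs_of_pos h1t, ← abs_mul, abs_of_pos h1t]; congr 1; ring
    have h11 : t / R ≤ t := div_le_self htpos.le hR1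
    have h12 : 0 ≤ t / R := by positivity
    calc (1 - t) * (‖ca ((q : ℂ) * Complex.exp ((φ : ℂ) * Complex.I))‖ +
          ‖cb ((q : ℂ) * Complex.exp ((φ : ℂ) * Complex.I))‖)
        ≤ (1 - t) * ((1 + q) / 2 + (|1 - q| + q * |Real.pi / 2 - φ|) / 2) :=
          mul_le_mul_of_nonneg_left (add_le_add h7 h8) h1t.le
      _ = ((1 - t) + (1 - t) * q + (1 - t) * |1 - q| + ((1 - t) * q) * |Real.pi / 2 - φ|) / 2 := by ring
      _ = ((1 - t) + t / R + |1 - t - t / R| + (t / R) * |Real.pi / 2 - φ|) / 2 := by rw [h10, h9]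
      _ ≤ 1 / 2 + 2 * η := by
          have h13 : (t / R) * |Real.pi / 2 - φ| ≤ 1 * η :=
            mul_le_mul (by linarith) hψ (abs_nonneg _) (by norm_num)
          rcases abs_cases (1 - t - t / R) with ⟨h14, _⟩ | ⟨h14, _⟩ <;> rw [h14] <;> linarith
  have h7 : (1 / 2 + 2 * η) ^ n ≤ pw n (-1 + c / 2) := by
    have h8 : (1 / 2 + 2 * η) ≤ (2 : ℝ) ^ (-1 + c / 2) := by
      have h9 : (2 : ℝ) ^ (-1 + c / 2) = 1 / 2 * Real.exp (Real.log 2 * (c / 2)) := by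
        rw [Real.rpow_add (by norm_num), Real.rpow_neg_one, Real.rpow_def_of_pos (by norm_num) (c / 2)]
        norm_num
      rw [h9]
      have h10 : 1 + c / 4 ≤ Real.exp (Real.log 2 * (c / 2)) := by
        refine le_trans ?_ (Real.add_one_le_exp _)
        have := Real.log_two_gt_d9
        nlinarith
      linarith
    calc (1 / 2 + 2 * η) ^ n ≤ ((2 : ℝ) ^ (-1 + c / 2)) ^ n := pow_le_pow_left₀ (by positivity) h8 n
      _ = _ := by unfold pw; rw [Real.rpow_mul (by norm_num), Real.rpow_natCast]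
  calc (1 - t) ^ n * ‖∑ x ∈ C, ∑ y ∈ C, ((q : ℂ) * Complex.exp ((φ : ℂ) * Complex.I)) ^ wt (x - y)‖
      ≤ (1 - t) ^ n * ((‖ca ((q : ℂ) * Complex.exp ((φ : ℂ) * Complex.I))‖ +
        ‖cb ((q : ℂ) * Complex.exp ((φ : ℂ) * Complex.I))‖) ^ n * (pw n (1 / 2 - c) * C.card)) :=
        mul_le_mul_of_nonneg_left h5 (by positivity)
    _ = ((1 - t) * (‖ca ((q : ℂ) * Complex.exp ((φ : ℂ) * Complex.I))‖ +
        ‖cb ((q : ℂ) * Complex.exp ((φ : ℂ) * Complex.I))‖)) ^ n * (pw n (1 / 2 - c) * C.card) := by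
        rw [mul_pow]; ring
    _ ≤ (1 / 2 + 2 * η) ^ n * (pw n (1 / 2 - c) * C.card) := by
        apply mul_le_mul_of_nonneg_right _ (mul_nonneg (pw_pos n _).le hCpos.le)
        exact pow_le_pow_left₀ (by positivity) h6 n
    _ ≤ pw n (-1 + c / 2) * (pw n (1 / 2 - c) * C.card) :=
        mul_le_mul_of_nonneg_right h7 (mul_nonneg (pw_pos n _).le hCpos.le)
    _ = C.card * pw n (-(1 / 2) - c / 2) := by
        rw [← mul_assoc, ← pw_add, mul_comm]; congr 2; ring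

/-- **BEYOND from Theorem M (helper64's form) and (III)**. -/
theorem beyond_of_ThmM (hM : ThmM fun n => ⌈(1 / 2 - 1 / Real.pi) * n⌉₊)
    (hIII : ∃ ε : ℝ, 0 < ε ∧ ∃ n0 : ℕ, ∀ n ≥ n0, ∀ C : Finset (Wd n),
      IsCode ⌈(1 / 2 - 1 / Real.pi) * n⌉₊ C →
      (∀ x ∈ C, ∀ y ∈ C, 4 ∣ wt (x - y)) → (C.card : ℝ) ≤ pw n (1 / 2 - ε)) :
    ∃ c : ℝ, 0 < c ∧ ∀ δ : ℝ, |δ - (1 / 2 - 1 / Real.pi)| < c → Rr δ ≤ Tensor.ell δ - c :=
  rate_near_uniform (rate_at (hI_of_ThmM hM) hIII hP)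

end Pool.Agent.Lib.MP_0430e4_lc.BY
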