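import Mathlib

/-!
# BLOCK E, part A: the extremal function `Psi` at `delta* = 1/2 - 1/pi`

`z Psi'(z) = sum_j gc j z^j`, `gc (2m) = -1` (m >= 1), `gc (2m+1) = (2/pi) sc m`,
`sc m = 2 sum_{l <= m} (-1)^l/(2l+1) - (-1)^m/(2m+1)`.
-/

set_option autoImplicit false

namespace Pool.Agent.Lib.MP_0430e4_lc.BY

open Complex

/-- The numbers `int_0^{pi/2} cos a * sin((2m+1)a)/sin a da`. -/
noncomputable def sc (m : ℕ) : ℝ :=
  2 * ∑ l ∈ Finset.range (m + 1), (-1 : ℝ) ^ l / (2 * l + 1) - (-1 : ℝ) ^ m / (2 * m + 1)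

/-- The coefficients of `z Psi'(z)`. -/
noncomputable def gc (j : ℕ) : ℝ :=
  if j = 0 then 0 else if j % 2 = 0 then -1 else (2 / Real.pi) * sc (j / 2)

theorem sc_zero : sc 0 = 1 := by
  simp [sc]; norm_num

theorem sc_succ (m : ℕ) :
    sc (m + 1) = sc m + (-1 : ℝ) ^ m * (1 / (2 * m + 1) - 1 / (2 * m + 3)) := by
  unfold sc
  rw [Finset.sum_range_succ _ (m + 1)]
  have h1 : (2 * (m : ℝ) + 1) ≠ 0 := by positivity
  have h2 : (2 * (m : ℝ) + 3) ≠ 0 := by positivity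
  have h3 : (2 * ((m + 1 : ℕ) : ℝ) + 1) = 2 * (m : ℝ) + 3 := by push_cast; ring
  rw [h3, pow_succ]
  field_simp
  ring

theorem sc_bounds2 (k : ℕ) : 1 ≤ sc (2 * k) ∧ sc (2 * k + 1) ≤ 5 / 3 := by
  induction k with
  | zero =>
      constructor
      · rw [mul_zero, sc_zero]
      · rw [mul_zero, sc_succ, sc_zero]; norm_num
  | succ k ih =>
      have e1 : sc (2 * (k + 1)) = sc (2 * k)
          + ((1 / (2 * ((2 * k : ℕ) : ℝ) + 1) - 1 / (2 * ((2 * k : ℕ) : ℝ) + 3))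
            - (1 / (2 * ((2 * k + 1 : ℕ) : ℝ) + 1) - 1 / (2 * ((2 * k + 1 : ℕ) : ℝ) + 3))) := by
        rw [show 2 * (k + 1) = (2 * k + 1) + 1 from by ring, sc_succ, sc_succ]
        rw [pow_succ, pow_mul]
        simp
        ring
      have e2 : sc (2 * (k + 1) + 1) = sc (2 * k + 1)
          - ((1 / (2 * ((2 * k + 1 : ℕ) : ℝ) + 1) - 1 / (2 * ((2 * k + 1 : ℕ) : ℝ) + 3))
            - (1 / (2 * ((2 * k + 2 : ℕ) : ℝ) + 1) - 1 / (2 * ((2 * k + 2 : ℕ) : ℝ) + 3))) := by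
        rw [show 2 * (k + 1) + 1 = (2 * k + 1 + 1) + 1 from by ring, sc_succ, sc_succ]
        rw [show 2 * k + 1 + 1 = 2 * (k + 1) from by ring, pow_succ, pow_mul, pow_mul]
        simp
        ring
      have key : ∀ x : ℝ, 0 ≤ x → 0 ≤ (1 / (2 * x + 1) - 1 / (2 * x + 3))
            - (1 / (2 * (x + 1) + 1) - 1 / (2 * (x + 1) + 3)) := by
        intro x hx
        have : (1 / (2 * x + 1) - 1 / (2 * x + 3))
            - (1 / (2 * (x + 1) + 1) - 1 / (2 * (x + 1) + 3))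
            = 8 / ((2 * x + 1) * (2 * x + 3) * (2 * x + 5)) := by
          have a1 : 2 * x + 1 ≠ 0 := by positivity
          have a2 : 2 * x + 3 ≠ 0 := by positivity
          have a3 : 2 * x + 5 ≠ 0 := by positivity
          have a4 : 2 * (x + 1) + 1 = 2 * x + 3 := by ring
          have a5 : 2 * (x + 1) + 3 = 2 * x + 5 := by ring
          rw [a4, a5]
          field_simp
          ring
        rw [this]
        positivity
      constructor
      · rw [e1]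
        have := key ((2 * k : ℕ) : ℝ) (by positivity)
        push_cast at this ⊢
        linarith [ih.1]
      · rw [e2]
        have := key ((2 * k + 1 : ℕ) : ℝ) (by positivity)
        push_cast at this ⊢
        have h4 : (2 * (k : ℝ) + 1 + 1) = 2 * k + 2 := by ring
        rw [h4] at this
        linarith [ih.2]

theorem sc_bounds (m : ℕ) : 1 ≤ sc m ∧ sc m ≤ 5 / 3 := by
  have hd : ∀ k : ℕ, 0 ≤ (1 / (2 * ((2 * k : ℕ) : ℝ) + 1) - 1 / (2 * ((2 * k : ℕ) : ℝ) + 3)) := by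
    intro k
    have : (1 / (2 * ((2 * k : ℕ) : ℝ) + 3)) ≤ (1 / (2 * ((2 * k : ℕ) : ℝ) + 1)) := by
      apply one_div_le_one_div_of_le <;> [positivity; linarith]
    linarith
  have hs : ∀ k : ℕ, sc (2 * k + 1) = sc (2 * k)
      + (1 / (2 * ((2 * k : ℕ) : ℝ) + 1) - 1 / (2 * ((2 * k : ℕ) : ℝ) + 3)) := by
    intro k
    rw [sc_succ, pow_mul]
    simp
  rcases Nat.even_or_odd' m with ⟨k, rfl | rfl⟩
  · refine ⟨(sc_bounds2 k).1, ?_⟩
    have := (sc_bounds2 k).2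
    rw [hs] at this
    linarith [hd k]
  · refine ⟨?_, (sc_bounds2 k).2⟩
    rw [hs]
    linarith [hd k, (sc_bounds2 k).1]

theorem gc_zero : gc 0 = 0 := by simp [gc]

theorem gc_one : gc 1 = 2 / Real.pi := by simp [gc, sc_zero]

theorem gc_even (m : ℕ) (hm : 1 ≤ m) : gc (2 * m) = -1 := by
  unfold gc
  rw [if_neg (by omega), if_pos (by omega)]

theorem gc_odd (m : ℕ) : gc (2 * m + 1) = (2 / Real.pi) * sc m := by
  unfold gc
  rw [if_neg (by omega), if_neg (by omega)]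
  congr 2
  omega

theorem abs_gc_le (j : ℕ) : |gc j| ≤ 107 / 100 := by
  rcases Nat.even_or_odd' j with ⟨k, rfl | rfl⟩
  · rcases Nat.eq_zero_or_pos k with rfl | hk
    · rw [mul_zero, gc_zero]; norm_num
    · rw [gc_even k hk]; norm_num
  · rw [gc_odd]
    have hpi := Real.pi_gt_d2
    have hp : 0 < Real.pi := Real.pi_pos
    have hb := sc_bounds k
    rw [abs_of_nonneg (by have := hb.1; positivity)]
    rw [div_mul_eq_mul_div, div_le_iff₀ hp]
    nlinarith [hb.2]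

theorem gc_succ_succ (m : ℕ) : gc (2 * m + 3) = gc (2 * m + 1)
    + (2 / Real.pi) * ((-1 : ℝ) ^ m * (1 / (2 * m + 1) - 1 / (2 * m + 3))) := by
  rw [show 2 * m + 3 = 2 * (m + 1) + 1 from by ring, gc_odd, gc_odd, sc_succ]
  ring

/-- The extremal function. -/
noncomputable def Psi (z : ℂ) : ℂ := ∑' j : ℕ, ((gc j / j : ℝ) : ℂ) * z ^ j

/-- Its derivative. -/
noncomputable def psi1 (z : ℂ) : ℂ := ∑' j : ℕ, (gc (j + 1) : ℂ) * z ^ j

/-- `E* = exp Psi`. -/
noncomputable def Es (z : ℂ) : ℂ := Complex.exp (Psi z)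

/-- The level function. -/
noncomputable def lev (z : ℂ) : ℂ := z + (1 - z ^ 2) * psi1 z

theorem norm_gc_le (j : ℕ) : ‖(gc j : ℂ)‖ ≤ 107 / 100 := by
  rw [Complex.norm_real, Real.norm_eq_abs]
  exact abs_gc_le j

theorem norm_gcd_le (j : ℕ) : ‖((gc j / j : ℝ) : ℂ)‖ ≤ 107 / 100 := by
  rw [Complex.norm_real, Real.norm_eq_abs, abs_div, Nat.abs_cast]
  rcases Nat.eq_zero_or_pos j with rfl | hj
  · simp
    norm_num
  · have h1 : (1 : ℝ) ≤ j := by exact_mod_cast hj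
    have h2 := abs_gc_le j
    have h3 : 0 ≤ |gc j| := abs_nonneg _
    calc |gc j| / j ≤ |gc j| / 1 := by
          apply div_le_div_of_nonneg_left h3 one_pos h1
      _ ≤ 107 / 100 := by rw [div_one]; exact h2

theorem summable_bd {c : ℕ → ℂ} (hc : ∀ j, ‖c j‖ ≤ 107 / 100) {z : ℂ} (hz : ‖z‖ < 1) :
    Summable (fun j => c j * z ^ j) := by
  apply Summable.of_norm_bounded (g := fun j => (107 / 100 : ℝ) * ‖z‖ ^ j)
  · exact (summable_geometric_of_lt_one (norm_nonneg _) hz).mul_left _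
  · intro j
    rw [norm_mul, norm_pow]
    exact mul_le_mul_of_nonneg_right (hc j) (by positivity)

theorem hasSum_Psi {z : ℂ} (hz : ‖z‖ < 1) :
    HasSum (fun j : ℕ => ((gc j / j : ℝ) : ℂ) * z ^ j) (Psi z) :=
  (summable_bd norm_gcd_le hz).hasSum

theorem hasSum_psi1 {z : ℂ} (hz : ‖z‖ < 1) :
    HasSum (fun j : ℕ => (gc (j + 1) : ℂ) * z ^ j) (psi1 z) :=
  (summable_bd (fun j => norm_gc_le (j + 1)) hz).hasSum

theorem Psi_zero : Psi 0 = 0 := by
  unfold Psi
  rw [tsum_eq_single 0]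
  · simp [gc_zero]
  · intro j hj
    simp [hj]

theorem psi1_zero : psi1 0 = ((2 / Real.pi : ℝ) : ℂ) := by
  unfold psi1
  rw [tsum_eq_single 0]
  · simp [gc_one]
  · intro j hj
    simp [hj]

theorem hasDerivAt_Psi {z : ℂ} (hz : ‖z‖ < 1) : HasDerivAt Psi (psi1 z) z := by
  obtain ⟨r, hr1, hr2⟩ := exists_between hz
  have hr0 : 0 < r := lt_of_le_of_lt (norm_nonneg _) hr1
  have hu : Summable (fun n : ℕ => (107 / 100 : ℝ) * r ^ (n - 1)) := by
    rw [← summable_nat_add_iff 1]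
    simp only [Nat.add_sub_cancel]
    exact (summable_geometric_of_lt_one hr0.le hr2).mul_left _
  have h := hasDerivAt_tsum_of_isPreconnected
    (g := fun (n : ℕ) (y : ℂ) => ((gc n / n : ℝ) : ℂ) * y ^ n)
    (g' := fun (n : ℕ) (y : ℂ) => ((gc n / n : ℝ) : ℂ) * (n * y ^ (n - 1)))
    (t := Metric.ball (0 : ℂ) r) (y₀ := 0) (y := z) hu Metric.isOpen_ball
    (convex_ball (0 : ℂ) r).isPreconnected
    (fun n y _ => (hasDerivAt_pow n y).const_mul _)
    (fun n y hy => ?_) (Metric.mem_ball_self hr0) ?_ (by simpa using hr1)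
  · have e : (∑' n : ℕ, ((gc n / n : ℝ) : ℂ) * (n * z ^ (n - 1))) = psi1 z := by
      have hs : Summable (fun n : ℕ => ((gc n / n : ℝ) : ℂ) * (n * z ^ (n - 1))) := by
        rw [← summable_nat_add_iff 1]
        refine (hasSum_psi1 hz).summable.congr (fun n => ?_)
        have hn : ((n + 1 : ℕ) : ℂ) ≠ 0 := by exact_mod_cast Nat.succ_ne_zero n
        simp only [Nat.add_sub_cancel]
        rw [Complex.ofReal_div]
        push_cast at hn ⊢
        field_simp
      rw [hs.tsum_eq_zero_add]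
      unfold psi1
      simp only [Nat.cast_zero, zero_mul, mul_zero, zero_add]
      apply tsum_congr
      intro n
      have hn : ((n + 1 : ℕ) : ℂ) ≠ 0 := by exact_mod_cast Nat.succ_ne_zero n
      simp only [Nat.add_sub_cancel]
      rw [Complex.ofReal_div]
      push_cast at hn ⊢
      field_simp
    rw [e] at h
    exact h
  · have hy' : ‖y‖ < r := by simpa using hy
    rcases Nat.eq_zero_or_pos n with rfl | hn
    · simp
      norm_num
    · have hn' : (0 : ℝ) < n := by exact_mod_cast hn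
      rw [norm_mul, norm_mul, norm_pow, Complex.norm_real, Complex.norm_natCast,
        Real.norm_eq_abs, abs_div, Nat.abs_cast]
      have h3 : |gc n| / n * (n * ‖y‖ ^ (n - 1)) = |gc n| * ‖y‖ ^ (n - 1) := by
        field_simp
      rw [h3]
      apply mul_le_mul (abs_gc_le n) _ (by positivity) (by norm_num)
      exact pow_le_pow_left₀ (norm_nonneg _) hy'.le _
  · refine (hasSum_Psi (z := 0) (by simp)).summable

theorem differentiableOn_Psi : DifferentiableOn ℂ Psi (Metric.ball 0 1) := fun z hz =>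
  (hasDerivAt_Psi (by simpa using hz)).differentiableAt.differentiableWithinAt

theorem hasDerivAt_Es {z : ℂ} (hz : ‖z‖ < 1) : HasDerivAt Es (Es z * psi1 z) z :=
  (hasDerivAt_Psi hz).cexp

theorem Es_zero : Es 0 = 1 := by simp [Es, Psi_zero]

theorem Es_ne_zero (z : ℂ) : Es z ≠ 0 := Complex.exp_ne_zero _

open ComplexConjugate in
theorem Psi_conj (z : ℂ) : Psi (conj z) = conj (Psi z) := by
  unfold Psi
  rw [Complex.conj_tsum]
  apply tsum_congr
  intro j
  rw [map_mul, map_pow, Complex.conj_ofReal]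

open ComplexConjugate in
theorem psi1_conj (z : ℂ) : psi1 (conj z) = conj (psi1 z) := by
  unfold psi1
  rw [Complex.conj_tsum]
  apply tsum_congr
  intro j
  rw [map_mul, map_pow, Complex.conj_ofReal]

theorem Psi_add_neg {z : ℂ} (hz : ‖z‖ < 1) : Psi z + Psi (-z) = Complex.log (1 - z ^ 2) := by
  have hz' : ‖-z‖ < 1 := by simpa using hz
  have hz2 : ‖z ^ 2‖ < 1 := by
    rw [norm_pow]
    exact pow_lt_one₀ (norm_nonneg _) hz (by norm_num)
  have h1 := (hasSum_Psi hz).add (hasSum_Psi hz')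
  have h2 := (Complex.hasSum_taylorSeries_neg_log hz2).neg
  rw [neg_neg] at h2
  have he : HasSum (fun m : ℕ => ((gc (2 * m) / (2 * m : ℕ) : ℝ) : ℂ) * z ^ (2 * m)
      + ((gc (2 * m) / (2 * m : ℕ) : ℝ) : ℂ) * (-z) ^ (2 * m)) (Complex.log (1 - z ^ 2)) := by
    have e : (fun m : ℕ => ((gc (2 * m) / (2 * m : ℕ) : ℝ) : ℂ) * z ^ (2 * m)
        + ((gc (2 * m) / (2 * m : ℕ) : ℝ) : ℂ) * (-z) ^ (2 * m))
        = fun m : ℕ => -((z ^ 2) ^ m / (m : ℂ)) := by
      funext m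
      rcases Nat.eq_zero_or_pos m with rfl | hm
      · simp [gc_zero]
      · rw [gc_even m hm, pow_mul, pow_mul, neg_sq]
        have hn : (m : ℂ) ≠ 0 := by exact_mod_cast hm.ne'
        push_cast
        field_simp
        ring
    rw [e]
    exact h2
  have ho : HasSum (fun m : ℕ => ((gc (2 * m + 1) / (2 * m + 1 : ℕ) : ℝ) : ℂ) * z ^ (2 * m + 1)
      + ((gc (2 * m + 1) / (2 * m + 1 : ℕ) : ℝ) : ℂ) * (-z) ^ (2 * m + 1)) 0 := by
    have e : (fun m : ℕ => ((gc (2 * m + 1) / (2 * m + 1 : ℕ) : ℝ) : ℂ) * z ^ (2 * m + 1)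
        + ((gc (2 * m + 1) / (2 * m + 1 : ℕ) : ℝ) : ℂ) * (-z) ^ (2 * m + 1))
        = fun _ : ℕ => (0 : ℂ) := by
      funext m
      rw [Odd.neg_pow (by exact ⟨m, rfl⟩)]
      ring
    rw [e]
    exact hasSum_zero
  have h3 := HasSum.even_add_odd
    (f := fun j : ℕ => ((gc j / j : ℝ) : ℂ) * z ^ j + ((gc j / j : ℝ) : ℂ) * (-z) ^ j) he ho
  rw [add_zero] at h3
  exact h1.unique h3

theorem norm_Es (z : ℂ) : ‖Es z‖ = Real.exp (Psi z).re := Complex.norm_exp _

theorem Es_mul_neg {z : ℂ} (hz : ‖z‖ < 1) : Es z * Es (-z) = 1 - z ^ 2 := by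
  unfold Es
  rw [← Complex.exp_add, Psi_add_neg hz, Complex.exp_log]
  intro h
  have : z ^ 2 = 1 := by linear_combination -h
  have h2 : ‖z ^ 2‖ < 1 := by
    rw [norm_pow]
    exact pow_lt_one₀ (norm_nonneg _) hz (by norm_num)
  rw [this] at h2
  simp at h2

theorem norm_Es_mul_neg {z : ℂ} (hz : ‖z‖ < 1) : ‖Es z‖ * ‖Es (-z)‖ = ‖1 - z ^ 2‖ := by
  rw [← norm_mul, Es_mul_neg hz]

open ComplexConjugate in
theorem Es_conj (z : ℂ) : Es (conj z) = conj (Es z) := by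
  unfold Es
  rw [Psi_conj, Complex.exp_conj]

open ComplexConjugate in
theorem norm_Es_conj (z : ℂ) : ‖Es (conj z)‖ = ‖Es z‖ := by
  rw [Es_conj, Complex.norm_conj]

/-- `|E*(iy)|^2 = 1 + y^2`. -/
theorem norm_Es_I {y : ℝ} (hy : |y| < 1) : ‖Es ((y : ℂ) * I)‖ ^ 2 = 1 + y ^ 2 := by
  have hz : ‖(y : ℂ) * I‖ < 1 := by
    rw [norm_mul, Complex.norm_I, mul_one, Complex.norm_real, Real.norm_eq_abs]
    exact hy
  have h1 := norm_Es_mul_neg hz
  have h2 : ‖Es (-((y : ℂ) * I))‖ = ‖Es ((y : ℂ) * I)‖ := by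
    rw [← norm_Es_conj ((y : ℂ) * I)]
    congr 2
    simp
  rw [h2, ← sq] at h1
  rw [h1]
  have h3 : (1 : ℂ) - ((y : ℂ) * I) ^ 2 = ((1 + y ^ 2 : ℝ) : ℂ) := by
    rw [mul_pow, Complex.I_sq]
    push_cast
    ring
  rw [h3, Complex.norm_real, Real.norm_eq_abs, abs_of_nonneg (by positivity)]

theorem Psi_ofReal_im (r : ℝ) : (Psi (r : ℂ)).im = 0 := by
  rw [← Complex.conj_eq_iff_im, ← Psi_conj, Complex.conj_ofReal]

theorem psi1_ofReal_im (r : ℝ) : (psi1 (r : ℂ)).im = 0 := by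
  rw [← Complex.conj_eq_iff_im, ← psi1_conj, Complex.conj_ofReal]

end Pool.Agent.Lib.MP_0430e4_lc.BY
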