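import Mathlib

/-!
# Positivity of the low coefficients of `Φ^n = exp (n ψ)` (BEYOND, helper64)

`k c_k = n ∑_{j<k} g_{j+1} c_{k-1-j}`, `g_1 = s > 0`, `|g_j| ≤ G` for `j ≥ 2`, `c_0 = 1`:
then `c_k > 0` for all `k ≤ κ n`, where `κ (4G + 2s) ≤ s²`.
-/

set_option autoImplicit false

namespace Pool.Agent.Lib.MP_0430e4_lc.BY

open Finset

theorem low_pos {g c : ℕ → ℝ} {n s G κ : ℝ} (hn : 0 < n) (hs : 0 < s) (hG : 0 ≤ G) (hκ : 0 ≤ κ)
    (hg1 : g 1 = s) (hg : ∀ j, 2 ≤ j → |g j| ≤ G) (hk : κ * (4 * G + 2 * s) ≤ s ^ 2)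
    (hc0 : c 0 = 1)
    (hrec : ∀ k : ℕ, 1 ≤ k → (k : ℝ) * c k = n * ∑ j ∈ range k, g (j + 1) * c (k - 1 - j)) :
    ∀ k : ℕ, (k : ℝ) ≤ κ * n → 0 < c k ∧ (1 ≤ k → n * s * c (k - 1) ≤ 2 * k * c k) := by
  intro k
  induction k using Nat.strong_induction_on with
  | _ k ih =>
    intro hkn
    rcases Nat.eq_zero_or_pos k with h0 | hpos
    · subst h0
      refine ⟨by rw [hc0]; norm_num, fun h => absurd h (by norm_num)⟩
    set t : ℝ := 2 * κ / s with ht
    have ht0 : 0 ≤ t := by positivity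
    -- t (G + s/2) ≤ s/2
    have htG : t * (G + s / 2) ≤ s / 2 := by
      rw [ht, div_mul_eq_mul_div, div_le_iff₀ hs]
      nlinarith [hk]
    have ht1 : t * G ≤ (s / 2) * (1 - t) := by nlinarith [htG]
    have htlt : t ≤ 1 := by
      by_contra hc
      push Not at hc
      have : 0 ≤ t * G := mul_nonneg ht0 hG
      nlinarith
    have hpos' : ∀ i, i < k → 0 < c i := fun i hi =>
      (ih i hi (le_trans (by exact_mod_cast hi.le) hkn)).1
    -- decay backwards
    have hstep : ∀ j, j ≤ k - 1 → c (k - 1 - j) ≤ t ^ j * c (k - 1) := by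
      intro j
      induction j with
      | zero => intro _; simp
      | succ j ihj =>
        intro hj
        have h1 := ihj (by omega)
        have hi : k - 1 - j < k := by omega
        have h2 := (ih (k - 1 - j) hi (le_trans (by exact_mod_cast hi.le) hkn)).2 (by omega)
        have h3 : k - 1 - j - 1 = k - 1 - (j + 1) := by omega
        rw [h3] at h2
        have h4 : ((k - 1 - j : ℕ) : ℝ) ≤ κ * n := le_trans (by exact_mod_cast hi.le) hkn
        have h5 : 0 < c (k - 1 - j) := hpos' _ hi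
        have h6 : n * s * c (k - 1 - (j + 1)) ≤ n * s * (t * c (k - 1 - j)) := by
          have h7 : n * s * (t * c (k - 1 - j)) = 2 * (κ * n) * c (k - 1 - j) := by
            rw [ht]; field_simp
          rw [h7]
          refine le_trans h2 ?_
          apply mul_le_mul_of_nonneg_right _ h5.le
          linarith
        have h8 : c (k - 1 - (j + 1)) ≤ t * c (k - 1 - j) :=
          le_of_mul_le_mul_left h6 (mul_pos hn hs)
        calc c (k - 1 - (j + 1)) ≤ t * c (k - 1 - j) := h8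
          _ ≤ t * (t ^ j * c (k - 1)) := mul_le_mul_of_nonneg_left h1 ht0
          _ = t ^ (j + 1) * c (k - 1) := by ring
    have hck : 0 < c (k - 1) := hpos' _ (by omega)
    -- the sum
    have hsum : (s / 2) * c (k - 1) ≤ ∑ j ∈ range k, g (j + 1) * c (k - 1 - j) := by
      obtain ⟨m, rfl⟩ : ∃ m, k = m + 1 := ⟨k - 1, by omega⟩
      rw [Finset.sum_range_succ']
      simp only [Nat.add_sub_cancel, Nat.zero_add, Nat.sub_zero, hg1] at *
      have h9 : ∀ j ∈ range m, -(G * t ^ (j + 1) * c m) ≤ g (j + 1 + 1) * c (m - (j + 1)) := by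
        intro j hj
        rw [mem_range] at hj
        have h10 : 0 < c (m - (j + 1)) := hpos' _ (by omega)
        have h11 := hstep (j + 1) (by omega)
        have h12 : |g (j + 1 + 1) * c (m - (j + 1))| ≤ G * t ^ (j + 1) * c m := by
          rw [abs_mul, abs_of_pos h10, mul_assoc]
          exact mul_le_mul (hg _ (by omega)) h11 h10.le hG
        exact (abs_le.mp h12).1
      have h13 := Finset.sum_le_sum h9
      have h14 : ∑ j ∈ range m, -(G * t ^ (j + 1) * c m) = -(t * G * c m * ∑ j ∈ range m, t ^ j) := by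
        rw [Finset.sum_neg_distrib, Finset.mul_sum]
        congr 1
        apply Finset.sum_congr rfl
        intro j _
        ring
      rw [h14] at h13
      have h15 : (1 - t) * ∑ j ∈ range m, t ^ j ≤ 1 := by
        rw [mul_neg_geom_sum]
        have : 0 ≤ t ^ m := pow_nonneg ht0 m
        linarith
      have h16 : 0 ≤ ∑ j ∈ range m, t ^ j := Finset.sum_nonneg fun j _ => pow_nonneg ht0 j
      have h17 : t * G * c m * ∑ j ∈ range m, t ^ j ≤ s / 2 * c m := by
        calc t * G * c m * ∑ j ∈ range m, t ^ j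
            ≤ ((s / 2) * (1 - t)) * c m * ∑ j ∈ range m, t ^ j := by
              apply mul_le_mul_of_nonneg_right _ h16
              exact mul_le_mul_of_nonneg_right ht1 hck.le
          _ = s / 2 * c m * ((1 - t) * ∑ j ∈ range m, t ^ j) := by ring
          _ ≤ s / 2 * c m * 1 := by
              apply mul_le_mul_of_nonneg_left h15
              positivity
          _ = s / 2 * c m := mul_one _
      linarith
    have hkr := hrec k hpos
    have hk0 : (0 : ℝ) < k := by exact_mod_cast hpos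
    have h18 : n * ((s / 2) * c (k - 1)) ≤ (k : ℝ) * c k := by
      rw [hkr]
      exact mul_le_mul_of_nonneg_left hsum hn.le
    constructor
    · have : 0 < n * ((s / 2) * c (k - 1)) := by positivity
      exact (mul_pos_iff_of_pos_left hk0).mp (lt_of_lt_of_le this h18)
    · intro _
      linarith


open Metric in
/-- Leibniz recursion for the Taylor coefficients of `exp (n ψ)`. -/
theorem exp_rec {ψ : ℂ → ℂ} {R : ℝ} (hR : 0 < R) (hψ : DifferentiableOn ℂ ψ (ball 0 R)) (n : ℂ)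
    (k : ℕ) :
    iteratedDeriv (k + 1) (fun z => Complex.exp (n * ψ z)) 0
      = n * ∑ i ∈ range (k + 1), (k.choose i : ℂ) * iteratedDeriv (i + 1) ψ 0
          * iteratedDeriv (k - i) (fun z => Complex.exp (n * ψ z)) 0 := by
  have h0 : (0 : ℂ) ∈ ball (0 : ℂ) R := mem_ball_self hR
  have hnb : ball (0 : ℂ) R ∈ nhds (0 : ℂ) := isOpen_ball.mem_nhds h0
  have hΦ : DifferentiableOn ℂ (fun z => Complex.exp (n * ψ z)) (ball 0 R) :=
    ((differentiableOn_const n).mul hψ).cexp
  have hψa : AnalyticAt ℂ ψ 0 := hψ.analyticAt hnb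
  have hΦa : AnalyticAt ℂ (fun z => Complex.exp (n * ψ z)) 0 := hΦ.analyticAt hnb
  have he : deriv (fun z => Complex.exp (n * ψ z)) =ᶠ[nhds 0]
      (fun z => n * deriv ψ z) * (fun z => Complex.exp (n * ψ z)) := by
    filter_upwards [hnb] with z hz
    have h1 : HasDerivAt ψ (deriv ψ z) z := (hψ.differentiableAt (isOpen_ball.mem_nhds hz)).hasDerivAt
    have h2 : HasDerivAt (fun z => Complex.exp (n * ψ z)) (Complex.exp (n * ψ z) * (n * deriv ψ z)) z :=
      (h1.const_mul n).cexp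
    rw [h2.deriv, Pi.mul_apply, mul_comm]
  rw [iteratedDeriv_succ', he.iteratedDeriv_eq k, iteratedDeriv_mul, Finset.mul_sum]
  · apply Finset.sum_congr rfl
    intro i _
    have h3 : iteratedDeriv i (fun z => n * deriv ψ z) 0 = n * iteratedDeriv (i + 1) ψ 0 := by
      rw [iteratedDeriv_const_mul_field, iteratedDeriv_succ']
    rw [h3]
    ring
  · exact (analyticAt_const.mul hψa.deriv).contDiffAt
  · exact hΦa.contDiffAt

open Metric in
/-- Positivity of the low Taylor coefficients of `exp (n ψ)`. -/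
theorem exp_low_pos {ψ : ℂ → ℂ} {R : ℝ} (hR : 0 < R) (hψ : DifferentiableOn ℂ ψ (ball 0 R))
    (h0 : ψ 0 = 0) {s G κ : ℝ} (hs : 0 < s) (hG : 0 ≤ G) (hκ : 0 ≤ κ)
    (hk : κ * (4 * G + 2 * s) ≤ s ^ 2) (γ : ℕ → ℝ) (hγ1 : γ 1 = s) (hγ : ∀ j, 2 ≤ j → |γ j| ≤ G)
    (hc : ∀ j : ℕ, iteratedDeriv (j + 1) ψ 0 = (j.factorial : ℂ) * (γ (j + 1) : ℂ))
    {n : ℝ} (hn : 0 < n) (k : ℕ) (hkn : (k : ℝ) ≤ κ * n) :
    ∃ r : ℝ, 0 < r ∧
      iteratedDeriv k (fun z => Complex.exp ((n : ℂ) * ψ z)) 0 = (k.factorial : ℂ) * (r : ℂ) := by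
  set Φ : ℂ → ℂ := fun z => Complex.exp ((n : ℂ) * ψ z) with hΦ
  -- the coefficients are real
  have hreal : ∀ k : ℕ, ∃ r : ℝ, iteratedDeriv k Φ 0 = (k.factorial : ℂ) * (r : ℂ) := by
    intro k
    induction k using Nat.strong_induction_on with
    | _ k ih =>
      rcases Nat.eq_zero_or_pos k with hk0 | hkp
      · subst hk0
        refine ⟨1, ?_⟩
        simp [hΦ, h0]
      · obtain ⟨m, rfl⟩ : ∃ m, k = m + 1 := ⟨k - 1, by omega⟩
        have h1 : ∀ i : ℕ, ∃ r : ℝ, i ∈ range (m + 1) →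
            (m.choose i : ℂ) * iteratedDeriv (i + 1) ψ 0 * iteratedDeriv (m - i) Φ 0 = (r : ℂ) := by
          intro i
          obtain ⟨r, hr⟩ := ih (m - i) (by omega)
          refine ⟨(m.choose i : ℝ) * ((i.factorial : ℝ) * γ (i + 1)) * (((m - i).factorial : ℝ) * r), ?_⟩
          intro _
          rw [hr, hc]
          push_cast
          ring
        choose r hr using h1
        refine ⟨n * (∑ i ∈ range (m + 1), r i) / ((m + 1).factorial : ℝ), ?_⟩
        rw [exp_rec hR hψ, Finset.sum_congr rfl hr]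
        push_cast
        have : (((m + 1).factorial : ℕ) : ℂ) ≠ 0 := by exact_mod_cast Nat.factorial_ne_zero _
        field_simp
  choose c hcr using hreal
  have hc0 : c 0 = 1 := by
    have h1 := hcr 0
    simp [hΦ, h0] at h1
    exact_mod_cast h1.symm
  have hrec : ∀ k : ℕ, 1 ≤ k → (k : ℝ) * c k = n * ∑ j ∈ range k, γ (j + 1) * c (k - 1 - j) := by
    intro k hk1
    obtain ⟨m, rfl⟩ : ∃ m, k = m + 1 := ⟨k - 1, by omega⟩
    have h1 := exp_rec hR hψ (n : ℂ) m
    rw [hcr (m + 1)] at h1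
    have h2 : ∀ i ∈ range (m + 1), (m.choose i : ℂ) * iteratedDeriv (i + 1) ψ 0 * iteratedDeriv (m - i) Φ 0
        = (m.factorial : ℂ) * ((γ (i + 1) : ℂ) * (c (m - i) : ℂ)) := by
      intro i hi
      rw [mem_range] at hi
      rw [hcr, hc]
      have h3 : (m.choose i : ℂ) * (i.factorial : ℂ) * ((m - i).factorial : ℂ) = (m.factorial : ℂ) := by
        exact_mod_cast Nat.choose_mul_factorial_mul_factorial (show i ≤ m by omega)
      rw [← h3]
      ring
    rw [Finset.sum_congr rfl h2, ← Finset.mul_sum, Nat.factorial_succ] at h1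
    have h4 : (m.factorial : ℂ) ≠ 0 := by exact_mod_cast Nat.factorial_ne_zero _
    have h5 : ((m + 1 : ℕ) : ℂ) * (c (m + 1) : ℂ) = (n : ℂ) * ∑ i ∈ range (m + 1), (γ (i + 1) : ℂ) * (c (m - i) : ℂ) := by
      have h6 : (m.factorial : ℂ) * (((m + 1 : ℕ) : ℂ) * (c (m + 1) : ℂ))
          = (m.factorial : ℂ) * ((n : ℂ) * ∑ i ∈ range (m + 1), (γ (i + 1) : ℂ) * (c (m - i) : ℂ)) := by
        push_cast at h1 ⊢
        linear_combination h1
      exact mul_left_cancel₀ h4 h6
    rw [Nat.add_sub_cancel]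
    exact_mod_cast h5
  refine ⟨c k, (low_pos hn hs hG hκ hγ1 hγ hk hc0 hrec k hkn).1, hcr k⟩

end Pool.Agent.Lib.MP_0430e4_lc.BY
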