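import Pool.Agent.Lib.MP_0430e4_lc.BY.ThreeLP

/-!
(III) of project BEYOND (helper71), numbers: `r = 7N`, `s = 26N + 1`, `n < 160N`:
`|C|^2 <= 2^(159N+6)` for codes with all distances divisible by 4 and distance at least `28N`.
-/

open Finset PowerSeries

namespace Pool.Agent.Lib.MP_0430e4_lc.BY.Three

variable {n : ℕ}

theorem choose_ratio (N k : ℕ) :
    3 ^ k * (32 * N + 1 + k).choose (6 * N + k) ≤ 16 ^ k * (32 * N + 1).choose (6 * N) := by
  induction k with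
  | zero => simp
  | succ k ih =>
    have h1 := Nat.add_one_mul_choose_eq (32 * N + 1 + k) (6 * N + k)
    -- (32N+2+k) * choose (32N+1+k) (6N+k) = choose (32N+2+k) (6N+k+1) * (6N+k+1)
    have h2 : (32 * N + 1 + (k + 1)).choose (6 * N + (k + 1)) * (6 * N + k + 1)
        = (32 * N + 2 + k) * (32 * N + 1 + k).choose (6 * N + k) := by
      rw [show 32 * N + 2 + k = 32 * N + 1 + k + 1 by omega, h1]
      rfl
    have h3 : 0 < 6 * N + k + 1 := by omega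
    apply Nat.le_of_mul_le_mul_right _ h3
    calc 3 ^ (k + 1) * (32 * N + 1 + (k + 1)).choose (6 * N + (k + 1)) * (6 * N + k + 1)
        = 3 * (32 * N + 2 + k) * (3 ^ k * (32 * N + 1 + k).choose (6 * N + k)) := by
          rw [mul_assoc, h2]; ring
      _ ≤ 16 * (6 * N + k + 1) * (3 ^ k * (32 * N + 1 + k).choose (6 * N + k)) :=
          Nat.mul_le_mul_right _ (by omega)
      _ ≤ 16 * (6 * N + k + 1) * (16 ^ k * (32 * N + 1).choose (6 * N)) :=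
          Nat.mul_le_mul_left _ ih
      _ = _ := by ring

theorem two_pow_le_choose (N : ℕ) (hN : 6 ≤ N) : 2 ^ N ≤ (3 * N - 6).choose N := by
  have h1 : (2 * N).choose N ≤ (3 * N - 6).choose N := Nat.choose_le_choose N (by omega)
  refine le_trans ?_ h1
  have h2 := Nat.four_pow_le_two_mul_self_mul_centralBinom N (by omega)
  rw [Nat.centralBinom] at h2
  have h3 : 2 * N ≤ 2 ^ N := by
    clear h1 h2
    induction N, hN using Nat.le_induction with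
    | base => norm_num
    | succ N hN ih => rw [pow_succ]; omega
  have h4 : (4 : ℕ) ^ N = 2 ^ N * 2 ^ N := by rw [← mul_pow]; norm_num
  have h5 : 2 ^ N * 2 ^ N ≤ 2 ^ N * (2 * N).choose N :=
    calc 2 ^ N * 2 ^ N = 4 ^ N := h4.symm
      _ ≤ 2 * N * (2 * N).choose N := h2
      _ ≤ 2 ^ N * (2 * N).choose N := Nat.mul_le_mul_right _ h3
  exact Nat.le_of_mul_le_mul_left h5 (by positivity)

theorem final_aux {m : ℕ} {M E : ℝ} (hM : 0 ≤ M) (h : (3 : ℝ) ^ m * 2 ^ (m + 1) * M ≤ E * 16 ^ m) :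
    4 * M ^ 2 ≤ 8 ^ m * E ^ 2 := by
  have d3 : ((6 : ℝ) ^ m * (2 * M)) ^ 2 ≤ (E * 16 ^ m) ^ 2 := by
    apply pow_le_pow_left₀ (by positivity)
    have : (6 : ℝ) ^ m * (2 * M) = 3 ^ m * 2 ^ (m + 1) * M := by
      rw [show (6 : ℝ) = 3 * 2 by norm_num, mul_pow, pow_succ]; ring
    rw [this]; exact h
  have d4 : (256 : ℝ) ^ m ≤ 8 ^ m * 36 ^ m := by
    rw [← mul_pow]; exact pow_le_pow_left₀ (by norm_num) (by norm_num) m
  have e1 : ((6 : ℝ) ^ m * (2 * M)) ^ 2 = 36 ^ m * (4 * M ^ 2) := by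
    rw [mul_pow, ← pow_mul, mul_comm m 2, pow_mul]; norm_num; ring
  have e2 : (E * 16 ^ m) ^ 2 = (256 : ℝ) ^ m * E ^ 2 := by
    rw [mul_pow, ← pow_mul, mul_comm m 2, pow_mul]; norm_num; ring
  rw [e1, e2] at d3
  have d5 : (36 : ℝ) ^ m * (4 * M ^ 2) ≤ 36 ^ m * (8 ^ m * E ^ 2) := by
    calc (36 : ℝ) ^ m * (4 * M ^ 2) ≤ (256 : ℝ) ^ m * E ^ 2 := d3
      _ ≤ (8 ^ m * 36 ^ m) * E ^ 2 := mul_le_mul_of_nonneg_right d4 (sq_nonneg _)
      _ = _ := by ring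
  exact le_of_mul_le_mul_left d5 (by positivity)

theorem final_num {N : ℕ} {M : ℝ} (hN : 6 ≤ N) (hM : 0 ≤ M)
    (h : (3 : ℝ) ^ (N - 1) * 2 ^ N * M ≤ 8 ^ (26 * N + 1) * 16 ^ (N - 1)) :
    M ^ 2 ≤ (2 : ℝ) ^ (159 * N + 6) := by
  obtain ⟨m, rfl⟩ : ∃ m, N = m + 1 := ⟨N - 1, by omega⟩
  rw [Nat.add_sub_cancel] at h
  have d6 := final_aux hM h
  have d7 : (8 : ℝ) ^ m * (8 ^ (26 * (m + 1) + 1)) ^ 2 = 2 ^ (3 * m + 3 * ((26 * (m + 1) + 1) * 2)) := by
    rw [← pow_mul, pow_add, pow_mul 2 3 m, pow_mul 2 3]; norm_num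
  have d8 : (2 : ℝ) ^ (3 * m + 3 * ((26 * (m + 1) + 1) * 2)) ≤ 2 ^ (159 * (m + 1) + 6) :=
    pow_le_pow_right₀ (by norm_num) (by omega)
  rw [d7] at d6
  have : (0 : ℝ) ≤ M ^ 2 := sq_nonneg _
  linarith

/-- numerical form -/
theorem four_num {N : ℕ} (hN : 6 ≤ N) (hn : n < 160 * N) (Cd : Finset (Wd n))
    (h4 : ∀ x ∈ Cd, ∀ y ∈ Cd, 4 ∣ wt (x - y))
    (hd : ∀ x ∈ Cd, ∀ y ∈ Cd, x ≠ y → 28 * N ≤ wt (x - y)) :
    (Cd.card : ℝ) ^ 2 ≤ (2 : ℝ) ^ (159 * N + 6) := by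
  have hb := four_bound (n := n) (e := 160 * N - n) (s := 26 * N + 1) (t := 2 * N - 5) (r := 7 * N)
    (by omega) (by omega) ⟨13 * N, by ring⟩ Cd h4
    (fun x hx y hy hxy => by have := hd x hx y hy hxy; omega)
  have hG := G_lower (160 * N - n) (26 * N + 1) (2 * N - 5) (6 * N) N (by omega)
  rw [show 1 + 4 * (6 * N) + 2 * N = 26 * N + 1 by ring] at hG
  -- multichoose to choose
  have m1 : (7 * N).multichoose (26 * N + 1) = (32 * N + 1 + (N - 1)).choose (6 * N + (N - 1)) := by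
    rw [Nat.multichoose_eq, show 7 * N + (26 * N + 1) - 1 = 33 * N by omega,
      show 32 * N + 1 + (N - 1) = 33 * N by omega, show 6 * N + (N - 1) = 33 * N - (26 * N + 1) by omega,
      Nat.choose_symm (by omega)]
  have m2 : (26 * N + 1 + 1).multichoose (6 * N) = (32 * N + 1).choose (6 * N) := by
    rw [Nat.multichoose_eq]; congr 1; omega
  have m3 : (2 * N - 5).multichoose N = (3 * N - 6).choose N := by
    rw [Nat.multichoose_eq]; congr 1; omega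
  rw [m2, m3] at hG
  rw [m1] at hb
  have c1 := choose_ratio N (N - 1)
  have c2 := two_pow_le_choose N hN
  set P : ℝ := coeff (26 * N + 1) (G (160 * N - n) (26 * N + 1) (2 * N - 5)) with hP
  set c : ℝ := ((32 * N + 1).choose (6 * N) : ℝ) with hc
  set K : ℝ := ((32 * N + 1 + (N - 1)).choose (6 * N + (N - 1)) : ℝ) with hK
  have hcpos : 0 < c := by
    rw [hc]; exact_mod_cast Nat.choose_pos (by omega)
  have c1' : (3 : ℝ) ^ (N - 1) * K ≤ 16 ^ (N - 1) * c := by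
    rw [hK, hc]; exact_mod_cast c1
  have c2' : (2 : ℝ) ^ N ≤ ((3 * N - 6).choose N : ℝ) := by exact_mod_cast c2
  have hM0 : (0 : ℝ) ≤ Cd.card := Nat.cast_nonneg _
  have d1 : c * 2 ^ N * Cd.card ≤ 8 ^ (26 * N + 1) * K := by
    calc c * 2 ^ N * Cd.card ≤ c * ((3 * N - 6).choose N : ℝ) * Cd.card :=
          mul_le_mul_of_nonneg_right (mul_le_mul_of_nonneg_left c2' hcpos.le) hM0
      _ ≤ P * Cd.card := mul_le_mul_of_nonneg_right hG hM0
      _ ≤ _ := hb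
  have d2 : (3 : ℝ) ^ (N - 1) * 2 ^ N * Cd.card ≤ 8 ^ (26 * N + 1) * 16 ^ (N - 1) := by
    have : c * ((3 : ℝ) ^ (N - 1) * 2 ^ N * Cd.card) ≤ c * (8 ^ (26 * N + 1) * 16 ^ (N - 1)) := by
      calc c * ((3 : ℝ) ^ (N - 1) * 2 ^ N * Cd.card) = 3 ^ (N - 1) * (c * 2 ^ N * Cd.card) := by ring
        _ ≤ 3 ^ (N - 1) * (8 ^ (26 * N + 1) * K) := mul_le_mul_of_nonneg_left d1 (by positivity)
        _ = 8 ^ (26 * N + 1) * (3 ^ (N - 1) * K) := by ring
        _ ≤ 8 ^ (26 * N + 1) * (16 ^ (N - 1) * c) := mul_le_mul_of_nonneg_left c1' (by positivity)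
        _ = _ := by ring
    exact le_of_mul_le_mul_left this hcpos
  exact final_num hN hM0 d2

end Pool.Agent.Lib.MP_0430e4_lc.BY.Three
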