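import Pool.Agent.Lib.MP_0430e4_lc.BY.Struct
import Pool.Agent.Lib.MP_0430e4_lc.BY.ThreeNum

/-!
(III) of project BEYOND (helper71): codes (linear or not) all of whose distances are divisible by 4
and at least `(1/2 - 1/pi) n` have rate at most `1/2 - 1/400`. Closed form certificate, see
ThreeSer / ThreeCert / ThreeLP / ThreeNum.
-/

open Finset

namespace Pool.Agent.Lib.MP_0430e4_lc.BY

theorem four_pi_bound : (9 : ℝ) / 50 < 1 / 2 - 1 / Real.pi := by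
  have h1 : (3.14 : ℝ) < Real.pi := Real.pi_gt_d2
  have h2 : 1 / Real.pi < 1 / 3.14 := one_div_lt_one_div_of_lt (by norm_num) h1
  have h3 : (1 : ℝ) / 3.14 < 8 / 25 := by norm_num
  linarith

/-- explicit form: all distances divisible by 4 and at least `9n/50` -/
theorem four_rate {n : ℕ} (hn : 200000 ≤ n) (C : Finset (Wd n))
    (hd : ∀ x ∈ C, ∀ y ∈ C, x ≠ y → (9 / 50 : ℝ) * n ≤ (wt (x - y) : ℝ))
    (h4 : ∀ x ∈ C, ∀ y ∈ C, 4 ∣ wt (x - y)) : (C.card : ℝ) ≤ pw n (1 / 2 - 1 / 400) := by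
  obtain ⟨N, hN⟩ : ∃ N, N = n / 160 + 1 := ⟨_, rfl⟩
  have hN1 : n < 160 * N := by omega
  have hN2 : 160 * N ≤ n + 160 := by omega
  have hN6 : 6 ≤ N := by omega
  have hN2' : (160 : ℝ) * N ≤ n + 160 := by exact_mod_cast hN2
  have hn' : (200000 : ℝ) ≤ n := by exact_mod_cast hn
  have key := Three.four_num hN6 hN1 C h4 (fun x hx y hy hxy => by
    have h5 := hd x hx y hy hxy
    have h6 : (28 : ℝ) * N ≤ (wt (x - y) : ℝ) := by nlinarith
    exact_mod_cast h6)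
  have hM0 : (0 : ℝ) ≤ C.card := Nat.cast_nonneg _
  apply le_of_sq_le_sq _ (pw_pos n _).le
  rw [pw_pow]
  refine key.trans ?_
  unfold pw
  rw [← Real.rpow_natCast]
  apply Real.rpow_le_rpow_of_exponent_le (by norm_num)
  push_cast
  nlinarith

/-- (III): codes with all distances divisible by 4 and distance `(1/2 - 1/pi) n` have rate
at most `1/2 - 1/400` -/
theorem hIII : ∃ ε : ℝ, 0 < ε ∧ ∃ n0 : ℕ, ∀ n ≥ n0, ∀ C : Finset (Wd n),
      IsCode ⌈(1 / 2 - 1 / Real.pi) * n⌉₊ C →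
      (∀ x ∈ C, ∀ y ∈ C, 4 ∣ wt (x - y)) → (C.card : ℝ) ≤ pw n (1 / 2 - ε) := by
  refine ⟨1 / 400, by norm_num, 200000, fun n hn C hC h4 => four_rate hn C ?_ h4⟩
  intro x hx y hy hxy
  have h1 := hC x hx y hy hxy
  have h2 : ((1 / 2 - 1 / Real.pi) * n : ℝ) ≤ ⌈(1 / 2 - 1 / Real.pi) * n⌉₊ := Nat.le_ceil _
  have h3 : (⌈(1 / 2 - 1 / Real.pi) * n⌉₊ : ℝ) ≤ (wt (x - y) : ℝ) := by exact_mod_cast h1
  have h4 : (9 / 50 : ℝ) * n ≤ (1 / 2 - 1 / Real.pi) * n :=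
    mul_le_mul_of_nonneg_right four_pi_bound.le (Nat.cast_nonneg _)
  linarith

end Pool.Agent.Lib.MP_0430e4_lc.BY
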