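import Pool.Agent.Lib.MP_0430e4_lc.BY.P.N14
import Pool.Agent.Lib.MP_0430e4_lc.BY.P.AGood
import Pool.Agent.Lib.MP_0430e4_lc.BY.P.ALow
import Pool.Agent.Lib.MP_0430e4_lc.BY.P.VEx
import Pool.Agent.Lib.MP_0430e4_lc.BY.H.Main
import Pool.Agent.Lib.MP_0430e4_lc.BY.Three
import Pool.Agent.Lib.MP_0430e4_lc.BY.FromM2

/-!
# BEYOND: assembly
-/

set_option autoImplicit false

namespace Pool.Agent.Lib.MP_0430e4_lc.BY

private theorem low_ok_all : LowOK := by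
  intro V R v1 e K ya yb hD
  obtain ⟨a0, h0, h⟩ := low_bound hD.hR hD.diff hD.conj hD.zero (by rw [hD.der]; exact hD.hv1)
  exact ⟨a0, h0, h⟩

/-- **the theorem, given the perturbation `V`** -/
theorem beyond_of_V (hV : ExistsV) :
    ∃ c : ℝ, 0 < c ∧ ∀ δ : ℝ, |δ - (1 / 2 - 1 / Real.pi)| < c → Rr δ ≤ Tensor.ell δ - c :=
  beyond_of_ThmM (thmM (existsGood_of hV low_ok_all) HA_holds HB_holds HHigh_holds gr_tenth) hIII

/-- **BEYOND** -/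
theorem beyond :
    ∃ c : ℝ, 0 < c ∧ ∀ δ : ℝ, |δ - (1 / 2 - 1 / Real.pi)| < c → Rr δ ≤ Tensor.ell δ - c :=
  beyond_of_V existsV

end Pool.Agent.Lib.MP_0430e4_lc.BY
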