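import Pool.Agent.Lib.MP_0430e4_lc.BY.Struct

/-!
Step (0) of ALLCODES.md (helper1, project BEYOND): the distance enumerator near `z = i` is controlled
by the sums `T_s`.
-/

open Finset

namespace Pool.Agent.Lib.MP_0430e4_lc.BY

variable {n : ℕ}

/-- `a = (1 - iz)/2`, `b = (1 + iz)/2` -/
noncomputable def ca (z : ℂ) : ℂ := (1 - Complex.I * z) / 2
noncomputable def cb (z : ℂ) : ℂ := (1 + Complex.I * z) / 2

/-- `a^(n-|s|) b^|s|` -/
noncomputable def cw (z : ℂ) (s : Wd n) : ℂ := ∏ j, if s j = 0 then ca z else cb z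

theorem prod_expand (z : ℂ) (u : Wd n) :
    ∏ j, (ca z + cb z * (sg (u j) : ℂ)) = ∑ s : Wd n, cw z s * (e s u : ℂ) := by
  have h1 : ∀ j : Fin n, ca z + cb z * (sg (u j) : ℂ) =
      ∑ v : ZMod 2, (if v = 0 then ca z else cb z) * (sg (v * u j) : ℂ) := by
    intro j
    rw [show (Finset.univ : Finset (ZMod 2)) = {0, 1} from by decide]
    rw [Finset.sum_pair (by decide)]
    simp [sg_zero]
  rw [Finset.prod_congr rfl fun j _ => h1 j, Finset.prod_univ_sum, Fintype.piFinset_univ]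
  apply Finset.sum_congr rfl
  intro s _
  unfold cw e dotProduct
  rw [sg_sum, Complex.ofReal_prod, ← Finset.prod_mul_distrib]

theorem pow_wt (z : ℂ) (u : Wd n) : z ^ wt u = ∑ s : Wd n, cw z s * (qi u * (e s u : ℂ)) := by
  have h1 : z ^ wt u = ∏ j, (if u j = 0 then 1 else z) := by
    unfold wt hammingNorm
    rw [Finset.prod_ite, Finset.prod_const_one, one_mul, Finset.prod_const]
  have h2 : z ^ wt u = qi u * ∏ j, (ca z + cb z * (sg (u j) : ℂ)) := by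
    rw [h1, qi_eq, ← Finset.prod_mul_distrib]
    apply Finset.prod_congr rfl
    intro j _
    rcases z01 (u j) with h | h
    · simp only [h, gi, sg, if_true, ca, cb]; push_cast; ring
    · have h10 : (1 : ZMod 2) ≠ 0 := by decide
      simp only [h, gi, sg, if_neg h10, ca, cb]
      push_cast
      have hI := Complex.I_mul_I
      linear_combination z * hI
  rw [h2, prod_expand, Finset.mul_sum]
  apply Finset.sum_congr rfl
  intro s _
  ring

theorem enum_eq (C : Finset (Wd n)) (z : ℂ) :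
    ∑ x ∈ C, ∑ y ∈ C, z ^ wt (x + y) = ∑ s : Wd n, cw z s * Tsum C s := by
  unfold Tsum
  simp only [pow_wt, Finset.mul_sum]
  calc ∑ x ∈ C, ∑ y ∈ C, ∑ s : Wd n, cw z s * (qi (x + y) * (e s (x + y) : ℂ))
      = ∑ x ∈ C, ∑ s : Wd n, ∑ y ∈ C, cw z s * (qi (x + y) * (e s (x + y) : ℂ)) :=
        Finset.sum_congr rfl fun x _ => Finset.sum_comm
    _ = _ := Finset.sum_comm

theorem sum_norm_cw (z : ℂ) : ∑ s : Wd n, ‖cw z s‖ = (‖ca z‖ + ‖cb z‖) ^ n := by
  have h1 : ∀ s : Wd n, ‖cw z s‖ = ∏ j, (if s j = 0 then ‖ca z‖ else ‖cb z‖) := by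
    intro s
    unfold cw
    rw [norm_prod]
    apply Finset.prod_congr rfl
    intro j _
    split_ifs <;> rfl
  have h2 : ‖ca z‖ + ‖cb z‖ = ∑ v : ZMod 2, (if v = 0 then ‖ca z‖ else ‖cb z‖) := by
    rw [show (Finset.univ : Finset (ZMod 2)) = {0, 1} from by decide]
    rw [Finset.sum_pair (by decide)]
    simp
  rw [Finset.sum_congr rfl fun s _ => h1 s]
  calc ∑ s : Wd n, ∏ j, (if s j = 0 then ‖ca z‖ else ‖cb z‖)
      = ∏ _j : Fin n, ∑ v : ZMod 2, (if v = 0 then ‖ca z‖ else ‖cb z‖) := by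
        rw [Finset.prod_univ_sum, Fintype.piFinset_univ]
    _ = (‖ca z‖ + ‖cb z‖) ^ n := by rw [← h2, Finset.prod_const, Finset.card_univ, Fintype.card_fin]

/-- **Step (0)** -/
theorem enum_le (C : Finset (Wd n)) (z : ℂ) {T : ℝ} (hT : ∀ s, ‖Tsum C s‖ ≤ T) :
    ‖∑ x ∈ C, ∑ y ∈ C, z ^ wt (x - y)‖ ≤ (‖ca z‖ + ‖cb z‖) ^ n * T := by
  have h0 : ∑ x ∈ C, ∑ y ∈ C, z ^ wt (x - y) = ∑ x ∈ C, ∑ y ∈ C, z ^ wt (x + y) := by
    simp only [sub_eq_add']
  rw [h0, enum_eq, ← sum_norm_cw, Finset.sum_mul]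
  refine (norm_sum_le _ _).trans (Finset.sum_le_sum fun s _ => ?_)
  rw [norm_mul]
  exact mul_le_mul_of_nonneg_left (hT s) (norm_nonneg _)

theorem norm_ca_cb (z : ℂ) : ‖ca z‖ + ‖cb z‖ ≤ 1 + ‖z - Complex.I‖ := by
  have h1 : ca z = 1 - Complex.I * (z - Complex.I) / 2 := by
    unfold ca
    have hI := Complex.I_mul_I
    linear_combination (-1 / 2) * hI
  have h2 : cb z = Complex.I * (z - Complex.I) / 2 := by
    unfold cb
    have hI := Complex.I_mul_I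
    linear_combination (1 / 2) * hI
  have h3 : ‖Complex.I * (z - Complex.I) / 2‖ = ‖z - Complex.I‖ / 2 := by
    rw [norm_div, norm_mul, Complex.norm_I, one_mul, Complex.norm_ofNat]
  have h4 : ‖ca z‖ ≤ 1 + ‖z - Complex.I‖ / 2 := by
    rw [h1]
    refine (norm_sub_le _ _).trans ?_
    rw [h3, norm_one]
  rw [h2, h3]
  linarith

/-- **Theorem M ⟹ (I)**: if near-optimal codes have a large enumerator somewhere near `i`, then they
have a large sum `T_s`. -/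
theorem hI_of_M (D : ℕ → ℕ)
    (hM : ∀ ρ : ℝ, 0 < ρ → ∀ τ : ℝ, 0 < τ → ∃ ε : ℝ, 0 < ε ∧ ∃ n0 : ℕ, ∀ n ≥ n0,
      ∀ C : Finset (Wd n), IsCode (D n) C → pw n (1 / 2 - ε) ≤ C.card →
        ∃ z : ℂ, ‖z - Complex.I‖ ≤ ρ ∧
          pw n (1 / 2 - τ) * C.card ≤ ‖∑ x ∈ C, ∑ y ∈ C, z ^ wt (x - y)‖) :
    ∀ c : ℝ, 0 < c → ∃ ε : ℝ, 0 < ε ∧ ∃ n0 : ℕ, ∀ n ≥ n0, ∀ C : Finset (Wd n), IsCode (D n) C →
      pw n (1 / 2 - ε) ≤ C.card → ∃ s : Wd n, pw n (1 / 2 - c) * C.card ≤ ‖Tsum C s‖ := by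
  intro c hc
  obtain ⟨ε, hε, n0, h⟩ := hM (c / 4) (by positivity) (c / 4) (by positivity)
  refine ⟨ε, hε, max n0 1, fun n hn C hC hcard => ?_⟩
  have hn1 : 1 ≤ n := (le_max_right _ _).trans hn
  obtain ⟨z, hz, hzW⟩ := h n ((le_max_left _ _).trans hn) C hC hcard
  by_contra hcon
  push Not at hcon
  have hCpos : (0 : ℝ) < C.card := lt_of_lt_of_le (pw_pos n _) hcard
  have h1 := enum_le C z (T := pw n (1 / 2 - c) * C.card) (fun s => (hcon s).le)
  have h2 : (‖ca z‖ + ‖cb z‖) ^ n ≤ pw n (c / 2) := by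
    have h3 : ‖ca z‖ + ‖cb z‖ ≤ (2 : ℝ) ^ (c / 2) := by
      calc ‖ca z‖ + ‖cb z‖ ≤ 1 + ‖z - Complex.I‖ := norm_ca_cb z
        _ ≤ 1 + c / 4 := by linarith
        _ ≤ Real.exp (c / 4) := by rw [add_comm]; exact Real.add_one_le_exp _
        _ ≤ Real.exp (Real.log 2 * (c / 2)) := by
            apply Real.exp_le_exp.mpr
            have := Real.log_two_gt_d9
            nlinarith
        _ = (2 : ℝ) ^ (c / 2) := by rw [Real.rpow_def_of_pos (by norm_num)]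
    calc (‖ca z‖ + ‖cb z‖) ^ n ≤ ((2 : ℝ) ^ (c / 2)) ^ n :=
          pow_le_pow_left₀ (by positivity) h3 n
      _ = pw n (c / 2) := by
          unfold pw; rw [Real.rpow_mul (by norm_num), Real.rpow_natCast]
  have h4 : pw n (1 / 2 - c / 4) * C.card ≤ pw n (c / 2) * (pw n (1 / 2 - c) * C.card) :=
    hzW.trans (h1.trans (mul_le_mul_of_nonneg_right h2 (mul_nonneg (pw_pos n _).le hCpos.le)))
  have h5 : pw n (c / 2) * (pw n (1 / 2 - c) * C.card) = pw n (1 / 2 - c / 2) * C.card := by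
    rw [← mul_assoc, ← pw_add]; congr 2; ring
  rw [h5] at h4
  have h6 := le_of_mul_le_mul_right h4 hCpos
  have h7 : pw n (1 / 2 - c / 2) < pw n (1 / 2 - c / 4) := by
    unfold pw
    apply Real.rpow_lt_rpow_of_exponent_lt (by norm_num)
    apply mul_lt_mul_of_pos_right (by linarith)
    exact_mod_cast hn1
  linarith

end Pool.Agent.Lib.MP_0430e4_lc.BY
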