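import Pool.Agent.Lib.MP_0430e4_lc.BY.Final
import Pool.Agent.Lib.MP_0430e4_lc.BY.Enum
import Pool.Agent.Lib.MP_0430e4_lc.PFR.Pfr

/-!
Assembly of project BEYOND (helper1): Marton's conjecture (`PFR.pfr`) is plugged into `struct`; what
remains is Theorem M (`hM`) and the bound for codes with all distances divisible by four (`hIII`).
-/

open Finset Filter Topology
open scoped Pointwise

namespace Pool.Agent.Lib.MP_0430e4_lc.BY

/-- hypothesis (P) of `struct` -/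
theorem hP (n : ℕ) (A : Finset (Wd n)) (hA : A.Nonempty) (K : ℝ)
    (hK : ((A + A).card : ℝ) ≤ K * A.card) :
    ∃ (V : AddSubgroup (Wd n)) (x : Wd n) (A' : Finset (Wd n)), Nat.card V ≤ A.card ∧
      (∀ a ∈ A', a ∈ A ∧ x - a ∈ V) ∧ (A.card : ℝ) / (2 * K ^ 200) ≤ A'.card := by
  classical
  have hAc : 0 < (A.card : ℝ) := by exact_mod_cast hA.card_pos
  have hAAc : (A.card : ℝ) ≤ ((A + A).card : ℝ) := by
    exact_mod_cast Finset.card_le_card_add_right hA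
  have hK1 : 1 ≤ K := by
    have h1 : 1 * (A.card : ℝ) ≤ K * A.card := by linarith
    exact le_of_mul_le_mul_right h1 hAc
  have hcard : ∀ i1 i2 : DecidableEq (Wd n),
      (@HAdd.hAdd (Finset (Wd n)) (Finset (Wd n)) (Finset (Wd n))
        (@instHAdd _ (@Finset.add (Wd n) i1 _)) A A).card =
      (@HAdd.hAdd (Finset (Wd n)) (Finset (Wd n)) (Finset (Wd n))
        (@instHAdd _ (@Finset.add (Wd n) i2 _)) A A).card := by
    intro i1 i2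
    rw [Subsingleton.elim i1 i2]
  obtain ⟨V, x, hV, hx⟩ := PFR.pfr (G := Wd n) add_self hA (K := K)
    ((le_of_eq (congrArg (Nat.cast : ℕ → ℝ) (hcard _ _))).trans hK)
  refine ⟨V, x, A.filter (fun a => x - a ∈ V), hV, fun a ha => Finset.mem_filter.mp ha, ?_⟩
  have h2 : (A.card : ℝ) / (2 * K ^ 200) ≤ (A.card : ℝ) / (2 * K ^ 108) := by
    apply div_le_div_of_nonneg_left hAc.le (by positivity)
    have := pow_le_pow_right₀ hK1 (show 108 ≤ 200 by norm_num)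
    linarith
  have hfil : ∀ i1 i2 : DecidablePred (fun a : Wd n => x - a ∈ V),
      (@Finset.filter _ (fun a : Wd n => x - a ∈ V) i1 A).card =
        (@Finset.filter _ (fun a : Wd n => x - a ∈ V) i2 A).card := by
    intro i1 i2
    rw [Subsingleton.elim i1 i2]
  exact h2.trans (hx.trans (le_of_eq (congrArg (Nat.cast : ℕ → ℝ) (hfil _ _))))

/-- **Assembly**: Theorem M and (III) at `δ* = 1/2 - 1/π` give `R(δ*) ≤ 1/2 - ε`. -/
theorem rate_of (hM : ∀ ρ : ℝ, 0 < ρ → ∀ τ : ℝ, 0 < τ → ∃ ε : ℝ, 0 < ε ∧ ∃ n0 : ℕ, ∀ n ≥ n0,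
      ∀ C : Finset (Wd n), IsCode ⌈(1 / 2 - 1 / Real.pi) * n⌉₊ C → pw n (1 / 2 - ε) ≤ C.card →
        ∃ z : ℂ, ‖z - Complex.I‖ ≤ ρ ∧
          pw n (1 / 2 - τ) * C.card ≤ ‖∑ x ∈ C, ∑ y ∈ C, z ^ wt (x - y)‖)
    (hIII : ∃ ε : ℝ, 0 < ε ∧ ∃ n0 : ℕ, ∀ n ≥ n0, ∀ C : Finset (Wd n),
      IsCode ⌈(1 / 2 - 1 / Real.pi) * n⌉₊ C →
      (∀ x ∈ C, ∀ y ∈ C, 4 ∣ wt (x - y)) → (C.card : ℝ) ≤ pw n (1 / 2 - ε)) :
    ∃ ε : ℝ, 0 < ε ∧ Rr (1 / 2 - 1 / Real.pi) ≤ 1 / 2 - ε :=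
  rate_at (hI_of_M (fun n => ⌈(1 / 2 - 1 / Real.pi) * n⌉₊) hM) hIII hP

/-- uniform form on a neighbourhood -/
theorem rate_near_uniform (h : ∃ ε : ℝ, 0 < ε ∧ Rr (1 / 2 - 1 / Real.pi) ≤ 1 / 2 - ε) :
    ∃ c : ℝ, 0 < c ∧ ∀ δ : ℝ, |δ - (1 / 2 - 1 / Real.pi)| < c → Rr δ ≤ Tensor.ell δ - c := by
  obtain ⟨ε, hε, h⟩ := h
  obtain ⟨κ1, hκ1, h1⟩ := Rr_le_near (r := 1 / 2 - ε / 2) Exact.mid_pos (by linarith)
  have hc := Exact.ell_continuousAt Exact.mid_pos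
  have h2 : ∀ᶠ δ in 𝓝 (1 / 2 - 1 / Real.pi), 1 / 2 - ε / 4 < Tensor.ell δ := by
    apply hc.eventually_const_lt
    rw [Exact.fin_mid_ell Exact.inputs]; linarith
  obtain ⟨κ2, hκ2, h3⟩ := Metric.eventually_nhds_iff.mp h2
  refine ⟨min (min κ1 κ2) (ε / 4), lt_min (lt_min hκ1 hκ2) (by positivity), fun δ hδ => ?_⟩
  have hmin := min_le_right (min κ1 κ2) (ε / 4)
  have hδ' : |δ - (1 / 2 - 1 / Real.pi)| < min κ1 κ2 := hδ.trans_le (min_le_left _ _)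
  have h4 : Rr δ ≤ 1 / 2 - ε / 2 := by
    apply h1
    have := (abs_lt.mp (hδ'.trans_le (min_le_left _ _))).1
    linarith
  have h5 : 1 / 2 - ε / 4 < Tensor.ell δ := by
    apply h3
    rw [Real.dist_eq]
    exact hδ'.trans_le (min_le_right _ _)
  linarith

end Pool.Agent.Lib.MP_0430e4_lc.BY
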