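import Mathlib
import Pool.Agent.Lib.MP_0430e4_lc.BY.PsiA

/-!
# BLOCK E, part B: closed form of `psi1` and the level function
-/

set_option autoImplicit false

namespace Pool.Agent.Lib.MP_0430e4_lc.BY

open Complex

/-- `z (1 - z^2) Psi'(z) = (2/pi) (1+z^2) arctan z - z^2`. -/
theorem closed {z : ℂ} (hz : ‖z‖ < 1) :
    z * (1 - z ^ 2) * psi1 z
      = ((2 / Real.pi : ℝ) : ℂ) * ((1 + z ^ 2) * Complex.arctan z) - z ^ 2 := by
  set c : ℂ := ((2 / Real.pi : ℝ) : ℂ) with hc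
  have hz2 : ‖z ^ 2‖ < 1 := by
    rw [norm_pow]
    exact pow_lt_one₀ (norm_nonneg _) hz (by norm_num)
  have h1z : (1 : ℂ) - z ^ 2 ≠ 0 := by
    intro h
    have : z ^ 2 = 1 := by linear_combination -h
    rw [this] at hz2
    simp at hz2
  -- odd part
  have hso : Summable (fun m : ℕ => (gc (2 * m + 1) : ℂ) * z ^ (2 * m + 1)) := by
    refine (summable_bd norm_gc_le hz).comp_injective (i := fun m : ℕ => 2 * m + 1) ?_
    intro a b h
    simpa using h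
  have hse : Summable (fun m : ℕ => (gc (2 * m) : ℂ) * z ^ (2 * m)) := by
    refine (summable_bd norm_gc_le hz).comp_injective (i := fun m : ℕ => 2 * m) ?_
    intro a b h
    simpa using h
  set O : ℂ := ∑' m : ℕ, (gc (2 * m + 1) : ℂ) * z ^ (2 * m + 1) with hO
  have hOs : HasSum (fun m : ℕ => (gc (2 * m + 1) : ℂ) * z ^ (2 * m + 1)) O := hso.hasSum
  have hE : HasSum (fun m : ℕ => (gc (2 * m) : ℂ) * z ^ (2 * m)) (-z ^ 2 * (1 - z ^ 2)⁻¹) := by
    rw [← hasSum_nat_add_iff' 1]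
    simp only [Finset.range_one, Finset.sum_singleton, mul_zero, gc_zero, Complex.ofReal_zero,
      zero_mul, sub_zero]
    have h := (hasSum_geometric_of_norm_lt_one hz2).mul_left (-z ^ 2)
    have e : (fun n : ℕ => (gc (2 * (n + 1)) : ℂ) * z ^ (2 * (n + 1)))
        = fun n : ℕ => -z ^ 2 * (z ^ 2) ^ n := by
      funext n
      rw [gc_even (n + 1) (by omega), pow_mul, pow_succ]
      push_cast
      ring
    rw [e]
    exact h
  have hfull : HasSum (fun j : ℕ => (gc j : ℂ) * z ^ j) (-z ^ 2 * (1 - z ^ 2)⁻¹ + O) :=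
    HasSum.even_add_odd (f := fun j : ℕ => (gc j : ℂ) * z ^ j) hE hOs
  have hfull2 : HasSum (fun j : ℕ => (gc j : ℂ) * z ^ j) (z * psi1 z) := by
    rw [← hasSum_nat_add_iff' 1]
    simp only [Finset.range_one, Finset.sum_singleton, gc_zero, Complex.ofReal_zero,
      zero_mul, sub_zero]
    have h := (hasSum_psi1 hz).mul_left z
    have e : (fun n : ℕ => (gc (n + 1) : ℂ) * z ^ (n + 1))
        = fun n : ℕ => z * ((gc (n + 1) : ℂ) * z ^ n) := by
      funext n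
      rw [pow_succ]
      ring
    rw [e]
    exact h
  have hsum : z * psi1 z = -z ^ 2 * (1 - z ^ 2)⁻¹ + O := hfull2.unique hfull
  -- recursion for the odd part
  have hA := Complex.hasSum_arctan hz
  set A : ℂ := Complex.arctan z with hAdef
  have hA' : HasSum (fun m : ℕ => (-1 : ℂ) ^ m * z ^ (2 * m + 1) / (2 * m + 1 : ℂ)) A := by
    have e : (fun m : ℕ => (-1 : ℂ) ^ m * z ^ (2 * m + 1) / (2 * m + 1 : ℂ))
        = fun m : ℕ => (-1 : ℂ) ^ m * z ^ (2 * m + 1) / ((2 * m + 1 : ℕ) : ℂ) := by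
      funext m
      push_cast
      ring
    rw [e]
    exact hA
  have hA2 : HasSum (fun m : ℕ => (-1 : ℂ) ^ (m + 1) * z ^ (2 * (m + 1) + 1)
      / (2 * ((m + 1 : ℕ) : ℂ) + 1)) (A - z) := by
    have h := (hasSum_nat_add_iff' 1).mpr hA'
    simpa using h
  have hO2 : HasSum (fun m : ℕ => (gc (2 * (m + 1) + 1) : ℂ) * z ^ (2 * (m + 1) + 1))
      (O - c * z) := by
    have h := (hasSum_nat_add_iff' 1).mpr hOs
    simp only [Finset.range_one, Finset.sum_singleton, mul_zero, zero_add, gc_one, pow_one] at h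
    exact h
  have hO3 : HasSum (fun m : ℕ => z ^ 2 * ((gc (2 * m + 1) : ℂ) * z ^ (2 * m + 1))
      + c * (z ^ 2 * ((-1 : ℂ) ^ m * z ^ (2 * m + 1) / (2 * m + 1 : ℂ))
        + (-1 : ℂ) ^ (m + 1) * z ^ (2 * (m + 1) + 1) / (2 * ((m + 1 : ℕ) : ℂ) + 1)))
      (z ^ 2 * O + c * (z ^ 2 * A + (A - z))) :=
    (hOs.mul_left (z ^ 2)).add (((hA'.mul_left (z ^ 2)).add hA2).mul_left c)
  have e : (fun m : ℕ => (gc (2 * (m + 1) + 1) : ℂ) * z ^ (2 * (m + 1) + 1))
      = fun m : ℕ => z ^ 2 * ((gc (2 * m + 1) : ℂ) * z ^ (2 * m + 1))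
      + c * (z ^ 2 * ((-1 : ℂ) ^ m * z ^ (2 * m + 1) / (2 * m + 1 : ℂ))
        + (-1 : ℂ) ^ (m + 1) * z ^ (2 * (m + 1) + 1) / (2 * ((m + 1 : ℕ) : ℂ) + 1)) := by
    funext m
    have h3 : (gc (2 * (m + 1) + 1) : ℂ) = (gc (2 * m + 1) : ℂ)
        + c * ((-1 : ℂ) ^ m * (1 / (2 * m + 1) - 1 / (2 * m + 3))) := by
      rw [show 2 * (m + 1) + 1 = 2 * m + 3 from by ring, gc_succ_succ, hc]
      push_cast
      ring
    rw [h3]
    have a1 : (2 * (m : ℂ) + 1) ≠ 0 := by exact_mod_cast (Nat.succ_ne_zero (2 * m))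
    have a2 : (2 * (m : ℂ) + 3) ≠ 0 := by exact_mod_cast (Nat.succ_ne_zero (2 * m + 2))
    have a3 : (2 * ((m + 1 : ℕ) : ℂ) + 1) = 2 * (m : ℂ) + 3 := by push_cast; ring
    rw [a3, show 2 * (m + 1) + 1 = (2 * m + 1) + 2 from by ring, pow_add z (2 * m + 1) 2,
      pow_succ (-1 : ℂ) m]
    field_simp
    ring
  rw [e] at hO2
  have hrec : O - c * z = z ^ 2 * O + c * (z ^ 2 * A + (A - z)) := hO2.unique hO3
  have hinv : (1 - z ^ 2) * (1 - z ^ 2)⁻¹ = 1 := mul_inv_cancel₀ h1z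
  calc z * (1 - z ^ 2) * psi1 z = (1 - z ^ 2) * (z * psi1 z) := by ring
    _ = (1 - z ^ 2) * (-z ^ 2 * (1 - z ^ 2)⁻¹ + O) := by rw [hsum]
    _ = -z ^ 2 * ((1 - z ^ 2) * (1 - z ^ 2)⁻¹) + (O - z ^ 2 * O) := by ring
    _ = -z ^ 2 + c * ((1 + z ^ 2) * A) := by rw [hinv]; linear_combination hrec
    _ = c * ((1 + z ^ 2) * A) - z ^ 2 := by ring

/-- `z lev z = (2/pi) (1+z^2) arctan z`. -/
theorem z_mul_lev {z : ℂ} (hz : ‖z‖ < 1) :
    z * lev z = ((2 / Real.pi : ℝ) : ℂ) * ((1 + z ^ 2) * Complex.arctan z) := by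
  unfold lev
  linear_combination closed hz

theorem hasSum_dn : HasSum (fun m : ℕ => 1 / (2 * (m : ℝ) + 1) - 1 / (2 * (m : ℝ) + 3)) 1 := by
  have h : ∀ n : ℕ, ∑ m ∈ Finset.range n, (1 / (2 * (m : ℝ) + 1) - 1 / (2 * (m : ℝ) + 3))
      = 1 - 1 / (2 * (n : ℝ) + 1) := by
    intro n
    induction n with
    | zero => simp
    | succ n ih =>
        rw [Finset.sum_range_succ, ih]
        push_cast
        ring
  rw [hasSum_iff_tendsto_nat_of_nonneg]
  · simp_rw [h]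
    have h2 : Filter.Tendsto (fun n : ℕ => 1 / (2 * (n : ℝ) + 1)) Filter.atTop (nhds 0) := by
      apply Filter.Tendsto.div_atTop tendsto_const_nhds
      apply Filter.tendsto_atTop_add_const_right
      exact Filter.Tendsto.const_mul_atTop (by norm_num) tendsto_natCast_atTop_atTop
    simpa using h2.const_sub 1
  · intro m
    have : (1 / (2 * (m : ℝ) + 3)) ≤ (1 / (2 * (m : ℝ) + 1)) := by
      apply one_div_le_one_div_of_le <;> [positivity; linarith]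
    linarith

/-- The series of the level function. -/
theorem hasSum_lev {z : ℂ} (hz : ‖z‖ < 1) :
    HasSum (fun m : ℕ => ((2 / Real.pi : ℝ) : ℂ) * ((-1 : ℂ) ^ m
      * ((1 / (2 * (m : ℝ) + 1) - 1 / (2 * (m : ℝ) + 3) : ℝ) : ℂ) * z ^ (2 * m + 2)))
      (lev z - ((2 / Real.pi : ℝ) : ℂ)) := by
  set c : ℂ := ((2 / Real.pi : ℝ) : ℂ) with hc
  by_cases h0 : z = 0
  · subst h0
    have e : lev 0 - c = 0 := by
      unfold lev
      rw [psi1_zero]
      simp [hc]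
    rw [e]
    have e2 : (fun m : ℕ => c * ((-1 : ℂ) ^ m
      * ((1 / (2 * (m : ℝ) + 1) - 1 / (2 * (m : ℝ) + 3) : ℝ) : ℂ) * (0 : ℂ) ^ (2 * m + 2)))
      = fun _ : ℕ => (0 : ℂ) := by
      funext m
      simp
    rw [e2]
    exact hasSum_zero
  · have hA := Complex.hasSum_arctan hz
    set A : ℂ := Complex.arctan z with hAdef
    have hA' : HasSum (fun m : ℕ => (-1 : ℂ) ^ m * z ^ (2 * m + 1) / (2 * m + 1 : ℂ)) A := by
      have e : (fun m : ℕ => (-1 : ℂ) ^ m * z ^ (2 * m + 1) / (2 * m + 1 : ℂ))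
          = fun m : ℕ => (-1 : ℂ) ^ m * z ^ (2 * m + 1) / ((2 * m + 1 : ℕ) : ℂ) := by
        funext m
        push_cast
        ring
      rw [e]
      exact hA
    have hA2 : HasSum (fun m : ℕ => (-1 : ℂ) ^ (m + 1) * z ^ (2 * (m + 1) + 1)
        / (2 * ((m + 1 : ℕ) : ℂ) + 1)) (A - z) := by
      have h := (hasSum_nat_add_iff' 1).mpr hA'
      simpa using h
    have hs := ((((hA'.mul_left (z ^ 2)).add hA2).mul_left c).mul_left z⁻¹)
    have hval : z⁻¹ * (c * (z ^ 2 * A + (A - z))) = lev z - c := by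
      have h1 := z_mul_lev hz
      rw [← hc, ← hAdef] at h1
      have h2 : c * (z ^ 2 * A + (A - z)) = z * (lev z - c) := by linear_combination -h1
      rw [h2, inv_mul_cancel_left₀ h0]
    rw [hval] at hs
    have e : (fun m : ℕ => c * ((-1 : ℂ) ^ m
      * ((1 / (2 * (m : ℝ) + 1) - 1 / (2 * (m : ℝ) + 3) : ℝ) : ℂ) * z ^ (2 * m + 2)))
      = fun m : ℕ => z⁻¹ * (c * (z ^ 2 * ((-1 : ℂ) ^ m * z ^ (2 * m + 1) / (2 * m + 1 : ℂ))
        + (-1 : ℂ) ^ (m + 1) * z ^ (2 * (m + 1) + 1) / (2 * ((m + 1 : ℕ) : ℂ) + 1))) := by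
      funext m
      have a1 : (2 * (m : ℂ) + 1) ≠ 0 := by exact_mod_cast (Nat.succ_ne_zero (2 * m))
      have a2 : (2 * (m : ℂ) + 3) ≠ 0 := by exact_mod_cast (Nat.succ_ne_zero (2 * m + 2))
      have a3 : (2 * ((m + 1 : ℕ) : ℂ) + 1) = 2 * (m : ℂ) + 3 := by push_cast; ring
      rw [a3, show 2 * (m + 1) + 1 = (2 * m + 2) + 1 from by ring, pow_succ z (2 * m + 2),
        show 2 * m + 2 = (2 * m + 1) + 1 from by ring, pow_succ z (2 * m + 1),
        pow_succ (-1 : ℂ) m]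
      push_cast
      field_simp
      ring
    rw [e]
    exact hs

/-- `|lev z - 2/pi| <= (2/pi)|z|^2`. -/
theorem norm_lev_sub {z : ℂ} (hz : ‖z‖ < 1) :
    ‖lev z - ((2 / Real.pi : ℝ) : ℂ)‖ ≤ (2 / Real.pi) * ‖z‖ ^ 2 := by
  have hp : 0 < 2 / Real.pi := by positivity
  have h1 := (hasSum_dn.mul_left ((2 / Real.pi) * ‖z‖ ^ 2))
  rw [mul_one] at h1
  rw [← (hasSum_lev hz).tsum_eq]
  refine tsum_of_norm_bounded h1 (fun m => ?_)
  have hd : 0 ≤ 1 / (2 * (m : ℝ) + 1) - 1 / (2 * (m : ℝ) + 3) := by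
    have : (1 / (2 * (m : ℝ) + 3)) ≤ (1 / (2 * (m : ℝ) + 1)) := by
      apply one_div_le_one_div_of_le <;> [positivity; linarith]
    linarith
  rw [norm_mul, norm_mul, norm_mul, norm_pow, norm_neg, norm_one, one_pow, one_mul, norm_pow,
    Complex.norm_real, Complex.norm_real, Real.norm_eq_abs, Real.norm_eq_abs,
    abs_of_nonneg hd, abs_of_nonneg hp.le]
  have h2 : ‖z‖ ^ (2 * m + 2) ≤ ‖z‖ ^ 2 :=
    pow_le_pow_of_le_one (norm_nonneg _) hz.le (by omega)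
  calc 2 / Real.pi * ((1 / (2 * (m : ℝ) + 1) - 1 / (2 * (m : ℝ) + 3)) * ‖z‖ ^ (2 * m + 2))
      ≤ 2 / Real.pi * ((1 / (2 * (m : ℝ) + 1) - 1 / (2 * (m : ℝ) + 3)) * ‖z‖ ^ 2) := by
        gcongr
    _ = _ := by ring

theorem div_le_arctan {r : ℝ} (hr : 0 ≤ r) : r / (1 + r ^ 2) ≤ Real.arctan r := by
  have h0 : 0 ≤ Real.arctan r := Real.arctan_nonneg.mpr hr
  have h1 := Real.sin_le h0
  have h2 := Real.cos_le_one (Real.arctan r)
  have h3 := Real.cos_arctan_pos r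
  have h4 : Real.sin (Real.arctan r) * Real.cos (Real.arctan r) = r / (1 + r ^ 2) := by
    rw [Real.sin_arctan, Real.cos_arctan, div_mul_div_comm, mul_one,
      Real.mul_self_sqrt (by positivity)]
  rw [← h4]
  calc Real.sin (Real.arctan r) * Real.cos (Real.arctan r)
      ≤ Real.arctan r * Real.cos (Real.arctan r) := mul_le_mul_of_nonneg_right h1 h3.le
    _ ≤ Real.arctan r * 1 := mul_le_mul_of_nonneg_left h2 h0
    _ = Real.arctan r := mul_one _

/-- The closed form on the real axis. -/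
theorem lev_real_eq {r : ℝ} (h0 : 0 < r) (h1 : r < 1) :
    (lev (r : ℂ)).re = (2 / Real.pi) * ((1 + r ^ 2) / r * Real.arctan r) := by
  have hz : ‖(r : ℂ)‖ < 1 := by rw [Complex.norm_real, Real.norm_eq_abs, abs_of_pos h0]; exact h1
  have h := z_mul_lev hz
  rw [← Complex.ofReal_arctan] at h
  have h2 : lev (r : ℂ) = (((2 / Real.pi) * ((1 + r ^ 2) / r * Real.arctan r) : ℝ) : ℂ) := by
    have hr : (r : ℂ) ≠ 0 := by exact_mod_cast h0.ne'
    apply mul_left_cancel₀ hr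
    rw [h]
    push_cast
    field_simp
  rw [h2, Complex.ofReal_re]

theorem lev_real_ge {r : ℝ} (h0 : 0 ≤ r) (h1 : r < 1) : 2 / Real.pi ≤ (lev (r : ℂ)).re := by
  rcases h0.eq_or_lt with rfl | h0
  · unfold lev
    rw [Complex.ofReal_zero, psi1_zero]
    simp
  · rw [lev_real_eq h0 h1]
    have h2 := div_le_arctan h0.le
    have h3 : 1 ≤ (1 + r ^ 2) / r * Real.arctan r := by
      calc (1 : ℝ) = (1 + r ^ 2) / r * (r / (1 + r ^ 2)) := by field_simp
        _ ≤ _ := mul_le_mul_of_nonneg_left h2 (by positivity)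
    calc 2 / Real.pi = 2 / Real.pi * 1 := (mul_one _).symm
      _ ≤ _ := mul_le_mul_of_nonneg_left h3 (by positivity)

end Pool.Agent.Lib.MP_0430e4_lc.BY
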