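import Mathlib
import Pool.Agent.Lib.MP_0430e4_lc.BY.PsiA

/-!
# BLOCK E, part C: the integral representation of `psi1`
-/

set_option autoImplicit false

namespace Pool.Agent.Lib.MP_0430e4_lc.BY

open Complex

/-- `(-1)^j U_j(cos a)`. -/
noncomputable def vc (j : ℕ) (a : ℝ) : ℝ :=
  (-1 : ℝ) ^ j * ∑ l ∈ Finset.range (j + 1), Real.cos (((j : ℝ) - 2 * l) * a)

theorem vc_zero (a : ℝ) : vc 0 a = 1 := by simp [vc]

theorem vc_one (a : ℝ) : vc 1 a = -(2 * Real.cos a) := by
  unfold vc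
  rw [Finset.sum_range_succ, Finset.sum_range_succ, Finset.sum_range_zero]
  push_cast
  rw [show ((1 : ℝ) - 2 * 0) * a = a from by ring, show ((1 : ℝ) - 2 * 1) * a = -a from by ring,
    Real.cos_neg]
  ring

theorem vc_abs_le (j : ℕ) (a : ℝ) : |vc j a| ≤ (j : ℝ) + 1 := by
  unfold vc
  rw [abs_mul, abs_pow, abs_neg, abs_one, one_pow, one_mul]
  calc |∑ l ∈ Finset.range (j + 1), Real.cos (((j : ℝ) - 2 * l) * a)|
      ≤ ∑ l ∈ Finset.range (j + 1), |Real.cos (((j : ℝ) - 2 * l) * a)| :=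
        Finset.abs_sum_le_sum_abs _ _
    _ ≤ ∑ l ∈ Finset.range (j + 1), (1 : ℝ) := Finset.sum_le_sum fun l _ => Real.abs_cos_le_one _
    _ = (j : ℝ) + 1 := by simp

theorem vc_two (j : ℕ) (a : ℝ) :
    vc (j + 2) a = vc j a + (-1 : ℝ) ^ j * (2 * Real.cos (((j : ℝ) + 2) * a)) := by
  unfold vc
  rw [Finset.sum_range_succ, Finset.sum_range_succ' _ (j + 1)]
  have e : ∀ l ∈ Finset.range (j + 1), Real.cos ((((j + 2 : ℕ) : ℝ) - 2 * ((l + 1 : ℕ) : ℝ)) * a)
      = Real.cos (((j : ℝ) - 2 * l) * a) := by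
    intro l _
    congr 1
    push_cast
    ring
  rw [Finset.sum_congr rfl e]
  have e1 : Real.cos ((((j + 2 : ℕ) : ℝ) - 2 * ((0 : ℕ) : ℝ)) * a)
      = Real.cos (((j : ℝ) + 2) * a) := by
    congr 1
    push_cast
    ring
  have e2 : Real.cos ((((j + 2 : ℕ) : ℝ) - 2 * ((j + 1 + 1 : ℕ) : ℝ)) * a)
      = Real.cos (((j : ℝ) + 2) * a) := by
    rw [← Real.cos_neg]
    congr 1
    push_cast
    ring
  rw [e1, e2, pow_add]
  ring

theorem vc_rec (j : ℕ) (a : ℝ) : vc (j + 2) a = -(2 * Real.cos a) * vc (j + 1) a - vc j a := by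
  have h : 2 * Real.cos a * ∑ l ∈ Finset.range (j + 2), Real.cos ((((j + 1 : ℕ) : ℝ) - 2 * l) * a)
      = ∑ l ∈ Finset.range (j + 2), (Real.cos (((j : ℝ) + 2 - 2 * l) * a)
        + Real.cos (((j : ℝ) - 2 * l) * a)) := by
    rw [Finset.mul_sum]
    apply Finset.sum_congr rfl
    intro l _
    have h1 : ((j : ℝ) + 2 - 2 * l) * a = (((j + 1 : ℕ) : ℝ) - 2 * l) * a + a := by
      push_cast; ring
    have h2 : ((j : ℝ) - 2 * l) * a = (((j + 1 : ℕ) : ℝ) - 2 * l) * a - a := by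
      push_cast; ring
    rw [h1, h2, Real.cos_add, Real.cos_sub]
    ring
  have h3 : ∑ l ∈ Finset.range (j + 2), Real.cos (((j : ℝ) + 2 - 2 * l) * a)
      = (-1 : ℝ) ^ j * vc (j + 2) a - Real.cos (((j : ℝ) + 2) * a) := by
    unfold vc
    rw [Finset.sum_range_succ _ (j + 2)]
    have e2 : Real.cos ((((j + 2 : ℕ) : ℝ) - 2 * ((j + 2 : ℕ) : ℝ)) * a)
        = Real.cos (((j : ℝ) + 2) * a) := by
      rw [← Real.cos_neg]
      congr 1
      push_cast
      ring
    have e3 : ∀ l ∈ Finset.range (j + 2), Real.cos ((((j + 2 : ℕ) : ℝ) - 2 * l) * a)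
        = Real.cos (((j : ℝ) + 2 - 2 * l) * a) := by
      intro l _
      congr 1
      push_cast
      ring
    rw [e2, Finset.sum_congr rfl e3, ← mul_assoc, ← pow_add]
    rw [show j + (j + 2) = 2 * (j + 1) from by ring, pow_mul]
    simp
  have h4 : ∑ l ∈ Finset.range (j + 2), Real.cos (((j : ℝ) - 2 * l) * a)
      = (-1 : ℝ) ^ j * vc j a + Real.cos (((j : ℝ) + 2) * a) := by
    unfold vc
    rw [Finset.sum_range_succ _ (j + 1)]
    have e2 : Real.cos (((j : ℝ) - 2 * ((j + 1 : ℕ) : ℝ)) * a)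
        = Real.cos (((j : ℝ) + 2) * a) := by
      rw [← Real.cos_neg]
      congr 1
      push_cast
      ring
    rw [e2, ← mul_assoc, ← pow_add, ← two_mul, pow_mul]
    simp
  have hj : vc (j + 1) a = -((-1 : ℝ) ^ j)
      * ∑ l ∈ Finset.range (j + 2), Real.cos ((((j + 1 : ℕ) : ℝ) - 2 * l) * a) := by
    unfold vc
    rw [pow_succ]
    ring
  rw [Finset.sum_add_distrib, h3, h4] at h
  have hs : ((-1 : ℝ) ^ j) * ((-1 : ℝ) ^ j) = 1 := by
    rw [← pow_add, ← two_mul, pow_mul]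
    simp
  rw [hj]
  have h5 : -(2 * Real.cos a) * (-((-1 : ℝ) ^ j)
      * ∑ l ∈ Finset.range (j + 2), Real.cos ((((j + 1 : ℕ) : ℝ) - 2 * l) * a))
      = (-1 : ℝ) ^ j * (2 * Real.cos a
      * ∑ l ∈ Finset.range (j + 2), Real.cos ((((j + 1 : ℕ) : ℝ) - 2 * l) * a)) := by ring
  rw [h5, h]
  have h6 : (-1 : ℝ) ^ j * ((-1 : ℝ) ^ j * vc (j + 2) a - Real.cos (((j : ℝ) + 2) * a)
      + ((-1 : ℝ) ^ j * vc j a + Real.cos (((j : ℝ) + 2) * a)))
      = ((-1 : ℝ) ^ j * (-1 : ℝ) ^ j) * (vc (j + 2) a + vc j a) := by ring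
  rw [h6, hs]
  ring

theorem summable_vbd {r : ℝ} (h0 : 0 ≤ r) (h1 : r < 1) :
    Summable (fun j : ℕ => ((j : ℝ) + 1) * r ^ j) := by
  have h := summable_pow_mul_geometric_of_norm_lt_one 1
    (r := r) (by rw [Real.norm_eq_abs, abs_of_nonneg h0]; exact h1)
  have h2 := summable_geometric_of_lt_one h0 h1
  refine (h.add h2).congr (fun j => ?_)
  ring

theorem norm_one_add_ne {z : ℂ} (hz : ‖z‖ < 1) (a : ℝ) :
    1 + 2 * z * (Real.cos a : ℂ) + z ^ 2 ≠ 0 := by
  have h : 1 + 2 * z * (Real.cos a : ℂ) + z ^ 2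
      = (1 + z * Complex.exp (a * I)) * (1 + z * Complex.exp (-(a * I))) := by
    rw [Complex.ofReal_cos, Complex.cos]
    have : Complex.exp (a * I) * Complex.exp (-(a * I)) = 1 := by
      rw [← Complex.exp_add]; simp
    rw [show -(a : ℂ) * I = -(a * I) from by ring]
    linear_combination (-z ^ 2) * this
  rw [h]
  have hn : ∀ b : ℂ, ‖b‖ = 1 → 1 + z * b ≠ 0 := by
    intro b hb h0
    have : z * b = -1 := by linear_combination h0
    have h2 : ‖z * b‖ = 1 := by rw [this]; simp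
    rw [norm_mul, hb, mul_one] at h2
    linarith
  apply mul_ne_zero
  · exact hn _ (Complex.norm_exp_ofReal_mul_I a)
  · apply hn
    rw [show -((a : ℂ) * I) = ((-a : ℝ) : ℂ) * I from by push_cast; ring]
    exact Complex.norm_exp_ofReal_mul_I (-a)

theorem hasSum_vc {z : ℂ} (hz : ‖z‖ < 1) (a : ℝ) :
    HasSum (fun j : ℕ => (vc j a : ℂ) * z ^ j) (1 + 2 * z * (Real.cos a : ℂ) + z ^ 2)⁻¹ := by
  have hs : Summable (fun j : ℕ => (vc j a : ℂ) * z ^ j) := by
    apply Summable.of_norm_bounded (summable_vbd (norm_nonneg z) hz)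
    intro j
    rw [norm_mul, norm_pow, Complex.norm_real, Real.norm_eq_abs]
    exact mul_le_mul_of_nonneg_right (vc_abs_le j a) (by positivity)
  set S : ℂ := ∑' j : ℕ, (vc j a : ℂ) * z ^ j with hS
  have h0 : HasSum (fun j : ℕ => (vc j a : ℂ) * z ^ j) S := hs.hasSum
  have h1 := (hasSum_nat_add_iff' 1).mpr h0
  have h2 := (hasSum_nat_add_iff' 2).mpr h0
  simp only [Finset.range_one, Finset.sum_singleton, pow_zero, mul_one, vc_zero,
    Complex.ofReal_one] at h1
  rw [Finset.sum_range_succ, Finset.sum_range_one, vc_zero, vc_one] at h2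
  simp only [pow_zero, mul_one, pow_one, Complex.ofReal_one] at h2
  have h3 : HasSum (fun j : ℕ => -(2 * (Real.cos a : ℂ) * z) * ((vc (j + 1) a : ℂ) * z ^ (j + 1))
      + (-z ^ 2) * ((vc j a : ℂ) * z ^ j))
      (-(2 * (Real.cos a : ℂ) * z) * (S - 1) + (-z ^ 2) * S) :=
    (h1.mul_left _).add (h0.mul_left _)
  have e : (fun j : ℕ => (vc (j + 2) a : ℂ) * z ^ (j + 2))
      = fun j : ℕ => -(2 * (Real.cos a : ℂ) * z) * ((vc (j + 1) a : ℂ) * z ^ (j + 1))
      + (-z ^ 2) * ((vc j a : ℂ) * z ^ j) := by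
    funext j
    rw [vc_rec, pow_succ z (j + 1), pow_succ z j]
    push_cast
    ring
  rw [e] at h2
  have h4 := h2.unique h3
  push_cast at h4
  have h5 : (1 + 2 * z * (Real.cos a : ℂ) + z ^ 2) * S = 1 := by
    push_cast
    linear_combination h4
  have h6 : S = (1 + 2 * z * (Real.cos a : ℂ) + z ^ 2)⁻¹ := eq_inv_of_mul_eq_one_right h5
  rw [← h6]
  exact h0

theorem integral_cos_mul_cos (k : ℕ) :
    ∫ a in (0 : ℝ)..(Real.pi / 2), Real.cos a * (2 * Real.cos (((k : ℝ) + 2) * a))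
      = Real.sin (((k : ℝ) + 3) * (Real.pi / 2)) / ((k : ℝ) + 3)
        + Real.sin (((k : ℝ) + 1) * (Real.pi / 2)) / ((k : ℝ) + 1) := by
  have h1 : (k : ℝ) + 1 ≠ 0 := by positivity
  have h3 : (k : ℝ) + 3 ≠ 0 := by positivity
  have hd : ∀ a ∈ Set.uIcc (0 : ℝ) (Real.pi / 2),
      HasDerivAt (fun a : ℝ => Real.sin (((k : ℝ) + 3) * a) / ((k : ℝ) + 3)
        + Real.sin (((k : ℝ) + 1) * a) / ((k : ℝ) + 1))
        (Real.cos a * (2 * Real.cos (((k : ℝ) + 2) * a))) a := by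
    intro a _
    have d1 := (((hasDerivAt_id a).const_mul ((k : ℝ) + 3)).sin).div_const ((k : ℝ) + 3)
    have d2 := (((hasDerivAt_id a).const_mul ((k : ℝ) + 1)).sin).div_const ((k : ℝ) + 1)
    have d := d1.add d2
    refine d.congr_deriv ?_
    simp only [id, mul_one]
    rw [mul_div_assoc, div_self h3, mul_one, mul_div_assoc, div_self h1, mul_one]
    have e1 : ((k : ℝ) + 3) * a = ((k : ℝ) + 2) * a + a := by ring
    have e2 : ((k : ℝ) + 1) * a = ((k : ℝ) + 2) * a - a := by ring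
    rw [e1, e2, Real.cos_add, Real.cos_sub]
    ring
  rw [intervalIntegral.integral_eq_sub_of_hasDerivAt hd]
  · simp
  · apply Continuous.intervalIntegrable
    fun_prop

theorem continuous_vc (j : ℕ) : Continuous (vc j) := by
  unfold vc
  fun_prop

theorem sin_odd (m : ℕ) : Real.sin ((2 * (m : ℝ) + 1) * (Real.pi / 2)) = (-1 : ℝ) ^ m := by
  rw [show (2 * (m : ℝ) + 1) * (Real.pi / 2) = (m : ℝ) * Real.pi + Real.pi / 2 from by ring,
    Real.sin_add_pi_div_two, Real.cos_nat_mul_pi]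

theorem sin_even (m : ℕ) : Real.sin ((2 * (m : ℝ)) * (Real.pi / 2)) = 0 := by
  rw [show (2 * (m : ℝ)) * (Real.pi / 2) = (m : ℝ) * Real.pi from by ring, Real.sin_nat_mul_pi]

theorem integral_vc_step (j : ℕ) :
    ∫ a in (0 : ℝ)..(Real.pi / 2), Real.cos a * vc (j + 2) a
      = (∫ a in (0 : ℝ)..(Real.pi / 2), Real.cos a * vc j a)
        + (-1 : ℝ) ^ j * (Real.sin (((j : ℝ) + 3) * (Real.pi / 2)) / ((j : ℝ) + 3)
        + Real.sin (((j : ℝ) + 1) * (Real.pi / 2)) / ((j : ℝ) + 1)) := by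
  rw [← integral_cos_mul_cos, ← intervalIntegral.integral_const_mul,
    ← intervalIntegral.integral_add]
  · apply intervalIntegral.integral_congr
    intro a _
    simp only []
    rw [vc_two]
    ring
  · apply Continuous.intervalIntegrable
    exact Real.continuous_cos.mul (continuous_vc j)
  · apply Continuous.intervalIntegrable
    fun_prop

theorem gc_integral2 (m : ℕ) :
    gc (2 * m + 1) = (2 / Real.pi) * ∫ a in (0 : ℝ)..(Real.pi / 2), Real.cos a * vc (2 * m) a ∧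
    gc (2 * m + 2) = (2 / Real.pi) * ∫ a in (0 : ℝ)..(Real.pi / 2),
      Real.cos a * vc (2 * m + 1) a := by
  have hpi : Real.pi ≠ 0 := Real.pi_ne_zero
  induction m with
  | zero =>
      constructor
      · rw [mul_zero, zero_add, gc_one]
        simp [vc_zero]
      · have e : ∀ a ∈ Set.uIcc (0 : ℝ) (Real.pi / 2), Real.cos a * vc (2 * 0 + 1) a
            = -2 * (Real.cos a ^ 2) := by
          intro a _
          rw [mul_zero, zero_add, vc_one]
          ring
        rw [intervalIntegral.integral_congr e, intervalIntegral.integral_const_mul,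
          integral_cos_sq, mul_zero, zero_add, show 2 = 2 * 1 from rfl, gc_even 1 le_rfl]
        simp
        field_simp
  | succ m ih =>
      obtain ⟨ih1, ih2⟩ := ih
      constructor
      · rw [show 2 * (m + 1) + 1 = 2 * m + 3 from by ring, gc_succ_succ,
          show 2 * (m + 1) = 2 * m + 2 from by ring, integral_vc_step, ih1, mul_add]
        congr 2
        have e1 : ((2 * m : ℕ) : ℝ) + 1 = 2 * (m : ℝ) + 1 := by push_cast; ring
        have e2 : ((2 * m : ℕ) : ℝ) + 3 = 2 * ((m + 1 : ℕ) : ℝ) + 1 := by push_cast; ring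
        rw [e1, e2, sin_odd, sin_odd, pow_mul, pow_succ]
        have e3 : 2 * ((m + 1 : ℕ) : ℝ) + 1 = 2 * (m : ℝ) + 3 := by push_cast; ring
        rw [e3]
        simp
        ring
      · rw [show 2 * (m + 1) + 2 = 2 * (m + 2) from by ring, gc_even (m + 2) (by omega),
          show 2 * (m + 1) + 1 = (2 * m + 1) + 2 from by ring, integral_vc_step]
        have e1 : ((2 * m + 1 : ℕ) : ℝ) + 1 = 2 * ((m + 1 : ℕ) : ℝ) := by push_cast; ring
        have e2 : ((2 * m + 1 : ℕ) : ℝ) + 3 = 2 * ((m + 2 : ℕ) : ℝ) := by push_cast; ring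
        rw [e1, e2, sin_even, sin_even]
        rw [show 2 * m + 2 = 2 * (m + 1) from by ring, gc_even (m + 1) (by omega)] at ih2
        rw [ih2]
        simp

theorem gc_integral (j : ℕ) :
    gc (j + 1) = (2 / Real.pi) * ∫ a in (0 : ℝ)..(Real.pi / 2), Real.cos a * vc j a := by
  rcases Nat.even_or_odd' j with ⟨k, rfl | rfl⟩
  · exact (gc_integral2 k).1
  · exact (gc_integral2 k).2

/-- The integral representation of `psi1`. -/
theorem psi1_integral {z : ℂ} (hz : ‖z‖ < 1) :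
    psi1 z = ((2 / Real.pi : ℝ) : ℂ) * ∫ a in (0 : ℝ)..(Real.pi / 2),
      (Real.cos a : ℂ) * (1 + 2 * z * (Real.cos a : ℂ) + z ^ 2)⁻¹ := by
  have h := intervalIntegral.hasSum_integral_of_dominated_convergence
    (μ := MeasureTheory.volume) (a := 0) (b := Real.pi / 2)
    (F := fun (j : ℕ) (a : ℝ) => ((Real.cos a * vc j a : ℝ) : ℂ) * z ^ j)
    (f := fun a : ℝ => (Real.cos a : ℂ) * (1 + 2 * z * (Real.cos a : ℂ) + z ^ 2)⁻¹)
    (fun (j : ℕ) (_ : ℝ) => ((j : ℝ) + 1) * ‖z‖ ^ j)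
    (fun j => ?_) (fun j => ?_) ?_ ?_ ?_
  · have h2 := h.mul_left ((2 / Real.pi : ℝ) : ℂ)
    refine (hasSum_psi1 hz).unique ?_
    have e : (fun j : ℕ => (gc (j + 1) : ℂ) * z ^ j)
        = fun j : ℕ => ((2 / Real.pi : ℝ) : ℂ)
          * ∫ a in (0 : ℝ)..(Real.pi / 2), ((Real.cos a * vc j a : ℝ) : ℂ) * z ^ j := by
      funext j
      rw [intervalIntegral.integral_mul_const, intervalIntegral.integral_ofReal, gc_integral]
      push_cast
      ring
    rw [e]
    exact h2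
  · apply Continuous.aestronglyMeasurable
    exact (Complex.continuous_ofReal.comp (Real.continuous_cos.mul (continuous_vc j))).mul
      continuous_const
  · refine Filter.Eventually.of_forall (fun a _ => ?_)
    rw [norm_mul, norm_pow, Complex.norm_real, Real.norm_eq_abs, abs_mul]
    apply mul_le_mul_of_nonneg_right _ (by positivity)
    calc |Real.cos a| * |vc j a| ≤ 1 * ((j : ℝ) + 1) :=
          mul_le_mul (Real.abs_cos_le_one a) (vc_abs_le j a) (abs_nonneg _) (by norm_num)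
      _ = (j : ℝ) + 1 := one_mul _
  · exact Filter.Eventually.of_forall (fun a _ => summable_vbd (norm_nonneg z) hz)
  · exact intervalIntegrable_const
  · refine Filter.Eventually.of_forall (fun a _ => ?_)
    have h3 := (hasSum_vc hz a).mul_left (Real.cos a : ℂ)
    have e : (fun j : ℕ => ((Real.cos a * vc j a : ℝ) : ℂ) * z ^ j)
        = fun j : ℕ => (Real.cos a : ℂ) * ((vc j a : ℂ) * z ^ j) := by
      funext j
      push_cast
      ring
    rw [e]
    exact h3

end Pool.Agent.Lib.MP_0430e4_lc.BY
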