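import Mathlib
import Pool.Agent.Lib.MP_0430e4_lc.BY.PsiC

/-!
# BLOCK E, part D: monotonicity in the angle, damping, two-sided bounds for `|Es|`
-/

set_option autoImplicit false

namespace Pool.Agent.Lib.MP_0430e4_lc.BY

open Complex

/-- The kernel denominator. -/
noncomputable def Dn (z : ℂ) (a : ℝ) : ℂ := 1 + 2 * z * (Real.cos a : ℂ) + z ^ 2

theorem Dn_ne {z : ℂ} (hz : ‖z‖ < 1) (a : ℝ) : Dn z a ≠ 0 := norm_one_add_ne hz a

theorem continuous_Dn (z : ℂ) : Continuous (Dn z) := by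
  unfold Dn
  fun_prop

theorem continuous_Dn_inv {z : ℂ} (hz : ‖z‖ < 1) : Continuous (fun a => (Dn z a)⁻¹) :=
  (continuous_Dn z).inv₀ (Dn_ne hz)

theorem im_mul_inv_Dn {z : ℂ} (hz : ‖z‖ < 1) (a : ℝ) :
    (z * (Dn z a)⁻¹).im = z.im * (1 - ‖z‖ ^ 2) / Complex.normSq (Dn z a) := by
  have h0 : Complex.normSq (Dn z a) ≠ 0 := by
    rw [Ne, Complex.normSq_eq_zero]
    exact Dn_ne hz a
  rw [← Complex.normSq_eq_norm_sq, Complex.inv_def, ← mul_assoc, Complex.im_mul_ofReal,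
    ← div_eq_mul_inv]
  congr 1
  unfold Dn
  rw [Complex.normSq_apply z]
  simp [pow_two]
  ring

theorem re_mul_inv_Dn {z : ℂ} (hz : ‖z‖ < 1) (a : ℝ) :
    (z * (Dn z a)⁻¹).re
      = (z.re * (1 + ‖z‖ ^ 2) + 2 * ‖z‖ ^ 2 * Real.cos a) / Complex.normSq (Dn z a) := by
  have h0 : Complex.normSq (Dn z a) ≠ 0 := by
    rw [Ne, Complex.normSq_eq_zero]
    exact Dn_ne hz a
  rw [← Complex.normSq_eq_norm_sq, Complex.inv_def, ← mul_assoc, Complex.re_mul_ofReal,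
    ← div_eq_mul_inv]
  congr 1
  unfold Dn
  rw [Complex.normSq_apply z]
  simp [pow_two, Complex.cos_ofReal_re]
  ring

theorem normSq_Dn_le {z : ℂ} (hz : ‖z‖ < 1) (a : ℝ) : Complex.normSq (Dn z a) ≤ 16 := by
  have h : ‖Dn z a‖ ≤ 4 := by
    unfold Dn
    calc ‖1 + 2 * z * (Real.cos a : ℂ) + z ^ 2‖
        ≤ ‖1 + 2 * z * (Real.cos a : ℂ)‖ + ‖z ^ 2‖ := norm_add_le _ _
      _ ≤ ‖(1 : ℂ)‖ + ‖2 * z * (Real.cos a : ℂ)‖ + ‖z ^ 2‖ := by
          gcongr
          exact norm_add_le _ _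
      _ ≤ 1 + 2 * 1 * 1 + 1 := by
          rw [norm_one, norm_mul, norm_mul, norm_pow, Complex.norm_real, Real.norm_eq_abs,
            Complex.norm_ofNat]
          have h1 := Real.abs_cos_le_one a
          have h2 : ‖z‖ ^ 2 ≤ 1 := pow_le_one₀ (norm_nonneg _) hz.le
          gcongr
      _ = 4 := by norm_num
  rw [Complex.normSq_eq_norm_sq]
  nlinarith [norm_nonneg (Dn z a)]

theorem z_psi1_integral {z : ℂ} (hz : ‖z‖ < 1) :
    z * psi1 z = ((2 / Real.pi : ℝ) : ℂ) * ∫ a in (0 : ℝ)..(Real.pi / 2),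
      (Real.cos a : ℂ) * (z * (Dn z a)⁻¹) := by
  rw [psi1_integral hz]
  have e : (fun a : ℝ => (Real.cos a : ℂ) * (z * (Dn z a)⁻¹))
      = fun a : ℝ => z * ((Real.cos a : ℂ) * (1 + 2 * z * (Real.cos a : ℂ) + z ^ 2)⁻¹) := by
    funext a
    unfold Dn
    ring
  rw [e, intervalIntegral.integral_const_mul]
  ring

theorem im_z_psi1 {z : ℂ} (hz : ‖z‖ < 1) :
    (z * psi1 z).im = (2 / Real.pi) * ∫ a in (0 : ℝ)..(Real.pi / 2),
      Real.cos a * (z.im * (1 - ‖z‖ ^ 2) / Complex.normSq (Dn z a)) := by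
  rw [z_psi1_integral hz, Complex.im_ofReal_mul]
  congr 1
  have hi : IntervalIntegrable (fun a : ℝ => (Real.cos a : ℂ) * (z * (Dn z a)⁻¹))
      MeasureTheory.volume 0 (Real.pi / 2) := by
    apply Continuous.intervalIntegrable
    exact (Complex.continuous_ofReal.comp Real.continuous_cos).mul
      (continuous_const.mul (continuous_Dn_inv hz))
  have h := Complex.imCLM.intervalIntegral_comp_comm hi
  simp only [Complex.imCLM_apply] at h
  rw [← h]
  apply intervalIntegral.integral_congr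
  intro a _
  simp only [Complex.im_ofReal_mul]
  rw [im_mul_inv_Dn hz]

theorem re_z_psi1 {z : ℂ} (hz : ‖z‖ < 1) :
    (z * psi1 z).re = (2 / Real.pi) * ∫ a in (0 : ℝ)..(Real.pi / 2),
      Real.cos a * ((z.re * (1 + ‖z‖ ^ 2) + 2 * ‖z‖ ^ 2 * Real.cos a)
        / Complex.normSq (Dn z a)) := by
  rw [z_psi1_integral hz, Complex.re_ofReal_mul]
  congr 1
  have hi : IntervalIntegrable (fun a : ℝ => (Real.cos a : ℂ) * (z * (Dn z a)⁻¹))
      MeasureTheory.volume 0 (Real.pi / 2) := by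
    apply Continuous.intervalIntegrable
    exact (Complex.continuous_ofReal.comp Real.continuous_cos).mul
      (continuous_const.mul (continuous_Dn_inv hz))
  have h := Complex.reCLM.intervalIntegral_comp_comm hi
  simp only [Complex.reCLM_apply] at h
  rw [← h]
  apply intervalIntegral.integral_congr
  intro a _
  simp only [Complex.re_ofReal_mul]
  rw [re_mul_inv_Dn hz]

/-- Lower bound for `Im (z Psi'(z))` in the upper half disc. -/
theorem im_z_psi1_ge {z : ℂ} (hz : ‖z‖ < 1) (h0 : 0 ≤ z.im) :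
    (1 - ‖z‖ ^ 2) * z.im / (8 * Real.pi) ≤ (z * psi1 z).im := by
  have hp : 0 < Real.pi := Real.pi_pos
  have h1 : 0 ≤ z.im * (1 - ‖z‖ ^ 2) := by
    apply mul_nonneg h0
    have : ‖z‖ ^ 2 ≤ 1 := pow_le_one₀ (norm_nonneg _) hz.le
    linarith
  rw [im_z_psi1 hz]
  have hle : ∫ a in (0 : ℝ)..(Real.pi / 2), Real.cos a * (z.im * (1 - ‖z‖ ^ 2) / 16)
      ≤ ∫ a in (0 : ℝ)..(Real.pi / 2),
        Real.cos a * (z.im * (1 - ‖z‖ ^ 2) / Complex.normSq (Dn z a)) := by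
    apply intervalIntegral.integral_mono_on (by positivity)
    · apply Continuous.intervalIntegrable
      fun_prop
    · apply Continuous.intervalIntegrable
      apply Real.continuous_cos.mul
      apply Continuous.div continuous_const (Complex.continuous_normSq.comp (continuous_Dn z))
      intro a
      rw [Function.comp_apply, Ne, Complex.normSq_eq_zero]
      exact Dn_ne hz a
    · intro a ha
      have hc : 0 ≤ Real.cos a := Real.cos_nonneg_of_mem_Icc ⟨by linarith [ha.1], ha.2⟩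
      apply mul_le_mul_of_nonneg_left _ hc
      apply div_le_div_of_nonneg_left h1 _ (normSq_Dn_le hz a)
      exact Complex.normSq_pos.mpr (Dn_ne hz a)
  have he : ∫ a in (0 : ℝ)..(Real.pi / 2), Real.cos a * (z.im * (1 - ‖z‖ ^ 2) / 16)
      = z.im * (1 - ‖z‖ ^ 2) / 16 := by
    rw [intervalIntegral.integral_mul_const, integral_cos]
    simp
  rw [he] at hle
  calc (1 - ‖z‖ ^ 2) * z.im / (8 * Real.pi) = (2 / Real.pi) * (z.im * (1 - ‖z‖ ^ 2) / 16) := by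
        field_simp
        ring
    _ ≤ _ := mul_le_mul_of_nonneg_left hle (by positivity)

/-- The point `r e^{it}`. -/
noncomputable def pt (r t : ℝ) : ℂ := (r : ℂ) * Complex.exp (t * I)

theorem norm_pt {r : ℝ} (h0 : 0 ≤ r) (t : ℝ) : ‖pt r t‖ = r := by
  unfold pt
  rw [norm_mul, Complex.norm_exp_ofReal_mul_I, mul_one, Complex.norm_real, Real.norm_eq_abs,
    abs_of_nonneg h0]

theorem pt_re (r t : ℝ) : (pt r t).re = r * Real.cos t := by
  unfold pt
  rw [Complex.re_ofReal_mul, Complex.exp_ofReal_mul_I_re]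

theorem pt_im (r t : ℝ) : (pt r t).im = r * Real.sin t := by
  unfold pt
  rw [Complex.im_ofReal_mul, Complex.exp_ofReal_mul_I_im]

theorem hasDerivAt_re_Psi_pt {r : ℝ} (h0 : 0 ≤ r) (h1 : r < 1) (t : ℝ) :
    HasDerivAt (fun t : ℝ => (Psi (pt r t)).re) (-(pt r t * psi1 (pt r t)).im) t := by
  have hz : ‖pt r t‖ < 1 := by rw [norm_pt h0]; exact h1
  have hp : HasDerivAt (fun t : ℝ => pt r t) (pt r t * I) t := by
    have h2 : HasDerivAt (fun t : ℝ => ((t : ℂ) * I)) (1 * I) t :=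
      (HasDerivAt.ofReal_comp (hasDerivAt_id t)).mul_const I
    have h3 := (h2.cexp).const_mul (r : ℂ)
    refine h3.congr_deriv ?_
    unfold pt
    ring
  have h4 : HasDerivAt (fun t : ℝ => Psi (pt r t)) (psi1 (pt r t) * (pt r t * I)) t :=
    HasDerivAt.comp (𝕜' := ℂ) t (hasDerivAt_Psi hz) hp
  have h5 := (Complex.reCLM.hasFDerivAt (x := Psi (pt r t))).comp_hasDerivAt t h4
  refine h5.congr_deriv ?_
  simp only [Complex.reCLM_apply]
  rw [show psi1 (pt r t) * (pt r t * I) = (pt r t * psi1 (pt r t)) * I from by ring,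
    Complex.mul_I_re]

theorem antitone_aux {r : ℝ} (h0 : 0 ≤ r) (h1 : r < 1) :
    AntitoneOn (fun t : ℝ => (Psi (pt r t)).re
      - (1 - r ^ 2) * r / (8 * Real.pi) * Real.cos t) (Set.Icc 0 Real.pi) := by
  have hd : ∀ t : ℝ, HasDerivAt (fun t : ℝ => (Psi (pt r t)).re
      - (1 - r ^ 2) * r / (8 * Real.pi) * Real.cos t)
      (-(pt r t * psi1 (pt r t)).im
        - (1 - r ^ 2) * r / (8 * Real.pi) * (-Real.sin t)) t := fun t =>
    (hasDerivAt_re_Psi_pt h0 h1 t).sub ((Real.hasDerivAt_cos t).const_mul _)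
  apply antitoneOn_of_deriv_nonpos (convex_Icc 0 Real.pi)
  · exact fun t _ => (hd t).continuousAt.continuousWithinAt
  · exact fun t _ => (hd t).differentiableAt.differentiableWithinAt
  · intro t ht
    rw [interior_Icc] at ht
    rw [(hd t).deriv]
    have hs : 0 ≤ Real.sin t := (Real.sin_pos_of_mem_Ioo ht).le
    have hz : ‖pt r t‖ < 1 := by rw [norm_pt h0]; exact h1
    have h2 := im_z_psi1_ge hz (by rw [pt_im]; positivity)
    rw [norm_pt h0, pt_im] at h2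
    have e : (1 - r ^ 2) * (r * Real.sin t) / (8 * Real.pi)
        = (1 - r ^ 2) * r / (8 * Real.pi) * Real.sin t := by ring
    rw [e] at h2
    linarith

theorem norm_Es_eq_pt {z : ℂ} : ‖Es z‖ = ‖Es (pt ‖z‖ |Complex.arg z|)‖ := by
  have h : z = pt ‖z‖ (Complex.arg z) := by
    unfold pt
    exact (Complex.norm_mul_exp_arg_mul_I z).symm
  rcases le_or_gt 0 (Complex.arg z) with h0 | h0
  · rw [abs_of_nonneg h0, ← h]
  · rw [abs_of_neg h0]
    have h2 : pt ‖z‖ (-Complex.arg z) = (starRingEnd ℂ) z := by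
      conv_rhs => rw [h]
      unfold pt
      rw [map_mul, Complex.conj_ofReal, ← Complex.exp_conj, map_mul, Complex.conj_ofReal,
        Complex.conj_I]
      push_cast
      ring_nf
    rw [h2, norm_Es_conj]

theorem re_eq_cos_abs_arg (z : ℂ) : z.re = ‖z‖ * Real.cos |Complex.arg z| := by
  rw [Real.cos_abs]
  exact (Complex.norm_mul_cos_arg z).symm

/-- Monotonicity of `|Es|` on circles, with a quantitative gain. -/
theorem angle {z w : ℂ} (hz : ‖z‖ < 1) (hw : ‖w‖ = ‖z‖) (h : z.re ≤ w.re) :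
    ‖Es z‖ ≤ ‖Es w‖ * Real.exp (-((1 - ‖z‖ ^ 2) * (w.re - z.re) / (8 * Real.pi))) := by
  rcases (norm_nonneg z).eq_or_lt with h0 | h0
  · have hz0 : z = 0 := by rw [← norm_eq_zero]; exact h0.symm
    have hw0 : w = 0 := by rw [← norm_eq_zero, hw]; exact h0.symm
    subst hz0
    subst hw0
    simp
  · rw [norm_Es_eq_pt (z := z), norm_Es_eq_pt (z := w), hw]
    have hz1 := re_eq_cos_abs_arg z
    have hw1 := re_eq_cos_abs_arg w
    rw [hw] at hw1
    have ha : |Complex.arg z| ∈ Set.Icc 0 Real.pi := ⟨abs_nonneg _, Complex.abs_arg_le_pi z⟩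
    have hb : |Complex.arg w| ∈ Set.Icc 0 Real.pi := ⟨abs_nonneg _, Complex.abs_arg_le_pi w⟩
    have hcos : Real.cos |Complex.arg z| ≤ Real.cos |Complex.arg w| := by
      rw [hz1, hw1] at h
      exact le_of_mul_le_mul_left h h0
    have hab : |Complex.arg w| ≤ |Complex.arg z| := by
      by_contra hlt
      push Not at hlt
      have := Real.strictAntiOn_cos ha hb hlt
      linarith
    have h2 := antitone_aux h0.le hz hb ha hab
    simp only at h2
    rw [norm_Es, norm_Es, ← Real.exp_add, Real.exp_le_exp, hz1, hw1]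
    have e : (1 - ‖z‖ ^ 2) * (‖z‖ * Real.cos |Complex.arg w| - ‖z‖ * Real.cos |Complex.arg z|)
        / (8 * Real.pi)
        = (1 - ‖z‖ ^ 2) * ‖z‖ / (8 * Real.pi) * Real.cos |Complex.arg w|
          - (1 - ‖z‖ ^ 2) * ‖z‖ / (8 * Real.pi) * Real.cos |Complex.arg z| := by ring
    rw [e]
    linarith

theorem mono_angle {z w : ℂ} (hz : ‖z‖ < 1) (hw : ‖w‖ = ‖z‖) (h : z.re ≤ w.re) :
    ‖Es z‖ ≤ ‖Es w‖ := by
  refine (angle hz hw h).trans ?_
  have h2 : 0 ≤ (1 - ‖z‖ ^ 2) * (w.re - z.re) / (8 * Real.pi) := by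
    have h3 : ‖z‖ ^ 2 ≤ 1 := pow_le_one₀ (norm_nonneg _) hz.le
    have hp : 0 < Real.pi := Real.pi_pos
    apply div_nonneg _ (by positivity)
    apply mul_nonneg <;> linarith
  calc ‖Es w‖ * Real.exp (-((1 - ‖z‖ ^ 2) * (w.re - z.re) / (8 * Real.pi)))
      ≤ ‖Es w‖ * 1 := by
        apply mul_le_mul_of_nonneg_left _ (norm_nonneg _)
        rw [Real.exp_le_one_iff]
        linarith
    _ = ‖Es w‖ := mul_one _

/-- Damping against the positive real axis. -/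
theorem damping {z : ℂ} (hz : ‖z‖ < 1) :
    ‖Es z‖ ≤ ‖Es (‖z‖ : ℂ)‖
      * Real.exp (-((1 - ‖z‖ ^ 2) * (‖z‖ - z.re) / (8 * Real.pi))) := by
  have h := angle (z := z) (w := (‖z‖ : ℂ)) hz (by simp)
    (by rw [Complex.ofReal_re]; exact Complex.re_le_norm z)
  rw [Complex.ofReal_re] at h
  exact h

/-- `1 + |z|^2 <= |Es z|^2` in the right half disc. -/
theorem sq_ge {z : ℂ} (hz : ‖z‖ < 1) (h : 0 ≤ z.re) : 1 + ‖z‖ ^ 2 ≤ ‖Es z‖ ^ 2 := by
  have h1 : ‖((‖z‖ : ℝ) : ℂ) * I‖ = ‖z‖ := by simp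
  have h2 := mono_angle (z := ((‖z‖ : ℝ) : ℂ) * I) (w := z) (by rw [h1]; exact hz) h1.symm
    (by simpa using h)
  have h3 := norm_Es_I (y := ‖z‖) (by rw [abs_of_nonneg (norm_nonneg _)]; exact hz)
  rw [← h3]
  exact pow_le_pow_left₀ (norm_nonneg _) h2 2

theorem sq_le_basic {z : ℂ} (hz : ‖z‖ < 1) (h : z.re ≤ 0) : ‖Es z‖ ^ 2 ≤ 1 + ‖z‖ ^ 2 := by
  have h1 : ‖((‖z‖ : ℝ) : ℂ) * I‖ = ‖z‖ := by simp
  have h2 := mono_angle (z := z) (w := ((‖z‖ : ℝ) : ℂ) * I) hz h1 (by simpa using h)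
  have h3 := norm_Es_I (y := ‖z‖) (by rw [abs_of_nonneg (norm_nonneg _)]; exact hz)
  rw [← h3]
  exact pow_le_pow_left₀ (norm_nonneg _) h2 2

theorem normSq_one_sub_sq (z : ℂ) : ‖1 - z ^ 2‖ ^ 2 = (1 + ‖z‖ ^ 2) ^ 2 - 4 * z.re ^ 2 := by
  rw [← Complex.normSq_eq_norm_sq, ← Complex.normSq_eq_norm_sq, Complex.normSq_apply,
    Complex.normSq_apply]
  simp [pow_two]
  ring

/-- The bound in the left half disc. -/
theorem sq_le {z : ℂ} (hz : ‖z‖ < 1) (h : z.re ≤ 0) :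
    ‖Es z‖ ^ 2 ≤ 1 + ‖z‖ ^ 2 - 4 * z.re ^ 2 / (1 + ‖z‖ ^ 2) := by
  have hz' : ‖-z‖ < 1 := by rw [norm_neg]; exact hz
  have h1 := sq_ge hz' (by simpa using h)
  rw [norm_neg] at h1
  have h2 := norm_Es_mul_neg hz
  have hp : 0 < 1 + ‖z‖ ^ 2 := by positivity
  have h3 : ‖Es z‖ ^ 2 * (1 + ‖z‖ ^ 2) ≤ (1 + ‖z‖ ^ 2) ^ 2 - 4 * z.re ^ 2 := by
    rw [← normSq_one_sub_sq, ← h2, mul_pow]
    exact mul_le_mul_of_nonneg_left h1 (by positivity)
  have e : 1 + ‖z‖ ^ 2 - 4 * z.re ^ 2 / (1 + ‖z‖ ^ 2)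
      = ((1 + ‖z‖ ^ 2) ^ 2 - 4 * z.re ^ 2) / (1 + ‖z‖ ^ 2) := by
    field_simp
  rw [e, le_div_iff₀ hp]
  exact h3

end Pool.Agent.Lib.MP_0430e4_lc.BY
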