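import Mathlib
import Pool.Agent.Lib.MP_0430e4_lc.BY.PsiA
import Pool.Agent.Lib.MP_0430e4_lc.BY.PsiB
import Pool.Agent.Lib.MP_0430e4_lc.BY.PsiC
import Pool.Agent.Lib.MP_0430e4_lc.BY.PsiD

/-!
# BLOCK E: interface (import this file)

Proved in PsiA..PsiD: `gc`, `Psi`, `psi1`, `Es`, `lev`, `gc_zero/one/even/odd`, `abs_gc_le`,
`hasSum_Psi`, `hasSum_psi1`, `hasDerivAt_Psi`, `hasDerivAt_Es`, `Psi_conj`, `psi1_conj`,
`Es_conj`, `norm_Es_conj`, `Psi_add_neg`, `Es_mul_neg`, `norm_Es_mul_neg`, `norm_Es_I`,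
`Psi_ofReal_im`, `psi1_ofReal_im`, `norm_Es`, `closed`, `z_mul_lev`, `norm_lev_sub`,
`lev_real_ge`, `lev_real_eq`, `psi1_integral`, `im_z_psi1`, `re_z_psi1`, `im_z_psi1_ge`,
`angle`, `mono_angle`, `damping`, `sq_ge`, `sq_le`, `sq_le_basic`.
-/

set_option autoImplicit false

namespace Pool.Agent.Lib.MP_0430e4_lc.BY

open Complex

/-- `g(r) = r Psi'(r)` on the real axis. -/
noncomputable def gr (r : ℝ) : ℝ := r * (psi1 (r : ℂ)).re

theorem norm_ofReal_lt {r : ℝ} (h0 : 0 ≤ r) (h1 : r < 1) : ‖(r : ℂ)‖ < 1 := by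
  rw [Complex.norm_real, Real.norm_eq_abs, abs_of_nonneg h0]
  exact h1

theorem cos_nn {a : ℝ} (ha : a ∈ Set.Icc (0 : ℝ) (Real.pi / 2)) : 0 ≤ Real.cos a :=
  Real.cos_nonneg_of_mem_Icc ⟨by linarith [ha.1, Real.pi_pos], ha.2⟩

theorem den_pos {r a : ℝ} (h0 : 0 ≤ r) (ha : 0 ≤ Real.cos a) :
    1 ≤ 1 + 2 * r * Real.cos a + r ^ 2 := by
  have := mul_nonneg h0 ha
  nlinarith [sq_nonneg r]

theorem gr_integral {r : ℝ} (h0 : 0 ≤ r) (h1 : r < 1) :
    gr r = (2 / Real.pi) * ∫ a in (0 : ℝ)..(Real.pi / 2),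
      Real.cos a * (r / (1 + 2 * r * Real.cos a + r ^ 2)) := by
  have hz := norm_ofReal_lt h0 h1
  have h := re_z_psi1 hz
  have e1 : ((r : ℂ) * psi1 (r : ℂ)).re = gr r := by
    rw [Complex.re_ofReal_mul]
    rfl
  rw [e1] at h
  rw [h]
  congr 1
  apply intervalIntegral.integral_congr
  intro a ha
  rw [Set.uIcc_of_le (by positivity)] at ha
  have hc : 0 ≤ Real.cos a := cos_nn ha
  have hd := den_pos h0 hc
  have hn : Complex.normSq (Dn (r : ℂ) a) = (1 + 2 * r * Real.cos a + r ^ 2) ^ 2 := by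
    have : Dn (r : ℂ) a = ((1 + 2 * r * Real.cos a + r ^ 2 : ℝ) : ℂ) := by
      unfold Dn
      push_cast
      ring
    rw [this, Complex.normSq_ofReal]
    ring
  simp only []
  rw [hn, Complex.norm_real, Real.norm_eq_abs, abs_of_nonneg h0, Complex.ofReal_re]
  have hne : 1 + 2 * r * Real.cos a + r ^ 2 ≠ 0 := by linarith
  congr 1
  field_simp
  ring

theorem cont_kernel {r : ℝ} (h0 : 0 ≤ r) :
    ContinuousOn (fun a : ℝ => Real.cos a * (r / (1 + 2 * r * Real.cos a + r ^ 2)))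
      (Set.Icc 0 (Real.pi / 2)) := by
  apply ContinuousOn.mul Real.continuous_cos.continuousOn
  apply ContinuousOn.div continuousOn_const
  · fun_prop
  · intro a ha
    have hc : 0 ≤ Real.cos a := cos_nn ha
    have := den_pos h0 hc
    linarith

theorem kernel_lt {r s c : ℝ} (h0 : 0 ≤ r) (hrs : r < s) (h1 : s < 1) (hc : 0 ≤ c) :
    r / (1 + 2 * r * c + r ^ 2) < s / (1 + 2 * s * c + s ^ 2) := by
  have hs : 0 < s := lt_of_le_of_lt h0 hrs
  rw [div_lt_div_iff₀ (by positivity) (by positivity)]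
  have : 0 < (s - r) * (1 - r * s) := by
    apply mul_pos (by linarith)
    nlinarith
  nlinarith

theorem gr_strictMonoOn : StrictMonoOn gr (Set.Ico 0 1) := by
  intro r hr s hs hrs
  rw [gr_integral hr.1 hr.2, gr_integral hs.1 hs.2]
  apply mul_lt_mul_of_pos_left _ (by positivity)
  apply intervalIntegral.integral_lt_integral_of_continuousOn_of_le_of_exists_lt
    (by positivity) (cont_kernel hr.1) (cont_kernel hs.1)
  · intro a ha
    have hc : 0 ≤ Real.cos a := cos_nn ⟨ha.1.le, ha.2⟩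
    exact mul_le_mul_of_nonneg_left (kernel_lt hr.1 hrs hs.2 hc).le hc
  · refine ⟨0, ⟨le_rfl, by positivity⟩, ?_⟩
    simp only [Real.cos_zero, one_mul]
    exact kernel_lt hr.1 hrs hs.2 zero_le_one

theorem integral_half :
    ∫ a in (0 : ℝ)..(Real.pi / 2), Real.cos a * (1 / (2 + 2 * Real.cos a))
      = Real.pi / 4 - 1 / 2 := by
  have hd : ∀ a ∈ Set.uIcc (0 : ℝ) (Real.pi / 2),
      HasDerivAt (fun a : ℝ => a / 2 - Real.sin a / (1 + Real.cos a) / 2)
        (Real.cos a * (1 / (2 + 2 * Real.cos a))) a := by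
    intro a ha
    rw [Set.uIcc_of_le (by positivity)] at ha
    have hc : 0 ≤ Real.cos a := cos_nn ha
    have hne : 1 + Real.cos a ≠ 0 := by linarith
    have d1 := ((Real.hasDerivAt_sin a).div ((Real.hasDerivAt_cos a).const_add 1) hne).div_const 2
    have d := ((hasDerivAt_id a).div_const 2).sub d1
    refine d.congr_deriv ?_
    have hsc := Real.sin_sq_add_cos_sq a
    have hne2 : 2 + 2 * Real.cos a ≠ 0 := by linarith
    field_simp
    linear_combination (-1 : ℝ) * hsc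
  rw [intervalIntegral.integral_eq_sub_of_hasDerivAt hd]
  · simp
    ring
  · apply ContinuousOn.intervalIntegrable
    apply ContinuousOn.mul Real.continuous_cos.continuousOn
    apply ContinuousOn.div continuousOn_const
    · fun_prop
    · intro a ha
      rw [Set.uIcc_of_le (by positivity)] at ha
      have hc : 0 ≤ Real.cos a := cos_nn ha
      linarith

theorem half_cont : ContinuousOn (fun a : ℝ => Real.cos a * (1 / (2 + 2 * Real.cos a)))
      (Set.Icc 0 (Real.pi / 2)) := by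
  apply ContinuousOn.mul Real.continuous_cos.continuousOn
  apply ContinuousOn.div continuousOn_const
  · fun_prop
  · intro a ha
    have hc : 0 ≤ Real.cos a := cos_nn ha
    linarith

theorem kernel_lt_half {r c : ℝ} (h0 : 0 ≤ r) (h1 : r < 1) (hc : 0 ≤ c) :
    r / (1 + 2 * r * c + r ^ 2) < 1 / (2 + 2 * c) := by
  rw [div_lt_div_iff₀ (by positivity) (by positivity)]
  have : 0 < (1 - r) ^ 2 := by
    have : (1 - r) ≠ 0 := by linarith
    positivity
  nlinarith

theorem gr_lt {r : ℝ} (h0 : 0 ≤ r) (h1 : r < 1) : gr r < 1 / 2 - 1 / Real.pi := by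
  have hp := Real.pi_pos
  have e : 1 / 2 - 1 / Real.pi = (2 / Real.pi) * (Real.pi / 4 - 1 / 2) := by
    field_simp
    ring
  rw [gr_integral h0 h1, e, ← integral_half]
  apply mul_lt_mul_of_pos_left _ (by positivity)
  apply intervalIntegral.integral_lt_integral_of_continuousOn_of_le_of_exists_lt
    (by positivity) (cont_kernel h0) half_cont
  · intro a ha
    have hc : 0 ≤ Real.cos a := cos_nn ⟨ha.1.le, ha.2⟩
    exact mul_le_mul_of_nonneg_left (kernel_lt_half h0 h1 hc).le hc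
  · refine ⟨0, ⟨le_rfl, by positivity⟩, ?_⟩
    simp only [Real.cos_zero, one_mul]
    have := kernel_lt_half h0 h1 (zero_le_one (α := ℝ))
    simpa using this

theorem kernel_ge {r c : ℝ} (h0 : 0 ≤ r) (hc : 0 ≤ c) :
    1 / (2 + 2 * c) - (1 - r) ^ 2 / 2 ≤ r / (1 + 2 * r * c + r ^ 2) := by
  have hd : 1 ≤ 1 + 2 * r * c + r ^ 2 := by
    have := mul_nonneg h0 hc
    nlinarith [sq_nonneg r]
  have e : 1 / (2 + 2 * c) - r / (1 + 2 * r * c + r ^ 2)
      = (1 - r) ^ 2 / ((2 + 2 * c) * (1 + 2 * r * c + r ^ 2)) := by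
    have h2 : 2 + 2 * c ≠ 0 := by positivity
    have h3 : 1 + 2 * r * c + r ^ 2 ≠ 0 := by positivity
    field_simp
    ring
  have h4 : (1 - r) ^ 2 / ((2 + 2 * c) * (1 + 2 * r * c + r ^ 2)) ≤ (1 - r) ^ 2 / 2 := by
    apply div_le_div_of_nonneg_left (by positivity) (by norm_num)
    nlinarith
  linarith

theorem gr_ge {r : ℝ} (h0 : 0 ≤ r) (h1 : r < 1) :
    1 / 2 - 1 / Real.pi - (1 - r) ^ 2 / Real.pi ≤ gr r := by
  have hp := Real.pi_pos
  have h3 : ∫ a in (0 : ℝ)..(Real.pi / 2),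
      (Real.cos a * (1 / (2 + 2 * Real.cos a)) - Real.cos a * ((1 - r) ^ 2 / 2))
      = (Real.pi / 4 - 1 / 2) - (1 - r) ^ 2 / 2 := by
    rw [intervalIntegral.integral_sub, integral_half, intervalIntegral.integral_mul_const,
      integral_cos]
    · simp
    · apply ContinuousOn.intervalIntegrable
      rw [Set.uIcc_of_le (by positivity)]
      exact half_cont
    · apply Continuous.intervalIntegrable
      fun_prop
  have h4 : ∫ a in (0 : ℝ)..(Real.pi / 2),
      (Real.cos a * (1 / (2 + 2 * Real.cos a)) - Real.cos a * ((1 - r) ^ 2 / 2))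
      ≤ ∫ a in (0 : ℝ)..(Real.pi / 2),
        Real.cos a * (r / (1 + 2 * r * Real.cos a + r ^ 2)) := by
    apply intervalIntegral.integral_mono_on (by positivity)
    · apply ContinuousOn.intervalIntegrable
      rw [Set.uIcc_of_le (by positivity)]
      exact half_cont.sub (by fun_prop)
    · apply ContinuousOn.intervalIntegrable
      rw [Set.uIcc_of_le (by positivity)]
      exact cont_kernel h0
    · intro a ha
      have hc : 0 ≤ Real.cos a := cos_nn ha
      rw [← mul_sub]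
      exact mul_le_mul_of_nonneg_left (kernel_ge h0 hc) hc
  rw [h3] at h4
  rw [gr_integral h0 h1]
  calc 1 / 2 - 1 / Real.pi - (1 - r) ^ 2 / Real.pi
      = (2 / Real.pi) * ((Real.pi / 4 - 1 / 2) - (1 - r) ^ 2 / 2) := by
        field_simp
        ring
    _ ≤ _ := mul_le_mul_of_nonneg_left h4 (by positivity)

theorem gr_tenth : gr (1 / 10) ≤ 7 / 100 := by
  have h0 : (0 : ℝ) ≤ 1 / 10 := by norm_num
  have h1 : (1 / 10 : ℝ) < 1 := by norm_num
  have hp := Real.pi_gt_three
  rw [gr_integral h0 h1]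
  have h4 : ∫ a in (0 : ℝ)..(Real.pi / 2),
        Real.cos a * ((1 / 10) / (1 + 2 * (1 / 10) * Real.cos a + (1 / 10) ^ 2))
      ≤ ∫ a in (0 : ℝ)..(Real.pi / 2), Real.cos a * (1 / 10) := by
    apply intervalIntegral.integral_mono_on (by positivity)
    · apply ContinuousOn.intervalIntegrable
      rw [Set.uIcc_of_le (by positivity)]
      exact cont_kernel h0
    · apply Continuous.intervalIntegrable
      fun_prop
    · intro a ha
      have hc : 0 ≤ Real.cos a := cos_nn ha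
      apply mul_le_mul_of_nonneg_left _ hc
      have := den_pos h0 hc
      rw [div_le_iff₀ (by linarith)]
      linarith
  rw [intervalIntegral.integral_mul_const, integral_cos] at h4
  simp only [Real.sin_pi_div_two, Real.sin_zero, sub_zero, one_mul] at h4
  calc (2 / Real.pi) * _ ≤ (2 / Real.pi) * (1 / 10) := mul_le_mul_of_nonneg_left h4 (by positivity)
    _ = 1 / (5 * Real.pi) := by ring
    _ ≤ 1 / (5 * 3) := by
        apply one_div_le_one_div_of_le (by norm_num)
        linarith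
    _ ≤ 7 / 100 := by norm_num

theorem sq_le_two {z : ℂ} {η : ℝ} (hz : ‖z‖ < 1) (hη : 0 ≤ η) (h : z.re ≤ -η) :
    ‖Es z‖ ^ 2 ≤ 2 - 2 * η ^ 2 := by
  have h1 := sq_le hz (by linarith)
  have h2 : ‖z‖ ^ 2 ≤ 1 := pow_le_one₀ (norm_nonneg _) hz.le
  have h3 : η ^ 2 ≤ z.re ^ 2 := by nlinarith
  have h4 : 2 * z.re ^ 2 ≤ 4 * z.re ^ 2 / (1 + ‖z‖ ^ 2) := by
    rw [le_div_iff₀ (by positivity)]
    nlinarith [sq_nonneg z.re]
  linarith

/-- The local frequency on the dual side. -/
theorem freq {u : ℂ} (hu : 0 < u.re) :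
    HasDerivAt (fun u : ℂ => Complex.log (1 + u) + Psi ((1 - u) / (1 + u)))
      ((1 / 2 - lev ((1 - u) / (1 + u)) / 2) / u) u := by
  have h1u : (1 : ℂ) + u ≠ 0 := by
    intro h
    have : (1 + u).re = 0 := by rw [h]; simp
    rw [Complex.add_re, Complex.one_re] at this
    linarith
  have hu0 : u ≠ 0 := by
    intro h
    rw [h] at hu
    simp at hu
  have hz : ‖(1 - u) / (1 + u)‖ < 1 := by
    rw [norm_div, div_lt_one (norm_pos_iff.mpr h1u)]
    apply lt_of_pow_lt_pow_left₀ 2 (norm_nonneg _)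
    rw [← Complex.normSq_eq_norm_sq, ← Complex.normSq_eq_norm_sq, Complex.normSq_apply,
      Complex.normSq_apply]
    simp
    nlinarith
  have hlog : HasDerivAt (fun u : ℂ => Complex.log (1 + u)) (1 / (1 + u)) u := by
    have h2 : (1 + u) ∈ Complex.slitPlane := by
      left
      rw [Complex.add_re, Complex.one_re]
      linarith
    have h3 := ((hasDerivAt_id u).const_add 1).clog h2
    simpa using h3
  have hw : HasDerivAt (fun u : ℂ => (1 - u) / (1 + u)) (-2 / (1 + u) ^ 2) u := by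
    have h3 := ((hasDerivAt_id u).const_sub 1).div ((hasDerivAt_id u).const_add 1) h1u
    refine h3.congr_deriv ?_
    simp only [id]
    congr 1
    ring
  have h4 := (hasDerivAt_Psi hz).comp u hw
  have h5 := hlog.add h4
  refine h5.congr_deriv ?_
  unfold lev
  set P : ℂ := psi1 ((1 - u) / (1 + u)) with hP
  clear_value P
  field_simp
  ring

theorem lev_conj (z : ℂ) : lev ((starRingEnd ℂ) z) = (starRingEnd ℂ) (lev z) := by
  unfold lev
  rw [psi1_conj, map_add, map_mul, map_sub, map_pow, map_one]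

theorem mul_abs_log_le {x : ℝ} (h0 : 0 < x) (h1 : x ≤ 1) : x * |Real.log x| ≤ 2 * Real.sqrt x := by
  have hs : 0 < Real.sqrt x := Real.sqrt_pos.mpr h0
  have hs1 : Real.sqrt x ≤ 1 := by
    calc Real.sqrt x ≤ Real.sqrt 1 := Real.sqrt_le_sqrt h1
      _ = 1 := Real.sqrt_one
  have h2 := Real.abs_log_mul_self_lt (Real.sqrt x) hs hs1
  have h3 : Real.log x = 2 * Real.log (Real.sqrt x) := by
    rw [Real.log_sqrt h0.le]
    ring
  have h4 : x = Real.sqrt x * Real.sqrt x := (Real.mul_self_sqrt h0.le).symm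
  rw [h3, abs_mul, abs_two]
  rw [abs_mul, abs_of_pos hs] at h2
  calc x * (2 * |Real.log (Real.sqrt x)|)
      = 2 * Real.sqrt x * (|Real.log (Real.sqrt x)| * Real.sqrt x) := by
        nth_rewrite 1 [h4]
        ring
    _ ≤ 2 * Real.sqrt x * 1 := mul_le_mul_of_nonneg_left h2.le (by positivity)
    _ = 2 * Real.sqrt x := mul_one _

theorem arctan_p {z : ℂ} (hz : ‖z‖ < 1) : 0 < ((1 + z * I) / (1 - z * I)).re := by
  have hne : 1 - z * I ≠ 0 := by
    intro h
    have : z * I = 1 := by linear_combination -h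
    have h2 : ‖z * I‖ = 1 := by rw [this]; simp
    rw [norm_mul, Complex.norm_I, mul_one] at h2
    linarith
  have h1 : ((1 + z * I) / (1 - z * I)).re
      = (1 - ‖z‖ ^ 2) / Complex.normSq (1 - z * I) := by
    rw [Complex.div_re, ← Complex.normSq_eq_norm_sq, Complex.normSq_apply z, ← add_div]
    congr 1
    simp
    ring
  rw [h1]
  apply div_pos _ (Complex.normSq_pos.mpr hne)
  have : ‖z‖ ^ 2 < 1 := pow_lt_one₀ (norm_nonneg _) hz (by norm_num)
  linarith

theorem norm_lev_le_sqrt {z : ℂ} (hz : ‖z‖ < 1) (hI : ‖z - I‖ ≤ 1 / 4) :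
    ‖lev z‖ ≤ 14 * Real.sqrt ‖z - I‖ := by
  have e1 : 1 + z * I = I * (z - I) := by
    have := Complex.I_mul_I
    linear_combination (1 : ℂ) * this
  have e2 : 1 - z * I = -I * (z + I) := by
    have := Complex.I_mul_I
    linear_combination (1 : ℂ) * this
  set x : ℝ := ‖z - I‖ with hx
  set y : ℝ := ‖z + I‖ with hy
  have hx0 : 0 < x := by
    rw [hx, norm_pos_iff, sub_ne_zero]
    intro h
    rw [h, Complex.norm_I] at hz
    exact lt_irrefl _ hz
  have hx1 : ‖1 + z * I‖ = x := by rw [e1, norm_mul, Complex.norm_I, one_mul]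
  have hy1 : ‖1 - z * I‖ = y := by rw [e2, norm_mul, norm_neg, Complex.norm_I, one_mul]
  have hy2 : y ≤ 2 := by
    calc y ≤ ‖z‖ + ‖I‖ := norm_add_le _ _
      _ ≤ 2 := by rw [Complex.norm_I]; linarith
  have hy3 : 1 ≤ y := by
    have h2 : ‖(2 : ℂ) * I‖ ≤ ‖z + I‖ + ‖z - I‖ := by
      rw [show (2 : ℂ) * I = (z + I) - (z - I) from by ring]
      exact norm_sub_le _ _
    rw [norm_mul, Complex.norm_I, mul_one, Complex.norm_ofNat] at h2
    linarith
  have hz2 : 1 / 2 ≤ ‖z‖ := by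
    have h2 : ‖I‖ ≤ ‖z‖ + ‖z - I‖ := by
      calc ‖I‖ = ‖z - (z - I)‖ := by congr 1; ring
        _ ≤ ‖z‖ + ‖z - I‖ := norm_sub_le _ _
    rw [Complex.norm_I] at h2
    linarith
  set p : ℂ := (1 + z * I) / (1 - z * I) with hp
  have hpre := arctan_p hz
  rw [← hp] at hpre
  have hnp : ‖p‖ = x / y := by rw [hp, norm_div, hx1, hy1]
  have hlog : ‖Complex.log p‖ ≤ |Real.log x| + 1 + 2 := by
    have h3 : ‖Complex.log p‖ ≤ |(Complex.log p).re| + |(Complex.log p).im| :=
      Complex.norm_le_abs_re_add_abs_im _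
    rw [Complex.log_re, Complex.log_im, hnp, Real.log_div hx0.ne' (by linarith)] at h3
    have h4 : |Real.log x - Real.log y| ≤ |Real.log x| + 1 := by
      have h5 : |Real.log x - Real.log y| ≤ |Real.log x| + |Real.log y| := abs_sub _ _
      have h6 : |Real.log y| ≤ 1 := by
        rw [abs_of_nonneg (Real.log_nonneg hy3)]
        have := Real.log_le_sub_one_of_pos (show 0 < y by linarith)
        linarith
      linarith
    have h7 : |Complex.arg p| ≤ 2 := by
      have h8 := (Complex.abs_arg_lt_pi_div_two_iff.mpr (Or.inl hpre)).le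
      have := Real.pi_lt_four
      linarith
    linarith
  have hA : ‖Complex.arctan z‖ ≤ (|Real.log x| + 3) / 2 := by
    unfold Complex.arctan
    rw [← hp, norm_mul, norm_div, norm_neg, Complex.norm_I, Complex.norm_ofNat]
    linarith
  have h1 := z_mul_lev hz
  have h2 : (1 : ℂ) + z ^ 2 = (1 + z * I) * (1 - z * I) := by
    have := Complex.I_sq
    linear_combination (z ^ 2) * this
  have h3 : ‖z‖ * ‖lev z‖ ≤ x * (|Real.log x| + 3) := by
    rw [← norm_mul, h1, h2, norm_mul, norm_mul, norm_mul, hx1, hy1, Complex.norm_real,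
      Real.norm_eq_abs, abs_of_nonneg (by positivity)]
    have h4 : 2 / Real.pi ≤ 1 := by
      rw [div_le_one Real.pi_pos]
      exact Real.two_le_pi
    calc 2 / Real.pi * (x * y * ‖Complex.arctan z‖)
        ≤ 1 * (x * 2 * ((|Real.log x| + 3) / 2)) := by
          apply mul_le_mul h4 _ (by positivity) (by norm_num)
          apply mul_le_mul _ hA (norm_nonneg _) (by positivity)
          exact mul_le_mul_of_nonneg_left hy2 hx0.le
      _ = x * (|Real.log x| + 3) := by ring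
  have h5 := mul_abs_log_le hx0 (by linarith : x ≤ 1)
  have h6 : x ≤ Real.sqrt x := by
    have hs : 0 < Real.sqrt x := Real.sqrt_pos.mpr hx0
    have h7 : Real.sqrt x * Real.sqrt x = x := Real.mul_self_sqrt hx0.le
    have h8 : Real.sqrt x ≤ 1 := by
      calc Real.sqrt x ≤ Real.sqrt 1 := Real.sqrt_le_sqrt (by linarith)
        _ = 1 := Real.sqrt_one
    nlinarith
  have h9 : ‖z‖ * ‖lev z‖ ≤ 5 * Real.sqrt x := by nlinarith
  nlinarith [norm_nonneg (lev z), Real.sqrt_nonneg x]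

theorem lev_small_I (η : ℝ) (hη : 0 < η) : ∃ r > (0 : ℝ), ∀ z : ℂ, ‖z‖ < 1 →
    ‖z - I‖ ≤ r → ‖lev z‖ ≤ η := by
  refine ⟨min (1 / 4) ((η / 14) ^ 2), by positivity, fun z hz h => ?_⟩
  have h1 := norm_lev_le_sqrt hz (h.trans (min_le_left _ _))
  have h2 : Real.sqrt ‖z - I‖ ≤ η / 14 := by
    rw [Real.sqrt_le_left (by positivity)]
    exact h.trans (min_le_right _ _)
  linarith

theorem lev_small (η : ℝ) (hη : 0 < η) : ∃ r > (0 : ℝ), ∀ z : ℂ, ‖z‖ < 1 →
    (‖z - I‖ ≤ r ∨ ‖z + I‖ ≤ r) → ‖lev z‖ ≤ η := by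
  obtain ⟨r, hr, h⟩ := lev_small_I η hη
  refine ⟨r, hr, fun z hz hc => ?_⟩
  rcases hc with hc | hc
  · exact h z hz hc
  · have h2 := h ((starRingEnd ℂ) z) (by rw [Complex.norm_conj]; exact hz) (by
      rw [← Complex.norm_conj, map_sub, Complex.conj_conj, Complex.conj_I, sub_neg_eq_add]
      exact hc)
    rw [lev_conj, Complex.norm_conj] at h2
    exact h2

theorem hasDerivAt_w {z : ℂ} (h : 1 + z ≠ 0) :
    HasDerivAt (fun z : ℂ => (1 - z) / (1 + z)) (-2 / (1 + z) ^ 2) z := by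
  have h3 := ((hasDerivAt_id z).const_sub 1).div ((hasDerivAt_id z).const_add 1) h
  refine h3.congr_deriv ?_
  simp only [id]
  congr 1
  ring

theorem one_add_ne {z : ℂ} (h : 0 < z.re) : (1 : ℂ) + z ≠ 0 := by
  intro h0
  have : (1 + z).re = 0 := by rw [h0]; simp
  rw [Complex.add_re, Complex.one_re] at this
  linarith

theorem norm_w_lt {z : ℂ} (h : 0 < z.re) : ‖(1 - z) / (1 + z)‖ < 1 := by
  rw [norm_div, div_lt_one (norm_pos_iff.mpr (one_add_ne h))]
  apply lt_of_pow_lt_pow_left₀ 2 (norm_nonneg _)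
  rw [← Complex.normSq_eq_norm_sq, ← Complex.normSq_eq_norm_sq, Complex.normSq_apply,
    Complex.normSq_apply]
  simp
  nlinarith

/-- `arctan ((1-z)/(1+z)) = pi/4 - arctan z` in the right half disc. -/
theorem arctan_w {z : ℂ} (hz : ‖z‖ < 1) (h : 0 < z.re) :
    Complex.arctan ((1 - z) / (1 + z)) = ((Real.pi / 4 : ℝ) : ℂ) - Complex.arctan z := by
  have h1 := one_add_ne h
  have hne : ∀ b : ℂ, ‖b‖ = 1 → 1 + z * b ≠ 0 := by
    intro b hb h0
    have : z * b = -1 := by linear_combination h0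
    have h2 : ‖z * b‖ = 1 := by rw [this]; simp
    rw [norm_mul, hb, mul_one] at h2
    linarith
  have hI : (1 : ℂ) + z * I ≠ 0 := hne I Complex.norm_I
  have hI' : (1 : ℂ) - z * I ≠ 0 := by
    have := hne (-I) (by rw [norm_neg, Complex.norm_I])
    intro h0
    apply this
    linear_combination h0
  have hwlt := norm_w_lt h
  set w : ℂ := (1 - z) / (1 + z) with hw
  have hwI' : (1 : ℂ) - w * I ≠ 0 := by
    intro h0
    have : w * I = 1 := by linear_combination -h0
    have h2 : ‖w * I‖ = 1 := by rw [this]; simp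
    rw [norm_mul, Complex.norm_I, mul_one] at h2
    linarith
  set p : ℂ := (1 + z * I) / (1 - z * I) with hp
  have hpre := arctan_p hz
  rw [← hp] at hpre
  have hp0 : p ≠ 0 := div_ne_zero hI hI'
  have hq : (1 + w * I) / (1 - w * I) = I / p := by
    rw [div_eq_div_iff hwI' hp0, hp, hw]
    have hI2 := Complex.I_sq
    field_simp
    ring_nf
    rw [Complex.I_sq, show (I : ℂ) ^ 3 = -I from by rw [pow_succ, Complex.I_sq]; ring]
    ring
  have hexp : Complex.exp (((Real.pi / 2 : ℝ) : ℂ) * I - Complex.log p) = I / p := by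
    rw [Complex.exp_sub, Complex.exp_log hp0]
    congr 1
    push_cast
    exact Complex.exp_pi_div_two_mul_I
  have harg : |Complex.arg p| < Real.pi / 2 := Complex.abs_arg_lt_pi_div_two_iff.mpr (Or.inl hpre)
  have hpp := Real.pi_pos
  rw [abs_lt] at harg
  have him : (((Real.pi / 2 : ℝ) : ℂ) * I - Complex.log p).im = Real.pi / 2 - Complex.arg p := by
    rw [Complex.sub_im, Complex.log_im, Complex.im_ofReal_mul, Complex.I_im, mul_one]
  have hlog : Complex.log (I / p) = ((Real.pi / 2 : ℝ) : ℂ) * I - Complex.log p := by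
    rw [← hexp, Complex.log_exp]
    · rw [him]; linarith [harg.2]
    · rw [him]; linarith [harg.1]
  unfold Complex.arctan
  rw [hq, hlog, ← hp]
  push_cast
  have hI2 := Complex.I_sq
  linear_combination (-(Real.pi : ℂ) / 4) * hI2

theorem selfdual_deriv {z : ℂ} (hz : ‖z‖ < 1) (h : 0 < z.re) :
    1 / (1 + z) + psi1 ((1 - z) / (1 + z)) * (-2 / (1 + z) ^ 2) - psi1 z = 0 := by
  have h1 := one_add_ne h
  have hz0 : z ≠ 0 := by
    intro h0
    rw [h0] at h
    simp at h
  have h1z : (1 : ℂ) - z ≠ 0 := by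
    intro h0
    have : z = 1 := by linear_combination -h0
    rw [this] at hz
    simp at hz
  have hw := closed (norm_w_lt h)
  have hc := closed hz
  rw [arctan_w hz h] at hw
  set A : ℂ := Complex.arctan z
  set P : ℂ := psi1 z
  set Q : ℂ := psi1 ((1 - z) / (1 + z))
  set c : ℂ := ((2 / Real.pi : ℝ) : ℂ) with hcdef
  set q : ℂ := ((Real.pi / 4 : ℝ) : ℂ) with hqdef
  have hcq : c * q = 1 / 2 := by
    have hpi : (Real.pi : ℂ) ≠ 0 := by exact_mod_cast Real.pi_ne_zero
    rw [hcdef, hqdef]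
    push_cast
    field_simp
    norm_num
  clear_value A P Q c q
  have hw2 : 4 * z * (1 - z) * Q = (1 + z) * (c * (2 * (1 + z ^ 2) * (q - A)) - (1 - z) ^ 2) := by
    have e : (1 - z) / (1 + z) * (1 - ((1 - z) / (1 + z)) ^ 2) * Q
        = 4 * z * (1 - z) * Q / (1 + z) ^ 3 := by
      field_simp
      ring
    have e2 : c * ((1 + ((1 - z) / (1 + z)) ^ 2) * (q - A)) - ((1 - z) / (1 + z)) ^ 2
        = (c * (2 * (1 + z ^ 2) * (q - A)) - (1 - z) ^ 2) / (1 + z) ^ 2 := by
      field_simp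
      ring
    rw [e, e2, div_eq_div_iff (pow_ne_zero _ h1) (pow_ne_zero _ h1)] at hw
    have h3 : (1 + z) ^ 2 ≠ 0 := pow_ne_zero _ h1
    apply mul_left_cancel₀ h3
    linear_combination hw
  have hne : 2 * z * (1 - z) * (1 + z) ^ 2 ≠ 0 :=
    mul_ne_zero (mul_ne_zero (mul_ne_zero two_ne_zero hz0) h1z) (pow_ne_zero _ h1)
  have key : 2 * z * (1 - z) * (1 + z) ^ 2
      * (1 / (1 + z) + Q * (-2 / (1 + z) ^ 2) - P) = 0 := by
    have e : 2 * z * (1 - z) * (1 + z) ^ 2 * (1 / (1 + z) + Q * (-2 / (1 + z) ^ 2) - P)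
        = 2 * z * (1 - z) * (1 + z) - 4 * z * (1 - z) * Q
          - 2 * (1 + z) * (z * (1 - z ^ 2) * P) := by
      field_simp
      ring
    rw [e, hw2, hc]
    linear_combination (-2 * (1 + z) * (1 + z ^ 2)) * hcq
  rcases mul_eq_zero.mp key with h4 | h4
  · exact absurd h4 hne
  · exact h4

theorem selfdual {z : ℂ} (hz : ‖z‖ < 1) (h : 0 < z.re) :
    (1 + z) * Es ((1 - z) / (1 + z)) = ((Real.sqrt 2 : ℝ) : ℂ) * Es z := by
  set U : Set ℂ := Metric.ball 0 1 ∩ {z | 0 < z.re} with hU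
  set f : ℂ → ℂ := fun z => Complex.log (1 + z) + Psi ((1 - z) / (1 + z)) - Psi z with hf
  have hUo : IsOpen U := Metric.isOpen_ball.inter (isOpen_lt continuous_const Complex.continuous_re)
  have hUc : Convex ℝ U := (convex_ball 0 1).inter (convex_halfSpace_re_gt 0)
  have hd : ∀ x ∈ U, HasDerivAt f 0 x := by
    intro x hx
    have hx1 : ‖x‖ < 1 := by simpa using hx.1
    have hx2 : 0 < x.re := hx.2
    have hlog : HasDerivAt (fun u : ℂ => Complex.log (1 + u)) (1 / (1 + x)) x := by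
      have h2 : (1 + x) ∈ Complex.slitPlane := by
        left
        rw [Complex.add_re, Complex.one_re]
        linarith
      have h3 := ((hasDerivAt_id x).const_add 1).clog h2
      simpa using h3
    have h4 := (hasDerivAt_Psi (norm_w_lt hx2)).comp x (hasDerivAt_w (one_add_ne hx2))
    have h5 := (hlog.add h4).sub (hasDerivAt_Psi hx1)
    refine h5.congr_deriv ?_
    exact selfdual_deriv hx1 hx2
  set z0 : ℂ := ((Real.sqrt 2 - 1 : ℝ) : ℂ) with hz0
  have h2 : Real.sqrt 2 * Real.sqrt 2 = 2 := Real.mul_self_sqrt (by norm_num)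
  have h2a : 1 < Real.sqrt 2 := by
    rw [Real.lt_sqrt (by norm_num)]
    norm_num
  have h2b : Real.sqrt 2 < 2 := by
    rw [Real.sqrt_lt' (by norm_num)]
    norm_num
  have hz0U : z0 ∈ U := by
    constructor
    · simp only [Metric.mem_ball, dist_zero_right]
      rw [hz0]
      exact norm_ofReal_lt (by linarith) (by linarith)
    · show 0 < z0.re
      rw [hz0, Complex.ofReal_re]
      linarith
  have hzU : z ∈ U := ⟨by simpa using hz, h⟩
  have hconst : f z = f z0 := by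
    apply hUo.is_const_of_deriv_eq_zero hUc.isPreconnected
      (fun x hx => (hd x hx).differentiableAt.differentiableWithinAt)
      (fun x hx => (hd x hx).deriv) hzU hz0U
  have hw0 : (1 - z0) / (1 + z0) = z0 := by
    rw [div_eq_iff]
    · rw [hz0]
      have : ((Real.sqrt 2 : ℝ) : ℂ) * ((Real.sqrt 2 : ℝ) : ℂ) = 2 := by exact_mod_cast h2
      push_cast
      linear_combination (-1 : ℂ) * this
    · rw [hz0]
      push_cast
      intro h0
      have : ((Real.sqrt 2 : ℝ) : ℂ) = 0 := by linear_combination h0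
      have h3 : Real.sqrt 2 = 0 := by exact_mod_cast this
      linarith
  have hf0 : Complex.exp (f z0) = ((Real.sqrt 2 : ℝ) : ℂ) := by
    rw [hf]
    simp only []
    rw [hw0, add_sub_cancel_right, Complex.exp_log]
    · rw [hz0]
      push_cast
      ring
    · rw [hz0]
      push_cast
      intro h0
      have : ((Real.sqrt 2 : ℝ) : ℂ) = 0 := by linear_combination h0
      have h3 : Real.sqrt 2 = 0 := by exact_mod_cast this
      linarith
  have hfz : Complex.exp (f z) = (1 + z) * Es ((1 - z) / (1 + z)) / Es z := by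
    rw [hf]
    simp only []
    rw [Complex.exp_sub, Complex.exp_add, Complex.exp_log (one_add_ne h)]
    rfl
  rw [hconst, hf0] at hfz
  rw [eq_div_iff (Es_ne_zero z)] at hfz
  exact hfz.symm

theorem gr_nonneg {r : ℝ} (h0 : 0 ≤ r) (h1 : r < 1) : 0 ≤ gr r := by
  have hg0 : gr 0 = 0 := by simp [gr]
  rw [← hg0]
  exact gr_strictMonoOn.monotoneOn ⟨le_rfl, by linarith⟩ ⟨h0, h1⟩ h0

theorem psi1_re_nonneg {r : ℝ} (h0 : 0 ≤ r) (h1 : r < 1) : 0 ≤ (psi1 (r : ℂ)).re := by
  rcases h0.eq_or_lt with rfl | h0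
  · rw [Complex.ofReal_zero, psi1_zero, Complex.ofReal_re]
    positivity
  · have h := gr_nonneg h0.le h1
    unfold gr at h
    exact nonneg_of_mul_nonneg_right h h0

theorem hasDerivAt_Psi_real {r : ℝ} (h : |r| < 1) :
    HasDerivAt (fun r : ℝ => (Psi (r : ℂ)).re) (psi1 (r : ℂ)).re r := by
  have hz : ‖(r : ℂ)‖ < 1 := by rw [Complex.norm_real, Real.norm_eq_abs]; exact h
  have h4 : HasDerivAt (fun r : ℝ => Psi (r : ℂ)) (psi1 (r : ℂ) * 1) r :=
    HasDerivAt.comp (𝕜' := ℂ) r (hasDerivAt_Psi hz) (HasDerivAt.ofReal_comp (hasDerivAt_id r))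
  have h5 := (Complex.reCLM.hasFDerivAt (x := Psi (r : ℂ))).comp_hasDerivAt r h4
  refine h5.congr_deriv ?_
  simp

theorem Psi_re_mono {r s : ℝ} (h0 : 0 ≤ r) (hrs : r ≤ s) (h1 : s < 1) :
    (Psi (r : ℂ)).re ≤ (Psi (s : ℂ)).re := by
  have hd : ∀ t ∈ Set.Icc r s, HasDerivAt (fun r : ℝ => (Psi (r : ℂ)).re)
      (psi1 (t : ℂ)).re t := fun t ht =>
    hasDerivAt_Psi_real (by rw [abs_of_nonneg (h0.trans ht.1)]; exact lt_of_le_of_lt ht.2 h1)
  have hm : MonotoneOn (fun r : ℝ => (Psi (r : ℂ)).re) (Set.Icc r s) := by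
    apply monotoneOn_of_deriv_nonneg (convex_Icc r s)
    · exact fun t ht => (hd t ht).continuousAt.continuousWithinAt
    · exact fun t ht => (hd t (interior_subset ht)).differentiableAt.differentiableWithinAt
    · intro t ht
      have ht' := interior_subset ht
      rw [(hd t ht').deriv]
      exact psi1_re_nonneg (h0.trans ht'.1) (lt_of_le_of_lt ht'.2 h1)
  exact hm ⟨le_rfl, hrs⟩ ⟨hrs, le_rfl⟩ hrs

theorem norm_Es_mono {r s : ℝ} (h0 : 0 ≤ r) (hrs : r ≤ s) (h1 : s < 1) :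
    ‖Es (r : ℂ)‖ ≤ ‖Es (s : ℂ)‖ := by
  rw [norm_Es, norm_Es, Real.exp_le_exp]
  exact Psi_re_mono h0 hrs h1

theorem norm_Es_real_le {r : ℝ} (h0 : 0 ≤ r) (h1 : r < 1) : ‖Es (r : ℂ)‖ ≤ Real.sqrt 2 := by
  have hc : ContinuousAt (fun t : ℝ => Real.sqrt 2 * ‖Es (t : ℂ)‖ / (1 + t)) 0 := by
    have h2 : ContinuousAt Es (((0 : ℝ) : ℂ)) := by
      rw [Complex.ofReal_zero]
      exact (hasDerivAt_Es (z := 0) (by simp)).continuousAt
    have h3 : ContinuousAt (fun t : ℝ => Es (t : ℂ)) 0 :=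
      ContinuousAt.comp (g := Es) (f := fun t : ℝ => (t : ℂ)) h2
        Complex.continuous_ofReal.continuousAt
    apply ContinuousAt.div (continuousAt_const.mul h3.norm) (by fun_prop)
    norm_num
  have hv : Real.sqrt 2 * ‖Es ((0 : ℝ) : ℂ)‖ / (1 + 0) = Real.sqrt 2 := by
    rw [Complex.ofReal_zero, Es_zero]
    simp
  have ht : Filter.Tendsto (fun t : ℝ => Real.sqrt 2 * ‖Es (t : ℂ)‖ / (1 + t))
      (nhdsWithin 0 (Set.Ioi 0)) (nhds (Real.sqrt 2)) := by
    have := hc.tendsto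
    rw [hv] at this
    exact this.mono_left nhdsWithin_le_nhds
  refine ge_of_tendsto ht ?_
  have hpos : 0 < (1 - r) / (1 + r) := by
    apply div_pos <;> linarith
  have hm : Set.Ioo (0 : ℝ) ((1 - r) / (1 + r)) ∈ nhdsWithin (0 : ℝ) (Set.Ioi 0) :=
    Ioo_mem_nhdsGT hpos
  filter_upwards [hm] with t ht'
  have ht0 : 0 < t := ht'.1
  have ht1 : t * (1 + r) < 1 - r := by
    have := ht'.2
    rwa [lt_div_iff₀ (by linarith)] at this
  have ht2 : t < 1 := by nlinarith
  have hsd := selfdual (z := (t : ℂ)) (norm_ofReal_lt ht0.le ht2) (by simpa using ht0)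
  have hw : (1 - (t : ℂ)) / (1 + (t : ℂ)) = (((1 - t) / (1 + t) : ℝ) : ℂ) := by push_cast; ring
  rw [hw] at hsd
  have hn := congrArg norm hsd
  rw [norm_mul, norm_mul, Complex.norm_real, Real.norm_eq_abs, abs_of_nonneg (Real.sqrt_nonneg 2)]
    at hn
  have h1t : ‖(1 : ℂ) + (t : ℂ)‖ = 1 + t := by
    rw [show (1 : ℂ) + (t : ℂ) = ((1 + t : ℝ) : ℂ) from by push_cast; ring, Complex.norm_real,
      Real.norm_eq_abs, abs_of_pos (by linarith)]
  rw [h1t] at hn
  rw [le_div_iff₀ (by linarith), ← hn, mul_comm]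
  apply mul_le_mul_of_nonneg_left _ (by linarith)
  apply norm_Es_mono h0
  · rw [le_div_iff₀ (by linarith)]
    nlinarith
  · rw [div_lt_one (by linarith)]
    linarith

theorem norm_Es_le {z : ℂ} (hz : ‖z‖ < 1) : ‖Es z‖ ≤ Real.sqrt 2 := by
  have h := mono_angle (z := z) (w := (‖z‖ : ℂ)) hz (by simp)
    (by rw [Complex.ofReal_re]; exact Complex.re_le_norm z)
  exact h.trans (norm_Es_real_le (norm_nonneg z) hz)

end Pool.Agent.Lib.MP_0430e4_lc.BY
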