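import Pool.Agent.Lib.MP_0430e4_lc.BY.PwC

/-!
Distance enumerator of a code, first part of `BY.Four` (helper46), split off.
-/

open Finset
open scoped ComplexConjugate

namespace Pool.Agent.Lib.MP_0430e4_lc.BY.Four

variable {n : ℕ}

/-- number of ordered pairs of code words at distance `w` -/
def nP (C : Finset (Wd n)) (w : ℕ) : ℕ := ((C ×ˢ C).filter (fun p => wt (p.1 - p.2) = w)).card

/-- the distance enumerator `(1/|C|) ∑ z^(wt(x-y))` -/
noncomputable def Wz (C : Finset (Wd n)) (z : ℂ) : ℂ :=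
  (∑ x ∈ C, ∑ y ∈ C, z ^ wt (x - y)) / (C.card : ℂ)

/-- the dual enumerator `∑_u ((∑_{x∈C} (-1)^(x·u))^2 / |C|^2) z^(wt u)` -/
noncomputable def Bz (C : Finset (Wd n)) (z : ℂ) : ℂ :=
  ∑ u : Wd n, (((∑ x ∈ C, e x u) ^ 2 / (C.card : ℝ) ^ 2 : ℝ) : ℂ) * z ^ wt u

theorem wt_le (x : Wd n) : wt x ≤ n := by
  unfold wt
  calc hammingNorm x ≤ Fintype.card (Fin n) := hammingNorm_le_card_fintype
    _ = n := Fintype.card_fin n

theorem sub_eq_add_wt (x y : Wd n) : wt (x - y) = wt (x + y) := by rw [sub_eq_add']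

/-- product over coordinates -/
theorem prod_wt (v : Wd n) (a b : ℂ) : ∏ i, (if v i = 0 then a else b) = a ^ (n - wt v) * b ^ wt v := by
  rw [Finset.prod_ite, Finset.prod_const, Finset.prod_const]
  have h1 : (univ.filter (fun i => ¬ v i = 0)).card = wt v := rfl
  have h2 : (univ.filter (fun i => v i = 0)).card = n - wt v := by
    have h3 := Finset.card_filter_add_card_filter_not (s := (univ : Finset (Fin n))) (fun i => v i = 0)
    rw [h1, Finset.card_univ, Fintype.card_fin] at h3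
    omega
  rw [h1, h2]

theorem sum_words (f : Fin n → ZMod 2 → ℂ) : ∑ u : Wd n, ∏ i, f i (u i) = ∏ i, (f i 0 + f i 1) := by
  rw [← Fintype.piFinset_univ, ← Finset.prod_univ_sum]
  apply Finset.prod_congr rfl
  intro i _
  have : (univ : Finset (ZMod 2)) = {0, 1} := by decide
  rw [this, Finset.sum_pair (by decide)]

/-- `∑_u (-1)^(v·u) a^(n-wt u) b^(wt u) = (a+b)^(n-wt v) (a-b)^(wt v)` -/
theorem expand (v : Wd n) (a b : ℂ) :
    ∑ u : Wd n, (e v u : ℂ) * (a ^ (n - wt u) * b ^ wt u) = (a + b) ^ (n - wt v) * (a - b) ^ wt v := by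
  have h1 : ∀ u : Wd n, (e v u : ℂ) * (a ^ (n - wt u) * b ^ wt u) =
      ∏ i, ((sg (v i * u i) : ℂ) * (if u i = 0 then a else b)) := by
    intro u
    rw [Finset.prod_mul_distrib, prod_wt]
    unfold e dotProduct
    rw [sg_sum, Complex.ofReal_prod]
  rw [Finset.sum_congr rfl fun u _ => h1 u,
    sum_words (fun i t => (sg (v i * t) : ℂ) * (if t = 0 then a else b)), ← prod_wt v]
  apply Finset.prod_congr rfl
  intro i _
  rcases z01 (v i) with h | h <;> simp [h, sg, sub_eq_add_neg]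

/-- **MacWilliams** -/
theorem Bz_eq (C : Finset (Wd n)) (z : ℂ) :
    Bz C z = (∑ x ∈ C, ∑ y ∈ C, (1 + z) ^ (n - wt (x - y)) * (1 - z) ^ wt (x - y)) / (C.card : ℂ) ^ 2 := by
  have h1 : ∀ x y : Wd n, (1 + z) ^ (n - wt (x - y)) * (1 - z) ^ wt (x - y) =
      ∑ u : Wd n, ((e x u * e y u : ℝ) : ℂ) * z ^ wt u := by
    intro x y
    rw [← expand (x - y) 1 z]
    apply Finset.sum_congr rfl
    intro u _
    rw [sub_eq_add', e_add_left, one_pow, one_mul]
  have h2 : ∑ x ∈ C, ∑ y ∈ C, (1 + z) ^ (n - wt (x - y)) * (1 - z) ^ wt (x - y) =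
      ∑ u : Wd n, (((∑ x ∈ C, e x u) ^ 2 : ℝ) : ℂ) * z ^ wt u := by
    rw [Finset.sum_congr rfl fun x _ => Finset.sum_congr rfl fun y _ => h1 x y]
    rw [Finset.sum_congr rfl fun x _ => Finset.sum_comm, Finset.sum_comm]
    apply Finset.sum_congr rfl
    intro u _
    rw [sq, Finset.sum_mul_sum, Complex.ofReal_sum, Finset.sum_mul]
    apply Finset.sum_congr rfl
    intro x _
    rw [Complex.ofReal_sum, Finset.sum_mul]
  rw [h2]
  unfold Bz
  rw [Finset.sum_div]
  apply Finset.sum_congr rfl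
  intro u _
  push_cast
  ring

/-- MacWilliams in the other direction -/
theorem Wz_eq_dual (C : Finset (Wd n)) (hC : C.Nonempty) {z : ℂ} (hz : 1 + z ≠ 0) :
    Wz C z = (C.card : ℂ) / 2 ^ n * (1 + z) ^ n * Bz C ((1 - z) / (1 + z)) := by
  have hc : (C.card : ℂ) ≠ 0 := by
    have := hC.card_pos
    exact_mod_cast this.ne'
  rw [Bz_eq]
  have h1 : ∀ x y : Wd n, (1 + (1 - z) / (1 + z)) ^ (n - wt (x - y)) *
      (1 - (1 - z) / (1 + z)) ^ wt (x - y) = 2 ^ n / (1 + z) ^ n * z ^ wt (x - y) := by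
    intro x y
    have h2 : 1 + (1 - z) / (1 + z) = 2 / (1 + z) := by field_simp; ring
    have h3 : 1 - (1 - z) / (1 + z) = 2 / (1 + z) * z := by field_simp; ring
    have h4 : (n - wt (x - y)) + wt (x - y) = n := Nat.sub_add_cancel (wt_le _)
    rw [h2, h3, mul_pow, ← mul_assoc, ← pow_add, h4, div_pow]
  rw [Finset.sum_congr rfl fun x _ => Finset.sum_congr rfl fun y _ => h1 x y]
  simp only [← Finset.mul_sum]
  unfold Wz
  have h5 : (1 + z) ^ n ≠ 0 := pow_ne_zero _ hz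
  have h6 : (2 : ℂ) ^ n ≠ 0 := pow_ne_zero _ two_ne_zero
  field_simp

theorem nP_sum {M : Type*} [AddCommMonoid M] (C : Finset (Wd n)) (f : ℕ → M) :
    ∑ x ∈ C, ∑ y ∈ C, f (wt (x - y)) = ∑ w ∈ range (n + 1), nP C w • f w := by
  rw [← Finset.sum_product' C C (fun x y => f (wt (x - y)))]
  rw [← Finset.sum_fiberwise_of_maps_to (s := C ×ˢ C) (t := range (n + 1))
    (g := fun p => wt (p.1 - p.2)) (fun p _ => Finset.mem_range.2 (Nat.lt_succ_of_le (wt_le _)))]
  apply Finset.sum_congr rfl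
  intro w _
  rw [Finset.sum_congr rfl (g := fun _ => f w)]
  · rw [Finset.sum_const]; rfl
  · intro p hp
    rw [(Finset.mem_filter.mp hp).2]

theorem nP_total (C : Finset (Wd n)) : ∑ w ∈ range (n + 1), nP C w = C.card ^ 2 := by
  have h := nP_sum C (fun _ => (1 : ℕ))
  simp only [smul_eq_mul, mul_one, Finset.sum_const] at h
  rw [← h, sq]

theorem nP_zero (C : Finset (Wd n)) : nP C 0 = C.card := by
  unfold nP
  rw [← Finset.card_image_of_injective C (f := fun x => (x, x)) (fun a b h => (Prod.ext_iff.mp h).1)]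
  congr 1
  ext ⟨x, y⟩
  simp only [Finset.mem_filter, Finset.mem_product, Finset.mem_image, Prod.mk.injEq]
  constructor
  · rintro ⟨⟨hx, hy⟩, h⟩
    have h2 : x - y = 0 := hammingNorm_eq_zero.mp h
    exact ⟨x, hx, rfl, sub_eq_zero.mp h2⟩
  · rintro ⟨a, ha, rfl, rfl⟩
    refine ⟨⟨ha, ha⟩, ?_⟩
    rw [sub_self]; exact hammingNorm_zero

theorem nP_small {d : ℕ} {C : Finset (Wd n)} (hC : IsCode d C) {w : ℕ} (h0 : w ≠ 0) (hw : w < d) :
    nP C w = 0 := by
  unfold nP
  rw [Finset.card_eq_zero, Finset.filter_eq_empty_iff]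
  rintro ⟨x, y⟩ hp h
  rw [Finset.mem_product] at hp
  have hxy : x ≠ y := by
    rintro rfl
    apply h0
    rw [← h]
    simp only [sub_self]
    exact hammingNorm_zero
  have := hC x hp.1 y hp.2 hxy
  simp only at h
  omega


/-! ### The dual enumerator on the real axis -/

end Pool.Agent.Lib.MP_0430e4_lc.BY.Four
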