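import Pool.Agent.Lib.MP_0430e4_lc.BY.Struct
import Pool.Agent.Lib.MP_0430e4_lc.BY.FourA

/-!
Block C of project BEYOND (MP_0430e4_lc), helper46: codes with all distances divisible by four.
Distance enumerator `Wz`, dual enumerator `Bz`, MacWilliams identity, the bound of the dual
enumerator on the real axis, and the deduction of (III) and (I) from Theorem M.
-/

open Finset
open scoped ComplexConjugate

namespace Pool.Agent.Lib.MP_0430e4_lc.BY.Four

variable {n : ℕ}

/-- real form of the dual enumerator -/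
noncomputable def Br (C : Finset (Wd n)) (t : ℝ) : ℝ :=
  (∑ x ∈ C, ∑ y ∈ C, (1 + t) ^ (n - wt (x - y)) * (1 - t) ^ wt (x - y)) / (C.card : ℝ) ^ 2

theorem Bz_ofReal (C : Finset (Wd n)) (t : ℝ) : Bz C (t : ℂ) = (Br C t : ℂ) := by
  rw [Bz_eq]
  unfold Br
  push_cast
  rfl

theorem norm_Bz_le (C : Finset (Wd n)) (z : ℂ) : ‖Bz C z‖ ≤ Br C ‖z‖ := by
  have h1 : Br C ‖z‖ = ∑ u : Wd n, ((∑ x ∈ C, e x u) ^ 2 / (C.card : ℝ) ^ 2) * ‖z‖ ^ wt u := by
    have h2 : ((Br C ‖z‖ : ℝ) : ℂ) =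
        ((∑ u : Wd n, ((∑ x ∈ C, e x u) ^ 2 / (C.card : ℝ) ^ 2) * ‖z‖ ^ wt u : ℝ) : ℂ) := by
      rw [← Bz_ofReal]
      unfold Bz
      push_cast
      rfl
    exact_mod_cast h2
  rw [h1]
  unfold Bz
  refine (norm_sum_le _ _).trans (Finset.sum_le_sum fun u _ => ?_)
  rw [norm_mul, norm_pow, Complex.norm_real, Real.norm_eq_abs, abs_of_nonneg (by positivity)]

theorem Br_eq (C : Finset (Wd n)) (t : ℝ) :
    Br C t = (∑ w ∈ range (n + 1), (nP C w : ℝ) * ((1 + t) ^ (n - w) * (1 - t) ^ w)) /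
      (C.card : ℝ) ^ 2 := by
  unfold Br
  rw [nP_sum C (fun w => (1 + t) ^ (n - w) * (1 - t) ^ w)]
  simp only [nsmul_eq_mul]

/-- `B(t) ≤ (1+t)^n/|C| + K 2^n/|C| + 1` for `0 ≤ t ≤ 1` -/
theorem Br_le {d : ℕ} {C : Finset (Wd n)} (hC : IsCode d C) (hne : C.Nonempty) (hd : 2 * d ≤ n)
    {K : ℝ} (hK : 0 ≤ K)
    (hA : ∀ w, d ≤ w → w + d ≤ n → (nP C w : ℝ) ≤ C.card * K * (n.choose w : ℝ))
    {t : ℝ} (ht0 : 0 ≤ t) (ht1 : t ≤ 1) :
    Br C t ≤ (1 + t) ^ n / C.card + K * 2 ^ n / C.card + 1 := by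
  have hM : (0 : ℝ) < C.card := by exact_mod_cast hne.card_pos
  rw [Br_eq, div_le_iff₀ (by positivity)]
  set f : ℕ → ℝ := fun w => (1 + t) ^ (n - w) * (1 - t) ^ w with hf
  have hf0 : ∀ w, 0 ≤ f w := fun w => by
    rw [hf]; exact mul_nonneg (by positivity) (pow_nonneg (by linarith) _)
  -- termwise bound
  have key : ∀ w ∈ range (n + 1), (nP C w : ℝ) * f w ≤
      (if w = 0 then (C.card : ℝ) * (1 + t) ^ n else 0) + C.card * K * ((n.choose w : ℝ) * f w)
        + (nP C w : ℝ) := by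
    intro w hw
    have hwn : w ≤ n := Nat.lt_succ_iff.mp (Finset.mem_range.mp hw)
    have hn0 : (0 : ℝ) ≤ nP C w := Nat.cast_nonneg _
    have hmid : 0 ≤ C.card * K * ((n.choose w : ℝ) * f w) :=
      mul_nonneg (mul_nonneg hM.le hK) (mul_nonneg (Nat.cast_nonneg _) (hf0 w))
    by_cases h0 : w = 0
    · subst h0
      rw [if_pos rfl, nP_zero]
      have : f 0 = (1 + t) ^ n := by rw [hf]; simp
      rw [this] at hmid ⊢
      linarith
    · rw [if_neg h0, zero_add]
      by_cases h1 : w < d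
      · rw [nP_small hC h0 h1] at hn0 ⊢
        simp only [Nat.cast_zero, zero_mul, add_zero]
        exact hmid
      · push Not at h1
        by_cases h2 : w + d ≤ n
        · have h3 := mul_le_mul_of_nonneg_right (hA w h1 h2) (hf0 w)
          have h4 : (C.card : ℝ) * K * (n.choose w : ℝ) * f w = C.card * K * ((n.choose w : ℝ) * f w) := by
            ring
          rw [h4] at h3
          linarith
        · push Not at h2
          have h3 : f w ≤ 1 := by
            rw [hf]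
            simp only
            have h4 : n - w ≤ w := by omega
            calc (1 + t) ^ (n - w) * (1 - t) ^ w
                = ((1 + t) * (1 - t)) ^ (n - w) * (1 - t) ^ (w - (n - w)) := by
                  rw [mul_pow, mul_assoc, ← pow_add]
                  congr 2; omega
              _ ≤ 1 * 1 := by
                  apply mul_le_mul
                  · apply pow_le_one₀
                    · exact mul_nonneg (by linarith) (by linarith)
                    · nlinarith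
                  · exact pow_le_one₀ (by linarith) (by linarith)
                  · exact pow_nonneg (by linarith) _
                  · norm_num
              _ = 1 := one_mul 1
          have h5 : (nP C w : ℝ) * f w ≤ nP C w * 1 := mul_le_mul_of_nonneg_left h3 hn0
          linarith
  have hs1 : ∑ w ∈ range (n + 1), (n.choose w : ℝ) * f w = 2 ^ n := by
    have h := add_pow (1 - t) (1 + t) n
    have h2 : (1 - t) + (1 + t) = 2 := by ring
    rw [h2] at h
    rw [h]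
    apply Finset.sum_congr rfl
    intro w _
    rw [hf]; ring
  have hs2 : ∑ w ∈ range (n + 1), (nP C w : ℝ) = (C.card : ℝ) ^ 2 := by
    have := nP_total C
    exact_mod_cast this
  calc ∑ w ∈ range (n + 1), (nP C w : ℝ) * f w
      ≤ ∑ w ∈ range (n + 1), ((if w = 0 then (C.card : ℝ) * (1 + t) ^ n else 0) +
          C.card * K * ((n.choose w : ℝ) * f w) + (nP C w : ℝ)) := Finset.sum_le_sum key
    _ = C.card * (1 + t) ^ n + C.card * K * 2 ^ n + (C.card : ℝ) ^ 2 := by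
        rw [Finset.sum_add_distrib, Finset.sum_add_distrib, hs2, ← Finset.mul_sum, hs1,
          Finset.sum_ite_eq' (range (n + 1)) 0 (fun _ => (C.card : ℝ) * (1 + t) ^ n),
          if_pos (Finset.mem_range.2 (Nat.succ_pos n))]
    _ = ((1 + t) ^ n / C.card + K * 2 ^ n / C.card + 1) * (C.card : ℝ) ^ 2 := by
        field_simp

/-! ### Rotation -/

theorem Wz_rot {C : Finset (Wd n)} (h4 : ∀ x ∈ C, ∀ y ∈ C, 4 ∣ wt (x - y)) (z : ℂ) :
    Wz C z = Wz C (-(Complex.I * z)) := by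
  unfold Wz
  congr 1
  apply Finset.sum_congr rfl; intro x hx
  apply Finset.sum_congr rfl; intro y hy
  obtain ⟨k, hk⟩ := h4 x hx y hy
  rw [hk, pow_mul, pow_mul]
  congr 1
  have h1 : (-(Complex.I * z)) ^ 4 = Complex.I ^ 4 * z ^ 4 := by ring
  rw [h1, Complex.I_pow_four, one_mul]

/-- the enumerator near `i` when all distances are divisible by four -/
theorem Wz_near {C : Finset (Wd n)} (hC : C.Nonempty) (h4 : ∀ x ∈ C, ∀ y ∈ C, 4 ∣ wt (x - y)) {z : ℂ}
    (hz : 1 - Complex.I * z ≠ 0) :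
    ‖Wz C z‖ ≤ C.card * (‖1 - Complex.I * z‖ / 2) ^ n *
      Br C (‖1 + Complex.I * z‖ / ‖1 - Complex.I * z‖) := by
  have h1 : 1 + -(Complex.I * z) ≠ 0 := by rw [← sub_eq_add_neg]; exact hz
  rw [Wz_rot h4, Wz_eq_dual C hC h1, norm_mul, norm_mul, norm_div, norm_pow, norm_pow, ← sub_eq_add_neg]
  have h2 : ‖(C.card : ℂ)‖ = C.card := by simp
  have h3 : ‖(2 : ℂ)‖ = 2 := by simp
  rw [h2, h3, sub_neg_eq_add]
  have h5 : (C.card : ℝ) * (‖1 - Complex.I * z‖ / 2) ^ n =
      (C.card : ℝ) / 2 ^ n * ‖1 - Complex.I * z‖ ^ n := by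
    rw [div_pow]; ring
  rw [h5]
  apply mul_le_mul_of_nonneg_left _ (by positivity)
  refine (norm_Bz_le C _).trans (le_of_eq ?_)
  rw [norm_div]

/-! ### Theorem M and its two consequences -/

/-- Theorem M at the point `z1`: near-optimal codes have a large enumerator near `z1` -/
def MP (D : ℕ → ℕ) (z1 : ℂ) : Prop :=
  ∀ r : ℝ, 0 < r → ∀ Δ : ℝ, 0 < Δ → ∃ ε : ℝ, 0 < ε ∧ ∃ n0 : ℕ, ∀ n ≥ n0, ∀ C : Finset (Wd n),
    IsCode (D n) C → pw n (1 / 2 - ε) ≤ C.card →
      ∃ z : ℂ, ‖z - z1‖ ≤ r ∧ C.card * pw n (-Δ) * ((1 + ‖z‖) / 2) ^ n ≤ ‖Wz C z‖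

/-- two-sidedness on the code side (block H, statement (HA)) -/
def HA (D : ℕ → ℕ) : Prop :=
  ∀ ε : ℝ, 0 < ε → ∃ n0 : ℕ, ∀ n ≥ n0, ∀ C : Finset (Wd n), IsCode (D n) C →
    ∀ w, D n ≤ w → w + D n ≤ n → (nP C w : ℝ) ≤ C.card * pw n (-1 / 2 + ε) * (n.choose w : ℝ)

theorem geom1 {z z1 : ℂ} (h1 : ‖z1 - Complex.I‖ < 1 / 10) (hq : 0 < z1.re)
    (hz : ‖z - z1‖ ≤ z1.re / 2) :
    ‖1 - Complex.I * z‖ ≤ (1 + ‖z‖) * (1 - z1.re ^ 2 / 50) ∧
    ‖1 + Complex.I * z‖ / ‖1 - Complex.I * z‖ ≤ 2 / 5 ∧ 1 - Complex.I * z ≠ 0 := by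
  have hq1 : z1.re < 1 / 10 := by
    have h := Complex.abs_re_le_norm (z1 - Complex.I)
    simp only [Complex.sub_re, Complex.I_re, sub_zero] at h
    exact lt_of_le_of_lt (le_abs_self _) (lt_of_le_of_lt h h1)
  have hzI : ‖z - Complex.I‖ ≤ 3 / 20 := by
    calc ‖z - Complex.I‖ = ‖(z - z1) + (z1 - Complex.I)‖ := by congr 1; ring
      _ ≤ ‖z - z1‖ + ‖z1 - Complex.I‖ := norm_add_le _ _
      _ ≤ 3 / 20 := by linarith
  have hre : z1.re / 2 ≤ z.re := by
    have h := Complex.abs_re_le_norm (z - z1)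
    simp only [Complex.sub_re] at h
    have h2 := neg_abs_le (z.re - z1.re)
    linarith
  have him : 17 / 20 ≤ z.im := by
    have h := Complex.abs_im_le_norm (z - Complex.I)
    simp only [Complex.sub_im, Complex.I_im] at h
    have h2 := neg_abs_le (z.im - 1)
    linarith
  have hnz : ‖z‖ ≤ 23 / 20 := by
    calc ‖z‖ = ‖(z - Complex.I) + Complex.I‖ := by congr 1; ring
      _ ≤ ‖z - Complex.I‖ + ‖Complex.I‖ := norm_add_le _ _
      _ ≤ 23 / 20 := by rw [Complex.norm_I]; linarith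
  have hsq : ‖z‖ ^ 2 = z.re ^ 2 + z.im ^ 2 := by
    rw [← Complex.normSq_eq_norm_sq, Complex.normSq_apply]; ring
  have hS : ‖1 - Complex.I * z‖ ^ 2 = (1 + z.im) ^ 2 + z.re ^ 2 := by
    rw [← Complex.normSq_eq_norm_sq, Complex.normSq_apply]
    simp only [Complex.sub_re, Complex.one_re, Complex.mul_re, Complex.I_re, Complex.I_im,
      Complex.sub_im, Complex.one_im, Complex.mul_im]
    ring
  have hn0 := norm_nonneg z
  have him2 : z.im ≤ ‖z‖ := (le_abs_self _).trans (Complex.abs_im_le_norm z)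
  have hlow : (1 : ℝ) + 17 / 20 ≤ ‖1 - Complex.I * z‖ := by
    apply le_of_sq_le_sq _ (norm_nonneg _)
    rw [hS]; nlinarith [sq_nonneg z.re]
  refine ⟨?_, ?_, ?_⟩
  · apply le_of_sq_le_sq _ (mul_nonneg (by linarith) (by nlinarith))
    rw [hS]
    have h2 : z1.re ^ 2 / 4 ≤ (‖z‖ - z.im) * (‖z‖ + z.im) := by
      have : (‖z‖ - z.im) * (‖z‖ + z.im) = z.re ^ 2 := by linear_combination hsq
      rw [this]; nlinarith
    have h3 : z1.re ^ 2 / 10 ≤ ‖z‖ - z.im := by
      by_contra hcon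
      push Not at hcon
      nlinarith
    have h4 : (1 + z.im) ^ 2 + z.re ^ 2 = (1 + ‖z‖) ^ 2 - 2 * (‖z‖ - z.im) := by
      linear_combination -hsq
    rw [h4, mul_pow]
    have h5 : (1 + ‖z‖) ^ 2 ≤ 5 := by nlinarith
    nlinarith [sq_nonneg (z1.re ^ 2 / 50), sq_nonneg (1 + ‖z‖), mul_nonneg (sq_nonneg (1 + ‖z‖)) (sq_nonneg (z1.re ^ 2 / 50)), mul_le_mul_of_nonneg_right h5 (sq_nonneg z1.re)]
  · have hnum : ‖1 + Complex.I * z‖ = ‖z - Complex.I‖ := by
      have h6 : 1 + Complex.I * z = Complex.I * (z - Complex.I) := by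
        have := Complex.I_mul_I
        linear_combination this
      rw [h6, norm_mul, Complex.norm_I, one_mul]
    rw [hnum, div_le_iff₀ (by linarith)]
    linarith
  · intro h0
    rw [h0, norm_zero] at hlow
    linarith

/-- **(III)**: codes of distance `D n` with all distances divisible by four have rate `≤ 1/2 - ε`. -/
theorem hIII_of_good {D : ℕ → ℕ} (hD : ∃ n0, ∀ n ≥ n0, 2 * D n ≤ n) (hA : HA D)
    {z1 : ℂ} (h1 : ‖z1 - Complex.I‖ < 1 / 10) (hq : 0 < z1.re) (hM : MP D z1) :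
    ∃ ε : ℝ, 0 < ε ∧ ∃ n0 : ℕ, ∀ n ≥ n0, ∀ C : Finset (Wd n), IsCode (D n) C →
      (∀ x ∈ C, ∀ y ∈ C, 4 ∣ wt (x - y)) → (C.card : ℝ) ≤ pw n (1 / 2 - ε) := by
  set c : ℝ := z1.re ^ 2 / 50 with hc
  have hc0 : 0 < c := by positivity
  have hq1 : z1.re < 1 / 10 := by
    have h := Complex.abs_re_le_norm (z1 - Complex.I)
    simp only [Complex.sub_re, Complex.I_re, sub_zero] at h
    exact lt_of_le_of_lt (le_abs_self _) (lt_of_le_of_lt h h1)
  have hc1 : c < 1 := by rw [hc]; nlinarith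
  obtain ⟨εM, hεM, nM, hMn⟩ := hM (z1.re / 2) (by positivity) (c / 4) (by positivity)
  obtain ⟨nA, hAn⟩ := hA (c / 16) (by positivity)
  obtain ⟨nD, hDn⟩ := hD
  obtain ⟨nL, hLn⟩ := pw_large 4 (show (0 : ℝ) < c / 2 by positivity)
  set ε : ℝ := min εM (c / 16) with hε
  refine ⟨ε, lt_min hεM (by positivity), max nM (max nA (max nD nL)), ?_⟩
  intro n hn C hC h4
  have hn1 : nM ≤ n := (le_max_left _ _).trans hn
  have hn2 : nA ≤ n := (le_max_left _ _).trans ((le_max_right _ _).trans hn)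
  have hn3 : nD ≤ n := (le_max_left _ _).trans ((le_max_right _ _).trans ((le_max_right _ _).trans hn))
  have hn4 : nL ≤ n := (le_max_right _ _).trans ((le_max_right _ _).trans ((le_max_right _ _).trans hn))
  by_contra hcon
  push Not at hcon
  have hcard1 : pw n (1 / 2 - εM) ≤ C.card :=
    (pw_mono n (by have := min_le_left εM (c / 16); linarith)).trans hcon.le
  have hcard2 : pw n (1 / 2 - c / 16) ≤ C.card :=
    (pw_mono n (by have := min_le_right εM (c / 16); linarith)).trans hcon.le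
  have hCpos : (0 : ℝ) < C.card := lt_of_lt_of_le (pw_pos n _) hcard1
  have hCne : C.Nonempty := by rw [← Finset.card_pos]; exact_mod_cast hCpos
  obtain ⟨z, hz, hW⟩ := hMn n hn1 C hC hcard1
  obtain ⟨hg1, hg2, hg3⟩ := geom1 h1 hq hz
  have hup := Wz_near hCne h4 hg3
  set t : ℝ := ‖1 + Complex.I * z‖ / ‖1 - Complex.I * z‖ with ht
  have ht0 : 0 ≤ t := by rw [ht]; positivity
  have hB : Br C t ≤ 3 * pw n (c / 8) := by
    refine (Br_le hC hCne (hDn n hn3) (pw_pos n (-1 / 2 + c / 16)).le (hAn n hn2 C hC) ht0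
      (hg2.trans (by norm_num))).trans ?_
    have e1 : (1 + t) ^ n ≤ pw n (1 / 2) := by
      calc (1 + t) ^ n ≤ (7 / 5 : ℝ) ^ n := pow_le_pow_left₀ (by linarith) (by linarith) n
        _ ≤ ((2 : ℝ) ^ (1 / 2 : ℝ)) ^ n := by
            apply pow_le_pow_left₀ (by norm_num)
            rw [← Real.sqrt_eq_rpow]
            apply Real.le_sqrt_of_sq_le
            norm_num
        _ = pw n (1 / 2) := by
            unfold pw; rw [Real.rpow_mul (by norm_num), Real.rpow_natCast]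
    have e2 : (1 + t) ^ n / C.card ≤ pw n (c / 8) := by
      rw [div_le_iff₀ hCpos]
      calc (1 + t) ^ n ≤ pw n (1 / 2) := e1
        _ ≤ pw n (c / 8) * pw n (1 / 2 - c / 16) := by
            rw [← pw_add]; apply pw_mono; linarith
        _ ≤ pw n (c / 8) * C.card := mul_le_mul_of_nonneg_left hcard2 (pw_pos n _).le
    have e3 : pw n (-1 / 2 + c / 16) * 2 ^ n / C.card ≤ pw n (c / 8) := by
      rw [div_le_iff₀ hCpos]
      calc pw n (-1 / 2 + c / 16) * 2 ^ n = pw n (-1 / 2 + c / 16) * pw n 1 := by rw [pw_one]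
        _ = pw n (c / 8) * pw n (1 / 2 - c / 16) := by
            rw [← pw_add, ← pw_add]; congr 1; ring
        _ ≤ pw n (c / 8) * C.card := mul_le_mul_of_nonneg_left hcard2 (pw_pos n _).le
    have e4 : (1 : ℝ) ≤ pw n (c / 8) := by
      rw [← pw_zero n]; apply pw_mono; positivity
    linarith
  have hfac : (‖1 - Complex.I * z‖ / 2) ^ n ≤ ((1 + ‖z‖) / 2) ^ n * pw n (-c) := by
    have e5 : ‖1 - Complex.I * z‖ / 2 ≤ (1 + ‖z‖) / 2 * (2 : ℝ) ^ (-c) := by
      have e6 : 1 - c ≤ (2 : ℝ) ^ (-c) := by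
        rw [Real.rpow_def_of_pos (by norm_num)]
        have e7 : 1 - c ≤ Real.exp (-c) := by
          have := Real.add_one_le_exp (-c); linarith
        refine e7.trans (Real.exp_le_exp.2 ?_)
        have := Real.log_two_lt_d9
        nlinarith
      calc ‖1 - Complex.I * z‖ / 2 ≤ (1 + ‖z‖) * (1 - c) / 2 := by
            apply div_le_div_of_nonneg_right hg1 (by norm_num)
        _ = (1 + ‖z‖) / 2 * (1 - c) := by ring
        _ ≤ (1 + ‖z‖) / 2 * (2 : ℝ) ^ (-c) :=
            mul_le_mul_of_nonneg_left e6 (by have := norm_nonneg z; linarith)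
    calc (‖1 - Complex.I * z‖ / 2) ^ n ≤ ((1 + ‖z‖) / 2 * (2 : ℝ) ^ (-c)) ^ n :=
          pow_le_pow_left₀ (by positivity) e5 n
      _ = ((1 + ‖z‖) / 2) ^ n * pw n (-c) := by
          rw [mul_pow]
          congr 1
          unfold pw
          rw [Real.rpow_mul (by norm_num), Real.rpow_natCast]
  have hP : 0 < ((1 + ‖z‖) / 2) ^ n := by have := norm_nonneg z; positivity
  have hchain : C.card * pw n (-(c / 4)) * ((1 + ‖z‖) / 2) ^ n ≤
      C.card * (((1 + ‖z‖) / 2) ^ n * pw n (-c)) * (3 * pw n (c / 8)) := by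
    refine (hW.trans hup).trans ?_
    apply mul_le_mul _ hB _ _
    · exact mul_le_mul_of_nonneg_left hfac hCpos.le
    · have h := norm_nonneg (Bz C (t : ℂ))
      rw [Bz_ofReal] at h
      have h2 := norm_Bz_le C (t : ℂ)
      rw [Complex.norm_real, Real.norm_eq_abs, abs_of_nonneg ht0] at h2
      exact (norm_nonneg _).trans h2
    · exact mul_nonneg hCpos.le (mul_nonneg hP.le (pw_pos n _).le)
  have hfin : pw n (-(c / 4)) ≤ 3 * pw n (-c + c / 8) := by
    have e8 : C.card * (((1 + ‖z‖) / 2) ^ n * pw n (-c)) * (3 * pw n (c / 8)) =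
        (C.card * ((1 + ‖z‖) / 2) ^ n) * (3 * pw n (-c + c / 8)) := by
      rw [pw_add]; ring
    have e9 : C.card * pw n (-(c / 4)) * ((1 + ‖z‖) / 2) ^ n =
        (C.card * ((1 + ‖z‖) / 2) ^ n) * pw n (-(c / 4)) := by ring
    rw [e8, e9] at hchain
    exact le_of_mul_le_mul_left hchain (mul_pos hCpos hP)
  have h5 : pw n (-(c / 4)) = pw n (-c + c / 8) * pw n (5 * c / 8) := by
    rw [← pw_add]; congr 1; ring
  have h6 : (4 : ℝ) ≤ pw n (5 * c / 8) := (hLn n hn4).trans (pw_mono n (by linarith))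
  have h7 := pw_pos n (-c + c / 8)
  rw [h5] at hfin
  nlinarith

end Pool.Agent.Lib.MP_0430e4_lc.BY.Four
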