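import Pool.Agent.Lib.MP_0430e4_lc.BY.Assm

/-!
Project BEYOND (helper1): helper80's form of Theorem M gives hypothesis (M) of `rate_of`.
-/

open Finset Filter Topology

namespace Pool.Agent.Lib.MP_0430e4_lc.BY

theorem hM_of_thmM (D : ℕ → ℕ)
    (h : ∀ ρ : ℝ, 0 < ρ → ∃ ρ₀ : ℝ, 0 < ρ₀ ∧ ∀ Δ : ℝ, 0 < Δ → ∃ g : ℝ, 0 < g ∧ ∃ n₀ : ℕ,
      ∀ n ≥ n₀, ∀ C : Finset (Wd n), IsCode (D n) C →
      (∀ z : ℂ, ‖z - Complex.I‖ ≤ ρ → ρ₀ ≤ z.re →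
        ‖∑ x ∈ C, ∑ y ∈ C, z ^ wt (x + y)‖ ≤ C.card * pw n (-(1 / 2 + Δ)) * (1 + ‖z‖) ^ n) →
      (C.card : ℝ) ≤ pw n (1 / 2 - g)) :
    ∀ ρ : ℝ, 0 < ρ → ∀ τ : ℝ, 0 < τ → ∃ ε : ℝ, 0 < ε ∧ ∃ n0 : ℕ, ∀ n ≥ n0,
      ∀ C : Finset (Wd n), IsCode (D n) C → pw n (1 / 2 - ε) ≤ C.card →
        ∃ z : ℂ, ‖z - Complex.I‖ ≤ ρ ∧
          pw n (1 / 2 - τ) * C.card ≤ ‖∑ x ∈ C, ∑ y ∈ C, z ^ wt (x - y)‖ := by
  intro ρ' hρ' τ hτ
  set ρ : ℝ := min ρ' (min 1 (τ / 4)) with hρdef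
  have hρ : 0 < ρ := lt_min hρ' (lt_min one_pos (by positivity))
  have hρ1 : ρ ≤ ρ' := min_le_left _ _
  have hρ2 : ρ ≤ 1 := (min_le_right _ _).trans (min_le_left _ _)
  have hρ3 : ρ ≤ τ / 4 := (min_le_right _ _).trans (min_le_right _ _)
  obtain ⟨ρ₀, hρ₀, h1⟩ := h ρ hρ
  obtain ⟨g, hg, n₀, h2⟩ := h1 (τ / 4) (by positivity)
  refine ⟨g / 2, by positivity, max n₀ 1, fun n hn C hC hcard => ?_⟩
  have hn1 : 1 ≤ n := (le_max_right _ _).trans hn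
  have hlt : pw n (1 / 2 - g) < C.card := by
    refine lt_of_lt_of_le ?_ hcard
    unfold pw
    apply Real.rpow_lt_rpow_of_exponent_lt (by norm_num)
    apply mul_lt_mul_of_pos_right (by linarith)
    exact_mod_cast hn1
  have hCpos : (0 : ℝ) < C.card := lt_of_lt_of_le (pw_pos n _) hcard
  by_contra hcon
  push Not at hcon
  refine absurd (h2 n ((le_max_left _ _).trans hn) C hC ?_) (not_le.mpr hlt)
  intro z hz _
  have h3 := hcon z (hz.trans hρ1)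
  have h4 : ∑ x ∈ C, ∑ y ∈ C, z ^ wt (x + y) = ∑ x ∈ C, ∑ y ∈ C, z ^ wt (x - y) := by
    simp only [sub_eq_add']
  rw [h4]
  refine h3.le.trans ?_
  have h5 : 1 - ρ ≤ ‖z‖ := by
    have h6 : ‖Complex.I‖ - ‖z - Complex.I‖ ≤ ‖z‖ := by
      have := norm_sub_norm_le Complex.I (Complex.I - z)
      rw [norm_sub_rev Complex.I z, sub_sub_cancel] at this
      exact this
    rw [Complex.norm_I] at h6
    linarith
  have h6 : pw n (1 - 2 * ρ) ≤ (1 + ‖z‖) ^ n := by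
    have h7 : (2 : ℝ) ^ (1 - 2 * ρ) ≤ 1 + ‖z‖ := by
      refine le_trans ?_ (show 2 - ρ ≤ 1 + ‖z‖ by linarith)
      have h8 : (2 : ℝ) ^ (1 - 2 * ρ) = 2 * Real.exp (-(Real.log 2 * (2 * ρ))) := by
        rw [Real.rpow_sub (by norm_num), Real.rpow_one, Real.exp_neg,
          Real.rpow_def_of_pos (by norm_num)]
        ring
      rw [h8]
      have h9 : Real.exp (-(Real.log 2 * (2 * ρ))) ≤ Real.exp (-ρ) := by
        apply Real.exp_le_exp.mpr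
        have := Real.log_two_gt_d9
        nlinarith
      have h10 : Real.exp (-ρ) ≤ 1 - ρ / 2 := by
        rw [Real.exp_neg]
        have h11 : 1 + ρ ≤ Real.exp ρ := by rw [add_comm]; exact Real.add_one_le_exp ρ
        have h12 : (Real.exp ρ)⁻¹ ≤ (1 + ρ)⁻¹ := inv_anti₀ (by linarith) h11
        refine h12.trans ?_
        rw [inv_le_comm₀ (by linarith) (by linarith)]
        rw [inv_le_iff_one_le_mul₀ (by linarith)]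
        nlinarith
      linarith
    calc pw n (1 - 2 * ρ) = ((2 : ℝ) ^ (1 - 2 * ρ)) ^ n := by
          unfold pw; rw [Real.rpow_mul (by norm_num), Real.rpow_natCast]
      _ ≤ _ := pow_le_pow_left₀ (by positivity) h7 n
  calc pw n (1 / 2 - τ) * C.card = C.card * pw n (1 / 2 - τ) := by ring
    _ ≤ C.card * (pw n (-(1 / 2 + τ / 4)) * pw n (1 - 2 * ρ)) := by
        apply mul_le_mul_of_nonneg_left _ hCpos.le
        rw [← pw_add]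
        apply pw_mono
        linarith
    _ ≤ C.card * (pw n (-(1 / 2 + τ / 4)) * (1 + ‖z‖) ^ n) := by
        apply mul_le_mul_of_nonneg_left _ hCpos.le
        exact mul_le_mul_of_nonneg_left h6 (pw_pos n _).le
    _ = C.card * pw n (-(1 / 2 + τ / 4)) * (1 + ‖z‖) ^ n := by ring

/-- **BEYOND from Theorem M and (III)**, uniform form. -/
theorem beyond_of (h : ∀ ρ : ℝ, 0 < ρ → ∃ ρ₀ : ℝ, 0 < ρ₀ ∧ ∀ Δ : ℝ, 0 < Δ → ∃ g : ℝ, 0 < g ∧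
      ∃ n₀ : ℕ, ∀ n ≥ n₀, ∀ C : Finset (Wd n), IsCode ⌈(1 / 2 - 1 / Real.pi) * n⌉₊ C →
      (∀ z : ℂ, ‖z - Complex.I‖ ≤ ρ → ρ₀ ≤ z.re →
        ‖∑ x ∈ C, ∑ y ∈ C, z ^ wt (x + y)‖ ≤ C.card * pw n (-(1 / 2 + Δ)) * (1 + ‖z‖) ^ n) →
      (C.card : ℝ) ≤ pw n (1 / 2 - g))
    (hIII : ∃ ε : ℝ, 0 < ε ∧ ∃ n0 : ℕ, ∀ n ≥ n0, ∀ C : Finset (Wd n),
      IsCode ⌈(1 / 2 - 1 / Real.pi) * n⌉₊ C →
      (∀ x ∈ C, ∀ y ∈ C, 4 ∣ wt (x - y)) → (C.card : ℝ) ≤ pw n (1 / 2 - ε)) :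
    ∃ c : ℝ, 0 < c ∧ ∀ δ : ℝ, |δ - (1 / 2 - 1 / Real.pi)| < c → Rr δ ≤ Tensor.ell δ - c :=
  rate_near_uniform (rate_of (hM_of_thmM (fun n => ⌈(1 / 2 - 1 / Real.pi) * n⌉₊) h) hIII)

end Pool.Agent.Lib.MP_0430e4_lc.BY
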