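import Mathlib

/-!
# General lemmas for block P of project BEYOND (MP_0430e4_lc), helper30

* `beta_int`, `choose_mul_beta`: the Beta integral, `1 / C(n,w) = (n+1) ∫ t^w (1-t)^(n-w)`;
* `bin_le`: `C(n,w) t^w (1-t)^(n-w) ≤ exp (-n (w/n - t)^2 / 4)`;
* `Jw`: the part of the Beta integral in the window `|t - 1/2| ≤ ρ`;
* `coef_circle`: coefficients of a polynomial from its values on a circle, in log coordinates;
* `rect_shift`: shift of an arc in log coordinates.
-/

set_option autoImplicit false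

namespace Pool.Agent.Lib.MP_0430e4_lc.BY

open MeasureTheory Set Finset

theorem beta_int (m w : ℕ) :
    ∫ t in (0 : ℝ)..1, t ^ w * (1 - t) ^ m =
      (w.factorial * m.factorial : ℝ) / (w + m + 1).factorial := by
  induction m generalizing w with
  | zero =>
    simp only [pow_zero, mul_one, integral_pow, Nat.factorial_zero, Nat.cast_one, add_zero]
    rw [Nat.factorial_succ]
    have h1 : ((w.factorial : ℕ) : ℝ) ≠ 0 := by exact_mod_cast w.factorial_ne_zero
    have h2 : ((w : ℝ) + 1) ≠ 0 := by positivity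
    push_cast
    field_simp
    rw [one_pow, zero_pow (Nat.succ_ne_zero w), sub_zero]
  | succ m ih =>
    have h0 : ∀ t : ℝ, HasDerivAt (fun t : ℝ => t ^ (w + 1) * (1 - t) ^ (m + 1))
        ((w + 1) * (t ^ w * (1 - t) ^ (m + 1)) - (m + 1) * (t ^ (w + 1) * (1 - t) ^ m)) t := by
      intro t
      have h1 := hasDerivAt_pow (w + 1) t
      have h2 : HasDerivAt (fun t : ℝ => (1 - t) ^ (m + 1))
          ((m + 1 : ℕ) * (1 - t) ^ m * (0 - 1)) t :=
        ((hasDerivAt_const t (1 : ℝ)).sub (hasDerivAt_id t)).pow (m + 1)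
      refine (h1.mul h2).congr_deriv ?_
      push_cast
      ring
    have h1 := intervalIntegral.integral_eq_sub_of_hasDerivAt (a := (0 : ℝ)) (b := 1)
      (fun t _ => h0 t) (by apply Continuous.intervalIntegrable; fun_prop)
    rw [intervalIntegral.integral_sub (by apply Continuous.intervalIntegrable; fun_prop)
      (by apply Continuous.intervalIntegrable; fun_prop), intervalIntegral.integral_const_mul,
      intervalIntegral.integral_const_mul, ih] at h1
    have h2 : ((w : ℝ) + 1) ≠ 0 := by positivity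
    have h3 : (((w + 1 + m + 1).factorial : ℕ) : ℝ) ≠ 0 := by
      exact_mod_cast (w + 1 + m + 1).factorial_ne_zero
    have h4 : w + (m + 1) + 1 = w + 1 + m + 1 := by ring
    rw [h4]
    have h5 : ((w : ℝ) + 1) * (∫ t in (0 : ℝ)..1, t ^ w * (1 - t) ^ (m + 1)) =
        (m + 1) * (((w + 1).factorial * m.factorial : ℝ) / ((w + 1 + m + 1).factorial : ℝ)) := by
      have h6 : (1 : ℝ) ^ (w + 1) * (1 - 1) ^ (m + 1) - 0 ^ (w + 1) * (1 - 0) ^ (m + 1) = 0 := by
        simp
      exact sub_eq_zero.mp (h1.trans h6)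
    have h7 : ((w + 1).factorial : ℝ) = (w + 1) * w.factorial := by
      rw [Nat.factorial_succ]; push_cast; ring
    have h8 : ((m + 1).factorial : ℝ) = (m + 1) * m.factorial := by
      rw [Nat.factorial_succ]; push_cast; ring
    rw [h7] at h5
    rw [h8]
    apply mul_left_cancel₀ h2
    rw [h5]
    ring

theorem choose_mul_beta {n w : ℕ} (h : w ≤ n) :
    ((n : ℝ) + 1) * (n.choose w : ℝ) * ∫ t in (0 : ℝ)..1, t ^ w * (1 - t) ^ (n - w) = 1 := by
  rw [beta_int, Nat.cast_choose ℝ h, Nat.add_sub_cancel' h, Nat.factorial_succ]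
  have h1 : ((w.factorial : ℕ) : ℝ) ≠ 0 := by exact_mod_cast w.factorial_ne_zero
  have h2 : (((n - w).factorial : ℕ) : ℝ) ≠ 0 := by exact_mod_cast (n - w).factorial_ne_zero
  have h3 : ((n.factorial : ℕ) : ℝ) ≠ 0 := by exact_mod_cast n.factorial_ne_zero
  have h4 : ((n : ℝ) + 1) ≠ 0 := by positivity
  push_cast
  field_simp

/-- Chernoff bound for one term of the binomial distribution. -/
theorem bin_le {n w : ℕ} (hn : 1 ≤ n) (hw : w ≤ n) {t : ℝ} (h0 : 0 ≤ t) (h1 : t ≤ 1) :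
    (n.choose w : ℝ) * (t ^ w * (1 - t) ^ (n - w)) ≤
      Real.exp (-(n * ((w : ℝ) / n - t) ^ 2 / 4)) := by
  have hn0 : (0 : ℝ) < n := by exact_mod_cast hn
  set x : ℝ := (w : ℝ) / n with hx
  have hx0 : 0 ≤ x := by positivity
  have hx1 : x ≤ 1 := by rw [hx, div_le_one hn0]; exact_mod_cast hw
  have hwx : (w : ℝ) = n * x := by rw [hx]; field_simp
  set l : ℝ := (x - t) / 2 with hl
  have hl1 : |l| ≤ 1 := by
    rw [hl, abs_le]; constructor <;> linarith
  have e1 : Real.exp l ≤ 1 + l + l ^ 2 := by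
    have := Real.abs_exp_sub_one_sub_id_le hl1
    have h2 := (abs_le.mp this).2
    linarith
  have e2 : 1 - t + t * Real.exp l ≤ Real.exp (t * l + l ^ 2) := by
    have h3 : t * Real.exp l ≤ t * (1 + l + l ^ 2) := mul_le_mul_of_nonneg_left e1 h0
    have h4 : t * l ^ 2 ≤ l ^ 2 := by nlinarith [sq_nonneg l]
    have h5 := Real.add_one_le_exp (t * l + l ^ 2)
    nlinarith
  have e3 : (n.choose w : ℝ) * (t ^ w * (1 - t) ^ (n - w)) * Real.exp (l * w) ≤
      (1 - t + t * Real.exp l) ^ n := by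
    rw [add_comm (1 - t), add_pow]
    have h6 := Finset.single_le_sum (s := Finset.range (n + 1))
      (f := fun k => (t * Real.exp l) ^ k * (1 - t) ^ (n - k) * (n.choose k : ℝ))
      (fun k _ => by
        have : 0 ≤ 1 - t := by linarith
        positivity) (Finset.mem_range.mpr (Nat.lt_succ_of_le hw))
    refine le_trans (le_of_eq ?_) h6
    rw [mul_pow, ← Real.exp_nat_mul]
    have h7 : l * (w : ℝ) = (w : ℝ) * l := by ring
    rw [h7]; ring
  have e4 : (1 - t + t * Real.exp l) ^ n ≤ Real.exp (n * (t * l + l ^ 2)) := by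
    rw [Real.exp_nat_mul]
    refine pow_le_pow_left₀ ?_ e2 n
    have : 0 ≤ 1 - t := by linarith
    positivity
  have e5 : (n.choose w : ℝ) * (t ^ w * (1 - t) ^ (n - w)) ≤
      Real.exp (n * (t * l + l ^ 2)) * Real.exp (-(l * w)) := by
    rw [Real.exp_neg, ← div_eq_mul_inv, le_div_iff₀ (Real.exp_pos _)]
    exact e3.trans e4
  refine e5.trans ?_
  rw [← Real.exp_add]
  apply Real.exp_le_exp.mpr
  rw [hwx, hl]
  apply le_of_eq
  ring

/-- The part of the Beta integral in the window `|t - 1/2| ≤ ρ`. -/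
noncomputable def Jw (n w : ℕ) (ρ : ℝ) : ℝ :=
  ((n : ℝ) + 1) * (n.choose w : ℝ) * ∫ t in (1 / 2 - ρ)..(1 / 2 + ρ), t ^ w * (1 - t) ^ (n - w)

theorem ii_pow (n w : ℕ) (a b : ℝ) :
    IntervalIntegrable (fun t : ℝ => t ^ w * (1 - t) ^ (n - w)) volume a b := by
  apply Continuous.intervalIntegrable; fun_prop

theorem Jw_nonneg (n w : ℕ) {ρ : ℝ} (h0 : 0 ≤ ρ) (h1 : ρ ≤ 1 / 2) : 0 ≤ Jw n w ρ := by
  unfold Jw
  apply mul_nonneg (by positivity)
  apply intervalIntegral.integral_nonneg (by linarith)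
  intro t ht
  have h2 : 0 ≤ t := by linarith [ht.1]
  have h3 : 0 ≤ 1 - t := by linarith [ht.2]
  positivity

/-- the two tails -/
theorem one_sub_Jw {n w : ℕ} (hw : w ≤ n) (ρ : ℝ) :
    1 - Jw n w ρ = ((n : ℝ) + 1) * (n.choose w : ℝ) *
      ((∫ t in (0 : ℝ)..(1 / 2 - ρ), t ^ w * (1 - t) ^ (n - w)) +
        ∫ t in (1 / 2 + ρ)..(1 : ℝ), t ^ w * (1 - t) ^ (n - w)) := by
  have h := choose_mul_beta hw
  rw [← intervalIntegral.integral_add_adjacent_intervals (ii_pow n w 0 (1 / 2 - ρ))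
      (ii_pow n w (1 / 2 - ρ) 1),
    ← intervalIntegral.integral_add_adjacent_intervals (ii_pow n w (1 / 2 - ρ) (1 / 2 + ρ))
      (ii_pow n w (1 / 2 + ρ) 1)] at h
  unfold Jw
  linarith

theorem Jw_le_one {n w : ℕ} (hw : w ≤ n) {ρ : ℝ} (h0 : 0 ≤ ρ) (h1 : ρ ≤ 1 / 2) :
    Jw n w ρ ≤ 1 := by
  have h := one_sub_Jw hw ρ
  have h2 : 0 ≤ ((n : ℝ) + 1) * (n.choose w : ℝ) *
      ((∫ t in (0 : ℝ)..(1 / 2 - ρ), t ^ w * (1 - t) ^ (n - w)) +
        ∫ t in (1 / 2 + ρ)..(1 : ℝ), t ^ w * (1 - t) ^ (n - w)) := by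
    apply mul_nonneg (by positivity)
    apply add_nonneg
    · apply intervalIntegral.integral_nonneg (by linarith)
      intro t ht
      have h2 : 0 ≤ t := ht.1
      have h3 : 0 ≤ 1 - t := by linarith [ht.2]
      positivity
    · apply intervalIntegral.integral_nonneg (by linarith)
      intro t ht
      have h2 : 0 ≤ t := by linarith [ht.1]
      have h3 : 0 ≤ 1 - t := by linarith [ht.2]
      positivity
  linarith

/-- for `w` near `n/2` almost all of the Beta integral is in the window. -/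
theorem one_sub_Jw_le {n w : ℕ} (hn : 1 ≤ n) (hw : w ≤ n) {ρ : ℝ} (h0 : 0 ≤ ρ) (h1 : ρ ≤ 1 / 2)
    (h2 : |(w : ℝ) / n - 1 / 2| ≤ ρ / 2) :
    1 - Jw n w ρ ≤ ((n : ℝ) + 1) * Real.exp (-(n * ρ ^ 2 / 16)) := by
  rw [one_sub_Jw hw, mul_assoc]
  apply mul_le_mul_of_nonneg_left _ (by positivity)
  obtain ⟨h3, h4⟩ := abs_le.mp h2
  have key : ∀ t : ℝ, 0 ≤ t → t ≤ 1 → ρ / 2 ≤ |(w : ℝ) / n - t| →
      (n.choose w : ℝ) * (t ^ w * (1 - t) ^ (n - w)) ≤ Real.exp (-(n * ρ ^ 2 / 16)) := by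
    intro t ht0 ht1 hd
    refine (bin_le hn hw ht0 ht1).trans (Real.exp_le_exp.mpr ?_)
    have h5 : (ρ / 2) ^ 2 ≤ ((w : ℝ) / n - t) ^ 2 := by
      rw [← sq_abs ((w : ℝ) / n - t)]
      exact pow_le_pow_left₀ (by linarith) hd 2
    have hn0 : (0 : ℝ) ≤ n := by positivity
    nlinarith [mul_le_mul_of_nonneg_left h5 hn0]
  have hA : (n.choose w : ℝ) * (∫ t in (0 : ℝ)..(1 / 2 - ρ), t ^ w * (1 - t) ^ (n - w)) ≤
      (1 / 2 - ρ) * Real.exp (-(n * ρ ^ 2 / 16)) := by
    rw [← intervalIntegral.integral_const_mul]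
    have h6 : ∫ t in (0 : ℝ)..(1 / 2 - ρ), (n.choose w : ℝ) * (t ^ w * (1 - t) ^ (n - w)) ≤
        ∫ t in (0 : ℝ)..(1 / 2 - ρ), Real.exp (-(n * ρ ^ 2 / 16)) := by
      apply intervalIntegral.integral_mono_on (by linarith) ((ii_pow n w _ _).const_mul _) (by simp)
      intro t ht
      apply key t ht.1 (by linarith [ht.2])
      rw [le_abs]; left; linarith [ht.2]
    refine h6.trans (le_of_eq ?_)
    rw [intervalIntegral.integral_const]; simp
  have hB : (n.choose w : ℝ) * (∫ t in (1 / 2 + ρ)..(1 : ℝ), t ^ w * (1 - t) ^ (n - w)) ≤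
      (1 / 2 - ρ) * Real.exp (-(n * ρ ^ 2 / 16)) := by
    rw [← intervalIntegral.integral_const_mul]
    have h6 : ∫ t in (1 / 2 + ρ)..(1 : ℝ), (n.choose w : ℝ) * (t ^ w * (1 - t) ^ (n - w)) ≤
        ∫ t in (1 / 2 + ρ)..(1 : ℝ), Real.exp (-(n * ρ ^ 2 / 16)) := by
      apply intervalIntegral.integral_mono_on (by linarith) ((ii_pow n w _ _).const_mul _) (by simp)
      intro t ht
      apply key t (by linarith [ht.1]) ht.2
      rw [le_abs]; right; linarith [ht.1]
    refine h6.trans (le_of_eq ?_)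
    rw [intervalIntegral.integral_const, smul_eq_mul]; ring
  have hE := Real.exp_pos (-(n * ρ ^ 2 / 16))
  rw [mul_add]
  nlinarith

theorem int_window_le (n w : ℕ) (hw : w ≤ n) {ρ : ℝ} (h0 : 0 ≤ ρ) (h1 : ρ ≤ 1 / 2) :
    ∫ t in (1 / 2 - ρ)..(1 / 2 + ρ), t ^ w * (1 - t) ^ (n - w) ≤ (1 / 2 + ρ) ^ n := by
  have h2 : ∫ t in (1 / 2 - ρ)..(1 / 2 + ρ), t ^ w * (1 - t) ^ (n - w) ≤
      ∫ t in (1 / 2 - ρ)..(1 / 2 + ρ), (1 / 2 + ρ) ^ n := by
    apply intervalIntegral.integral_mono_on (by linarith) (ii_pow n w _ _) (by simp)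
    intro t ht
    have h3 : 0 ≤ t := by linarith [ht.1]
    have h4 : 0 ≤ 1 - t := by linarith [ht.2]
    calc t ^ w * (1 - t) ^ (n - w) ≤ (1 / 2 + ρ) ^ w * (1 / 2 + ρ) ^ (n - w) := by
          apply mul_le_mul
          · exact pow_le_pow_left₀ h3 ht.2 w
          · exact pow_le_pow_left₀ h4 (by linarith [ht.1]) _
          · positivity
          · positivity
      _ = (1 / 2 + ρ) ^ n := by rw [← pow_add, Nat.add_sub_cancel' hw]
  refine h2.trans ?_
  rw [intervalIntegral.integral_const, smul_eq_mul]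
  have h5 : 0 ≤ (1 / 2 + ρ) ^ n := by positivity
  nlinarith

theorem Jw_le {n w : ℕ} (hw : w ≤ n) {ρ : ℝ} (h0 : 0 ≤ ρ) (h1 : ρ ≤ 1 / 2) :
    Jw n w ρ ≤ ((n : ℝ) + 1) * (n.choose w : ℝ) * (1 / 2 + ρ) ^ n := by
  unfold Jw
  exact mul_le_mul_of_nonneg_left (int_window_le n w hw h0 h1) (by positivity)

open Complex in
/-- Coefficients of a polynomial from its values on the circle `|u| = e^σ`. -/
theorem coef_circle (N : ℕ) (b : ℕ → ℂ) (σ : ℝ) (w : ℕ) (hw : w ≤ N) :
    ∫ φ in (-Real.pi)..Real.pi,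
      (∑ k ∈ Finset.range (N + 1), b k * exp ((σ + φ * I : ℂ)) ^ k) *
        exp (-(w * (σ + φ * I))) = 2 * Real.pi * b w := by
  have h1 : ∀ φ : ℝ, (∑ k ∈ Finset.range (N + 1), b k * exp ((σ + φ * I : ℂ)) ^ k) *
      exp (-(w * (σ + φ * I))) = ∑ k ∈ Finset.range (N + 1),
        b k * exp (((k : ℂ) - w) * σ) * exp ((((k : ℂ) - w) * I) * φ) := by
    intro φ
    rw [Finset.sum_mul]
    apply Finset.sum_congr rfl
    intro k _
    rw [← exp_nat_mul, mul_assoc, ← exp_add, mul_assoc (b k), ← exp_add]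
    congr 2
    ring
  simp_rw [h1]
  rw [intervalIntegral.integral_finsetSum]
  · rw [Finset.sum_eq_single w]
    · simp only [sub_self, zero_mul, exp_zero, mul_one, intervalIntegral.integral_const,
        sub_neg_eq_add, real_smul]
      push_cast
      ring
    · intro k _ hk
      rw [intervalIntegral.integral_const_mul]
      have hne : ((k : ℂ) - w) * I ≠ 0 := by
        apply mul_ne_zero _ I_ne_zero
        rw [sub_ne_zero]
        exact_mod_cast hk
      rw [integral_exp_mul_complex hne]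
      have h2 : exp (((k : ℂ) - w) * I * (Real.pi : ℝ)) =
          exp (((k : ℂ) - w) * I * ((-Real.pi : ℝ))) := by
        rw [exp_eq_exp_iff_exists_int]
        refine ⟨(k : ℤ) - w, ?_⟩
        push_cast
        ring
      rw [h2, sub_self, zero_div, mul_zero]
    · intro h
      exact absurd (Finset.mem_range.mpr (Nat.lt_succ_of_le hw)) h
  · intro k _
    apply Continuous.intervalIntegrable
    fun_prop

open Complex in
/-- Shift of an arc in log coordinates: bounds on the three other sides of the rectangle bound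
the integral over the fourth. -/
theorem rect_shift {H : ℂ → ℂ} (hH : Differentiable ℂ H) {s0 s1 pa pb B : ℝ} (hs : s0 ≤ s1)
    (hp : pa ≤ pb)
    (h0 : ∀ φ ∈ Set.Icc pa pb, ‖H (s0 + φ * I)‖ ≤ B)
    (ha : ∀ x ∈ Set.Icc s0 s1, ‖H (x + pa * I)‖ ≤ B)
    (hb : ∀ x ∈ Set.Icc s0 s1, ‖H (x + pb * I)‖ ≤ B) :
    ‖∫ φ in pa..pb, H (s1 + φ * I)‖ ≤ B * ((pb - pa) + 2 * (s1 - s0)) := by
  have h1 := integral_boundary_rect_eq_zero_of_differentiableOn H (s0 + pa * I) (s1 + pb * I)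
    (hH.differentiableOn)
  simp only [add_re, ofReal_re, mul_re, I_re, mul_zero, ofReal_im, I_im, mul_one, sub_self,
    add_zero, add_im, mul_im, zero_add] at h1
  have h2 : I • (∫ φ in pa..pb, H (s1 + φ * I)) =
      (∫ x in s0..s1, H (x + pb * I)) - (∫ x in s0..s1, H (x + pa * I)) +
        I • ∫ φ in pa..pb, H (s0 + φ * I) := by
    rw [← sub_eq_zero, ← h1]
    ring
  have h3 : ‖∫ φ in pa..pb, H (s1 + φ * I)‖ = ‖I • (∫ φ in pa..pb, H (s1 + φ * I))‖ := by
    rw [norm_smul, norm_I, one_mul]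
  rw [h3, h2]
  have e1 : ‖∫ x in s0..s1, H (x + pb * I)‖ ≤ B * (s1 - s0) := by
    have := intervalIntegral.norm_integral_le_of_norm_le_const (a := s0) (b := s1)
      (f := fun x : ℝ => H (x + pb * I)) (C := B) (fun x hx => by
        rw [Set.uIoc_of_le hs] at hx
        exact hb x ⟨hx.1.le, hx.2⟩)
    rwa [abs_of_nonneg (by linarith)] at this
  have e2 : ‖∫ x in s0..s1, H (x + pa * I)‖ ≤ B * (s1 - s0) := by
    have := intervalIntegral.norm_integral_le_of_norm_le_const (a := s0) (b := s1)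
      (f := fun x : ℝ => H (x + pa * I)) (C := B) (fun x hx => by
        rw [Set.uIoc_of_le hs] at hx
        exact ha x ⟨hx.1.le, hx.2⟩)
    rwa [abs_of_nonneg (by linarith)] at this
  have e3 : ‖∫ φ in pa..pb, H (s0 + φ * I)‖ ≤ B * (pb - pa) := by
    have := intervalIntegral.norm_integral_le_of_norm_le_const (a := pa) (b := pb)
      (f := fun x : ℝ => H (s0 + x * I)) (C := B) (fun x hx => by
        rw [Set.uIoc_of_le hp] at hx
        exact h0 x ⟨hx.1.le, hx.2⟩)
    rwa [abs_of_nonneg (by linarith)] at this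
  calc _ ≤ ‖∫ x in s0..s1, H (x + pb * I)‖ + ‖∫ x in s0..s1, H (x + pa * I)‖ +
        ‖∫ φ in pa..pb, H (s0 + φ * I)‖ := by
        refine (norm_add_le _ _).trans ?_
        rw [norm_smul, norm_I, one_mul]
        exact add_le_add (norm_sub_le _ _) le_rfl
    _ ≤ B * (s1 - s0) + B * (s1 - s0) + B * (pb - pa) := add_le_add (add_le_add e1 e2) e3
    _ = _ := by ring

end Pool.Agent.Lib.MP_0430e4_lc.BY
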