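import Pool.Agent.Lib.MP_0430e4_lc.BY.Four
import Pool.Agent.Lib.MP_0430e4_lc.BY.Assm

/-!
Project BEYOND (MP_0430e4_lc), helper46: the final theorem from Theorem M (statement of helper80)
and the two-sidedness (HA) of helper64.
-/

open Finset

namespace Pool.Agent.Lib.MP_0430e4_lc.BY.Plug

open Four

/-- **Theorem M** (statement fixed by helper80) -/
def ThmM : Prop :=
  ∀ ρ > (0 : ℝ), ∃ ρ₀ > (0 : ℝ), ∀ Δ > (0 : ℝ), ∃ g > (0 : ℝ), ∃ n₀ : ℕ, ∀ n ≥ n₀,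
    ∀ C : Finset (Wd n), IsCode ⌈(1 / 2 - 1 / Real.pi) * n⌉₊ C →
    (∀ z : ℂ, ‖z - Complex.I‖ ≤ ρ → ρ₀ ≤ z.re →
      ‖∑ x ∈ C, ∑ y ∈ C, z ^ wt (x + y)‖ ≤ C.card * pw n (-(1 / 2 + Δ)) * (1 + ‖z‖) ^ n) →
    (C.card : ℝ) ≤ pw n (1 / 2 - g)

theorem two_D_le : ∃ n0 : ℕ, ∀ n ≥ n0, 2 * ⌈(1 / 2 - 1 / Real.pi) * (n : ℝ)⌉₊ ≤ n := by
  refine ⟨6, fun n hn => ?_⟩
  have hπ := Real.pi_lt_d2
  have hπ0 := Real.pi_pos
  have h1 : (1 / 2 - 1 / Real.pi) ≤ 1 / 4 := by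
    have : 1 / 4 ≤ 1 / Real.pi := one_div_le_one_div_of_le hπ0 (by linarith)
    linarith
  have hn' : (6 : ℝ) ≤ n := by exact_mod_cast hn
  have h0 : 0 ≤ (1 / 2 - 1 / Real.pi) := by
    have : 1 / Real.pi ≤ 1 / 2 := one_div_le_one_div_of_le (by norm_num) (by linarith [Real.pi_gt_three])
    linarith
  have h2 : (1 / 2 - 1 / Real.pi) * (n : ℝ) ≤ 1 / 4 * n := mul_le_mul_of_nonneg_right h1 (by linarith)
  have h3 : (⌈(1 / 2 - 1 / Real.pi) * (n : ℝ)⌉₊ : ℝ) < (1 / 2 - 1 / Real.pi) * (n : ℝ) + 1 :=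
    Nat.ceil_lt_add_one (mul_nonneg h0 (by linarith))
  have h4 : (2 : ℝ) * (⌈(1 / 2 - 1 / Real.pi) * (n : ℝ)⌉₊ : ℝ) < n + 1 := by linarith
  have h5 : 2 * ⌈(1 / 2 - 1 / Real.pi) * (n : ℝ)⌉₊ < n + 1 := by exact_mod_cast h4
  omega

theorem geom2 {z : ℂ} {q : ℝ} (hzI : ‖z - Complex.I‖ ≤ 3 / 20) (hq : 0 < q) (hre : q ≤ z.re) :
    ‖1 - Complex.I * z‖ ≤ (1 + ‖z‖) * (1 - 2 * q ^ 2 / 25) ∧
    ‖1 + Complex.I * z‖ / ‖1 - Complex.I * z‖ ≤ 2 / 5 ∧ 1 - Complex.I * z ≠ 0 := by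
  have hre1 : z.re ≤ 3 / 20 := by
    have h := Complex.abs_re_le_norm (z - Complex.I)
    simp only [Complex.sub_re, Complex.I_re, sub_zero] at h
    exact (le_abs_self _).trans (h.trans hzI)
  have him : 17 / 20 ≤ z.im := by
    have h := Complex.abs_im_le_norm (z - Complex.I)
    simp only [Complex.sub_im, Complex.I_im] at h
    have h2 := neg_abs_le (z.im - 1)
    linarith
  have hnz : ‖z‖ ≤ 23 / 20 := by
    calc ‖z‖ = ‖(z - Complex.I) + Complex.I‖ := by congr 1; ring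
      _ ≤ ‖z - Complex.I‖ + ‖Complex.I‖ := norm_add_le _ _
      _ ≤ 23 / 20 := by rw [Complex.norm_I]; linarith
  have hsq : ‖z‖ ^ 2 = z.re ^ 2 + z.im ^ 2 := by
    rw [← Complex.normSq_eq_norm_sq, Complex.normSq_apply]; ring
  have hS : ‖1 - Complex.I * z‖ ^ 2 = (1 + z.im) ^ 2 + z.re ^ 2 := by
    rw [← Complex.normSq_eq_norm_sq, Complex.normSq_apply]
    simp only [Complex.sub_re, Complex.one_re, Complex.mul_re, Complex.I_re, Complex.I_im,
      Complex.sub_im, Complex.one_im, Complex.mul_im]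
    ring
  have hn0 := norm_nonneg z
  have him2 : z.im ≤ ‖z‖ := (le_abs_self _).trans (Complex.abs_im_le_norm z)
  have hlow : (1 : ℝ) + 17 / 20 ≤ ‖1 - Complex.I * z‖ := by
    apply le_of_sq_le_sq _ (norm_nonneg _)
    rw [hS]; nlinarith [sq_nonneg z.re]
  have hq1 : q ≤ 3 / 20 := hre.trans hre1
  have hqq : q ^ 2 ≤ 9 / 400 := by nlinarith
  refine ⟨?_, ?_, ?_⟩
  · apply le_of_sq_le_sq _ (mul_nonneg (by linarith) (by nlinarith))
    rw [hS]
    have h2 : q ^ 2 ≤ (‖z‖ - z.im) * (‖z‖ + z.im) := by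
      have : (‖z‖ - z.im) * (‖z‖ + z.im) = z.re ^ 2 := by linear_combination hsq
      rw [this]; nlinarith
    have h3 : 2 * q ^ 2 / 5 ≤ ‖z‖ - z.im := by
      by_contra hcon
      push Not at hcon
      nlinarith
    have h4 : (1 + z.im) ^ 2 + z.re ^ 2 = (1 + ‖z‖) ^ 2 - 2 * (‖z‖ - z.im) := by
      linear_combination -hsq
    rw [h4, mul_pow]
    have h5 : (1 + ‖z‖) ^ 2 ≤ 5 := by nlinarith
    nlinarith [sq_nonneg (q ^ 2 / 25), sq_nonneg (1 + ‖z‖),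
      mul_nonneg (sq_nonneg (1 + ‖z‖)) (sq_nonneg (2 * q ^ 2 / 25)),
      mul_le_mul_of_nonneg_right h5 (sq_nonneg q)]
  · have hnum : ‖1 + Complex.I * z‖ = ‖z - Complex.I‖ := by
      have h6 : 1 + Complex.I * z = Complex.I * (z - Complex.I) := by
        have := Complex.I_mul_I
        linear_combination this
      rw [h6, norm_mul, Complex.norm_I, one_mul]
    rw [hnum, div_le_iff₀ (by linarith)]
    linarith
  · intro h0
    rw [h0, norm_zero] at hlow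
    linarith

/-- upper bound of the enumerator of a nearly optimal code with `4 ∣` distances near `i` -/
theorem Wz_upper {n d : ℕ} {C : Finset (Wd n)} (hC : IsCode d C) (hd : 2 * d ≤ n)
    (h4 : ∀ x ∈ C, ∀ y ∈ C, 4 ∣ wt (x - y)) {q : ℝ} (hq : 0 < q)
    (hcard : pw n (1 / 2 - (2 * q ^ 2 / 25) / 16) ≤ C.card)
    (hA : ∀ w, d ≤ w → w + d ≤ n →
      (nP C w : ℝ) ≤ C.card * pw n (-1 / 2 + (2 * q ^ 2 / 25) / 16) * (n.choose w : ℝ))
    {z : ℂ} (hzI : ‖z - Complex.I‖ ≤ 3 / 20) (hre : q ≤ z.re) :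
    ‖Wz C z‖ ≤ C.card * (((1 + ‖z‖) / 2) ^ n * pw n (-(2 * q ^ 2 / 25))) *
      (3 * pw n ((2 * q ^ 2 / 25) / 8)) := by
  set c : ℝ := 2 * q ^ 2 / 25 with hc
  have hc0 : 0 < c := by positivity
  have hCpos : (0 : ℝ) < C.card := lt_of_lt_of_le (pw_pos n _) hcard
  have hCne : C.Nonempty := by rw [← Finset.card_pos]; exact_mod_cast hCpos
  obtain ⟨hg1, hg2, hg3⟩ := geom2 hzI hq hre
  rw [← hc] at hg1
  have hup := Wz_near hCne h4 hg3
  set t : ℝ := ‖1 + Complex.I * z‖ / ‖1 - Complex.I * z‖ with ht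
  have ht0 : 0 ≤ t := by rw [ht]; positivity
  have hB : Br C t ≤ 3 * pw n (c / 8) := by
    refine (Br_le hC hCne hd (pw_pos n (-1 / 2 + c / 16)).le hA ht0
      (hg2.trans (by norm_num))).trans ?_
    have e1 : (1 + t) ^ n ≤ pw n (1 / 2) := by
      calc (1 + t) ^ n ≤ (7 / 5 : ℝ) ^ n := pow_le_pow_left₀ (by linarith) (by linarith) n
        _ ≤ ((2 : ℝ) ^ (1 / 2 : ℝ)) ^ n := by
            apply pow_le_pow_left₀ (by norm_num)
            rw [← Real.sqrt_eq_rpow]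
            apply Real.le_sqrt_of_sq_le
            norm_num
        _ = pw n (1 / 2) := by
            unfold pw; rw [Real.rpow_mul (by norm_num), Real.rpow_natCast]
    have e2 : (1 + t) ^ n / C.card ≤ pw n (c / 8) := by
      rw [div_le_iff₀ hCpos]
      calc (1 + t) ^ n ≤ pw n (1 / 2) := e1
        _ ≤ pw n (c / 8) * pw n (1 / 2 - c / 16) := by
            rw [← pw_add]; apply pw_mono; linarith
        _ ≤ pw n (c / 8) * C.card := mul_le_mul_of_nonneg_left hcard (pw_pos n _).le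
    have e3 : pw n (-1 / 2 + c / 16) * 2 ^ n / C.card ≤ pw n (c / 8) := by
      rw [div_le_iff₀ hCpos]
      calc pw n (-1 / 2 + c / 16) * 2 ^ n = pw n (-1 / 2 + c / 16) * pw n 1 := by rw [pw_one]
        _ = pw n (c / 8) * pw n (1 / 2 - c / 16) := by
            rw [← pw_add, ← pw_add]; congr 1; ring
        _ ≤ pw n (c / 8) * C.card := mul_le_mul_of_nonneg_left hcard (pw_pos n _).le
    have e4 : (1 : ℝ) ≤ pw n (c / 8) := by
      rw [← pw_zero n]; apply pw_mono; positivity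
    linarith
  have hfac : (‖1 - Complex.I * z‖ / 2) ^ n ≤ ((1 + ‖z‖) / 2) ^ n * pw n (-c) := by
    have e5 : ‖1 - Complex.I * z‖ / 2 ≤ (1 + ‖z‖) / 2 * (2 : ℝ) ^ (-c) := by
      have e6 : 1 - c ≤ (2 : ℝ) ^ (-c) := by
        rw [Real.rpow_def_of_pos (by norm_num)]
        have e7 : 1 - c ≤ Real.exp (-c) := by
          have := Real.add_one_le_exp (-c); linarith
        refine e7.trans (Real.exp_le_exp.2 ?_)
        have := Real.log_two_lt_d9
        nlinarith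
      calc ‖1 - Complex.I * z‖ / 2 ≤ (1 + ‖z‖) * (1 - c) / 2 := by
            apply div_le_div_of_nonneg_right hg1 (by norm_num)
        _ = (1 + ‖z‖) / 2 * (1 - c) := by ring
        _ ≤ (1 + ‖z‖) / 2 * (2 : ℝ) ^ (-c) :=
            mul_le_mul_of_nonneg_left e6 (by have := norm_nonneg z; linarith)
    calc (‖1 - Complex.I * z‖ / 2) ^ n ≤ ((1 + ‖z‖) / 2 * (2 : ℝ) ^ (-c)) ^ n :=
          pow_le_pow_left₀ (by positivity) e5 n
      _ = ((1 + ‖z‖) / 2) ^ n * pw n (-c) := by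
          rw [mul_pow]
          congr 1
          unfold pw
          rw [Real.rpow_mul (by norm_num), Real.rpow_natCast]
  refine hup.trans ?_
  apply mul_le_mul _ hB _ _
  · exact mul_le_mul_of_nonneg_left hfac hCpos.le
  · have h := norm_nonneg (Bz C (t : ℂ))
    rw [Bz_ofReal] at h
    have h2 := norm_Bz_le C (t : ℂ)
    rw [Complex.norm_real, Real.norm_eq_abs, abs_of_nonneg ht0] at h2
    exact (norm_nonneg _).trans h2
  · have hP : 0 ≤ ((1 + ‖z‖) / 2) ^ n := by have := norm_nonneg z; positivity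
    exact mul_nonneg hCpos.le (mul_nonneg hP (pw_pos n _).le)

/-- passage from the double sum to `Wz` -/
theorem norm_sum_eq {n : ℕ} {C : Finset (Wd n)} (hC : C.Nonempty) (z : ℂ) :
    ‖∑ x ∈ C, ∑ y ∈ C, z ^ wt (x + y)‖ = C.card * ‖Wz C z‖ := by
  have hc : (C.card : ℂ) ≠ 0 := by exact_mod_cast hC.card_pos.ne'
  have h1 : ∑ x ∈ C, ∑ y ∈ C, z ^ wt (x + y) = (C.card : ℂ) * Wz C z := by
    unfold Wz
    rw [mul_div_cancel₀ _ hc]
    apply Finset.sum_congr rfl; intro x _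
    apply Finset.sum_congr rfl; intro y _
    rw [sub_eq_add']
  rw [h1, norm_mul]
  simp

/-- the linear programming bound at `1/2 - 1/π` -/
theorem hL_mid (ε : ℝ) (hε : 0 < ε) : ∃ n0 : ℕ, ∀ n ≥ n0, ∀ C : Finset (Wd n),
    IsCode ⌈(1 / 2 - 1 / Real.pi) * n⌉₊ C → (C.card : ℝ) ≤ pw n (1 / 2 + ε) := by
  refine hL_of Exact.mid_pos ?_ (le_of_eq (Exact.fin_mid_ell Exact.inputs)) ε hε
  have := Real.pi_pos
  have : 0 < 1 / Real.pi := by positivity
  linarith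

/-- **(III) from Theorem M** -/
theorem hIII_of_thmM (hM : ThmM) (hA : HA (fun n => ⌈(1 / 2 - 1 / Real.pi) * n⌉₊)) :
    ∃ ε : ℝ, 0 < ε ∧ ∃ n0 : ℕ, ∀ n ≥ n0, ∀ C : Finset (Wd n),
      IsCode ⌈(1 / 2 - 1 / Real.pi) * n⌉₊ C →
      (∀ x ∈ C, ∀ y ∈ C, 4 ∣ wt (x - y)) → (C.card : ℝ) ≤ pw n (1 / 2 - ε) := by
  obtain ⟨q, hq, hM⟩ := hM (3 / 20) (by norm_num)
  set c : ℝ := 2 * q ^ 2 / 25 with hc
  have hc0 : 0 < c := by positivity
  obtain ⟨g, hg, nM, hMn⟩ := hM (c / 4) (by positivity)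
  obtain ⟨nA, hAn⟩ := hA (c / 16) (by positivity)
  obtain ⟨nD, hDn⟩ := two_D_le
  obtain ⟨nL, hLn⟩ := pw_large 4 (show (0 : ℝ) < c / 2 by positivity)
  obtain ⟨nB, hBn⟩ := hL_mid (c / 8) (by positivity)
  refine ⟨min g (c / 16), lt_min hg (by positivity), max nB (max nM (max nA (max nD nL))), ?_⟩
  intro n hn' C hC h4
  have hn0 : nB ≤ n := (le_max_left _ _).trans hn'
  have hn := (le_max_right _ _).trans hn'
  have hn1 : nM ≤ n := (le_max_left _ _).trans hn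
  have hn2 : nA ≤ n := (le_max_left _ _).trans ((le_max_right _ _).trans hn)
  have hn3 : nD ≤ n := (le_max_left _ _).trans ((le_max_right _ _).trans ((le_max_right _ _).trans hn))
  have hn4 : nL ≤ n := (le_max_right _ _).trans ((le_max_right _ _).trans ((le_max_right _ _).trans hn))
  by_contra hcon
  push Not at hcon
  have hcard2 : pw n (1 / 2 - c / 16) ≤ C.card :=
    (pw_mono n (by have := min_le_right g (c / 16); linarith)).trans hcon.le
  have hCpos : (0 : ℝ) < C.card := lt_of_lt_of_le (pw_pos n _) hcard2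
  have hCne : C.Nonempty := by rw [← Finset.card_pos]; exact_mod_cast hCpos
  have h5 : pw n (1 / 2 - g) < C.card :=
    lt_of_le_of_lt (pw_mono n (by have := min_le_left g (c / 16); linarith)) hcon
  refine absurd (hMn n hn1 C hC ?_) (not_le.mpr h5)
  intro z hz hre
  rw [norm_sum_eq hCne, mul_assoc]
  apply mul_le_mul_of_nonneg_left _ hCpos.le
  have hup := Wz_upper hC (hDn n hn3) h4 hq hcard2 (hAn n hn2 C hC) hz hre
  rw [← hc] at hup
  have hP : 0 ≤ ((1 + ‖z‖) / 2) ^ n := by have := norm_nonneg z; positivity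
  have h6 : (3 : ℝ) * (pw n (c / 8) * pw n (-c)) ≤ pw n (-(3 * c / 8)) := by
    have h7 : pw n (-(3 * c / 8)) = pw n (c / 8) * pw n (-c) * pw n (c / 2) := by
      rw [← pw_add, ← pw_add]; congr 1; ring
    rw [h7]
    have h8 : (4 : ℝ) ≤ pw n (c / 2) := hLn n hn4
    have h9 : 0 < pw n (c / 8) * pw n (-c) := mul_pos (pw_pos n _) (pw_pos n _)
    nlinarith
  have h10 : (C.card : ℝ) * (3 * (pw n (c / 8) * pw n (-c))) ≤ pw n (1 / 2 - c / 4) := by
    calc (C.card : ℝ) * (3 * (pw n (c / 8) * pw n (-c)))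
        ≤ pw n (1 / 2 + c / 8) * pw n (-(3 * c / 8)) :=
          mul_le_mul (hBn n hn0 C hC) h6 (by have := pw_pos n (c / 8); have := pw_pos n (-c); positivity)
            (pw_pos n _).le
      _ = pw n (1 / 2 - c / 4) := by rw [← pw_add]; congr 1; ring
  have h11 : pw n (-(1 / 2 + c / 4)) * (1 + ‖z‖) ^ n = pw n (1 / 2 - c / 4) * ((1 + ‖z‖) / 2) ^ n := by
    have h12 : pw n (1 / 2 - c / 4) = pw n (-(1 / 2 + c / 4)) * 2 ^ n := by
      rw [← pw_one n, ← pw_add]; congr 1; ring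
    rw [h12, div_pow]
    have : (2 : ℝ) ^ n ≠ 0 := by positivity
    field_simp
  rw [h11]
  calc ‖Wz C z‖ ≤ C.card * (((1 + ‖z‖) / 2) ^ n * pw n (-c)) * (3 * pw n (c / 8)) := hup
    _ = (C.card * (3 * (pw n (c / 8) * pw n (-c)))) * ((1 + ‖z‖) / 2) ^ n := by ring
    _ ≤ pw n (1 / 2 - c / 4) * ((1 + ‖z‖) / 2) ^ n := mul_le_mul_of_nonneg_right h10 hP

/-- helper1's input (I) from Theorem M -/
theorem hM_of_thmM (hM : ThmM) : ∀ ρ : ℝ, 0 < ρ → ∀ τ : ℝ, 0 < τ → ∃ ε : ℝ, 0 < ε ∧ ∃ n0 : ℕ,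
    ∀ n ≥ n0, ∀ C : Finset (Wd n), IsCode ⌈(1 / 2 - 1 / Real.pi) * n⌉₊ C →
      pw n (1 / 2 - ε) ≤ C.card → ∃ z : ℂ, ‖z - Complex.I‖ ≤ ρ ∧
        pw n (1 / 2 - τ) * C.card ≤ ‖∑ x ∈ C, ∑ y ∈ C, z ^ wt (x - y)‖ := by
  intro ρ hρ τ hτ
  set s : ℝ := min (τ / 2) 1 with hs
  have hs0 : 0 < s := lt_min (by positivity) one_pos
  have hs1 : s ≤ 1 := min_le_right _ _
  have hs2 : s ≤ τ / 2 := min_le_left _ _
  set r : ℝ := min ρ s with hr
  have hr0 : 0 < r := lt_min hρ hs0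
  have hr1 : r ≤ s := min_le_right _ _
  obtain ⟨q, hq, hM⟩ := hM r hr0
  obtain ⟨g, hg, nM, hMn⟩ := hM (τ / 2) (by positivity)
  refine ⟨g / 2, by positivity, max nM 1, ?_⟩
  intro n hn C hC hcard
  have hn1 : nM ≤ n := (le_max_left _ _).trans hn
  have hn2 : 1 ≤ n := (le_max_right _ _).trans hn
  have hlt : pw n (1 / 2 - g) < C.card := by
    refine lt_of_lt_of_le ?_ hcard
    unfold pw
    apply Real.rpow_lt_rpow_of_exponent_lt (by norm_num)
    have : (1 : ℝ) ≤ n := by exact_mod_cast hn2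
    nlinarith
  by_contra hno
  push Not at hno
  refine absurd (hMn n hn1 C hC ?_) (not_le.mpr hlt)
  intro z hz hre
  have h1 := hno z (hz.trans (min_le_left _ _))
  have h2 : ‖∑ x ∈ C, ∑ y ∈ C, z ^ wt (x + y)‖ = ‖∑ x ∈ C, ∑ y ∈ C, z ^ wt (x - y)‖ := by
    congr 1
    apply Finset.sum_congr rfl; intro x _
    apply Finset.sum_congr rfl; intro y _
    rw [sub_eq_add']
  rw [h2]
  refine h1.le.trans ?_
  rw [mul_comm, mul_assoc]
  apply mul_le_mul_of_nonneg_left _ (Nat.cast_nonneg _)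
  have hz1 : 1 - r ≤ ‖z‖ := by
    have h3 : ‖Complex.I‖ ≤ ‖z‖ + ‖Complex.I - z‖ := by
      calc ‖Complex.I‖ = ‖z + (Complex.I - z)‖ := by congr 1; ring
        _ ≤ _ := norm_add_le _ _
    rw [Complex.norm_I, norm_sub_rev] at h3
    linarith
  have h4 : (2 : ℝ) * (2 : ℝ) ^ (-s) ≤ 1 + ‖z‖ := by
    have h5 : (2 : ℝ) ^ (-s) ≤ 1 - s / 2 := by
      -- convexity of 2^(-x) on [0,1]
      have h6 := (convexOn_rpow_left (b := (2 : ℝ)) (by norm_num)).2 (Set.mem_univ (0 : ℝ))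
        (Set.mem_univ (-1 : ℝ)) (show 0 ≤ 1 - s by linarith) hs0.le (by ring)
      simp only [smul_eq_mul, mul_zero, zero_add, mul_neg, mul_one, Real.rpow_zero] at h6
      rw [Real.rpow_neg_one] at h6
      linarith
    linarith
  calc pw n (1 / 2 - τ) ≤ pw n (-(1 / 2 + τ / 2)) * (2 * (2 : ℝ) ^ (-s)) ^ n := by
        have h7 : (2 * (2 : ℝ) ^ (-s)) ^ n = pw n (1 - s) := by
          have h8 : (2 : ℝ) * (2 : ℝ) ^ (-s) = (2 : ℝ) ^ (1 - s) := by
            rw [sub_eq_add_neg, Real.rpow_add (by norm_num), Real.rpow_one]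
          rw [h8]
          unfold pw
          rw [Real.rpow_mul (by norm_num), Real.rpow_natCast]
        rw [h7, ← pw_add]
        apply pw_mono
        linarith
    _ ≤ pw n (-(1 / 2 + τ / 2)) * (1 + ‖z‖) ^ n :=
        mul_le_mul_of_nonneg_left (pow_le_pow_left₀ (by positivity) h4 n) (pw_pos n _).le

/-- **BEYOND from Theorem M and (HA)** -/
theorem beyond_of (hM : ThmM) (hA : HA (fun n => ⌈(1 / 2 - 1 / Real.pi) * n⌉₊)) :
    ∃ c : ℝ, 0 < c ∧ ∀ δ : ℝ, |δ - (1 / 2 - 1 / Real.pi)| < c → Rr δ ≤ Tensor.ell δ - c :=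
  rate_near_uniform (rate_of (hM_of_thmM hM) (hIII_of_thmM hM hA))

end Pool.Agent.Lib.MP_0430e4_lc.BY.Plug
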