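import Pool.Agent.Lib.MP_0430e4_lc.BY.Words

/-!
Powers `2^(x n)` and codes (project BEYOND, helper1); split off from `BY.Struct`.
-/

open Finset
open scoped Pointwise

namespace Pool.Agent.Lib.MP_0430e4_lc.BY

/-- `2^(x n)` -/
noncomputable def pw (n : ℕ) (x : ℝ) : ℝ := (2 : ℝ) ^ (x * n)

theorem pw_pos (n : ℕ) (x : ℝ) : 0 < pw n x := Real.rpow_pos_of_pos (by norm_num) _

theorem pw_add (n : ℕ) (x y : ℝ) : pw n (x + y) = pw n x * pw n y := by
  unfold pw; rw [add_mul, Real.rpow_add (by norm_num)]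

theorem pw_zero (n : ℕ) : pw n 0 = 1 := by
  unfold pw; rw [zero_mul, Real.rpow_zero]

theorem pw_one (n : ℕ) : pw n 1 = 2 ^ n := by
  unfold pw; rw [one_mul, Real.rpow_natCast]

theorem pw_neg (n : ℕ) (x : ℝ) : pw n (-x) = (pw n x)⁻¹ := by
  unfold pw; rw [neg_mul, Real.rpow_neg (by norm_num)]

theorem pw_mono (n : ℕ) {x y : ℝ} (h : x ≤ y) : pw n x ≤ pw n y := by
  unfold pw
  exact Real.rpow_le_rpow_of_exponent_le (by norm_num) (mul_le_mul_of_nonneg_right h (by positivity))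

theorem pw_pow (n : ℕ) (x : ℝ) (k : ℕ) : pw n x ^ k = pw n (k * x) := by
  unfold pw
  rw [← Real.rpow_natCast, ← Real.rpow_mul (by norm_num)]
  congr 1; ring

theorem pw_large (A : ℝ) {t : ℝ} (ht : 0 < t) : ∃ n0 : ℕ, ∀ n ≥ n0, A ≤ pw n t := by
  have h1 : Filter.Tendsto (fun n : ℕ => ((2 : ℝ) ^ t) ^ n) Filter.atTop Filter.atTop :=
    tendsto_pow_atTop_atTop_of_one_lt (Real.one_lt_rpow (by norm_num) ht)
  obtain ⟨n0, hn0⟩ := Filter.eventually_atTop.mp (h1.eventually_ge_atTop A)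
  refine ⟨n0, fun n hn => ?_⟩
  have h2 := hn0 n hn
  unfold pw
  rwa [Real.rpow_mul (by norm_num), Real.rpow_natCast]

variable {n : ℕ}

/-- all distances of distinct words are at least `d` -/
def IsCode (d : ℕ) (C : Finset (Wd n)) : Prop := ∀ x ∈ C, ∀ y ∈ C, x ≠ y → d ≤ wt (x - y)

theorem IsCode.subset {d : ℕ} {C C' : Finset (Wd n)} (h : IsCode d C) (hs : C' ⊆ C) : IsCode d C' :=
  fun x hx y hy hxy => h x (hs hx) y (hs hy) hxy

end Pool.Agent.Lib.MP_0430e4_lc.BY
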