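import Pool.Agent.Lib.MP_0430e4_lc.PFR.Spec
import Pool.Agent.Lib.MP_0430e4_lc.BY.PwC

/-!
Structure part of project BEYOND (ALLCODES.md (1)-(3)), helper1.

`struct`: from (L) the Delsarte bound `M ≤ 2^((1/2+ε)n)`, (I) near-optimal codes have a large
sum `T_s`, (III) codes with all distances divisible by four have rate `≤ 1/2 - ε0`, and Marton's
conjecture over `F_2` with polynomial dependence, all codes have rate `≤ 1/2 - ε`.
-/

open Finset
open scoped Pointwise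

namespace Pool.Agent.Lib.MP_0430e4_lc.BY

variable {n : ℕ}

/-- `|C| T_s(C) = ∑_{x,y ∈ C} i^(wt(x+y)) (-1)^(s·(x+y))` -/
noncomputable def Tsum (C : Finset (Wd n)) (s : Wd n) : ℂ :=
  ∑ x ∈ C, ∑ y ∈ C, qi (x + y) * (e s (x + y) : ℂ)

theorem Tsum_eq (C : Finset (Wd n)) (s : Wd n) :
    Tsum C s = ∑ x ∈ C, ∑ y ∈ C, (qi x * (e s x : ℂ)) * (qi y * (e s y : ℂ)) * (e x y : ℂ) := by
  unfold Tsum
  apply Finset.sum_congr rfl; intro x _
  apply Finset.sum_congr rfl; intro y _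
  rw [qi_add, e_add_right]; push_cast; ring

theorem norm_w_le (s x : Wd n) : ‖qi x * (e s x : ℂ)‖ ≤ 1 := by
  rw [norm_mul, norm_qi, Complex.norm_real, Real.norm_eq_abs, abs_e, one_mul]

theorem sub_eq_add_finset (A : Finset (Wd n)) : A - A = A + A := by
  ext z
  simp only [Finset.mem_sub, Finset.mem_add, sub_eq_add']

theorem struct (D : ℕ → ℕ)
    (hL : ∀ ε : ℝ, 0 < ε → ∃ n0 : ℕ, ∀ n ≥ n0, ∀ C : Finset (Wd n), IsCode (D n) C →
      (C.card : ℝ) ≤ pw n (1 / 2 + ε))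
    (hI : ∀ c : ℝ, 0 < c → ∃ ε : ℝ, 0 < ε ∧ ∃ n0 : ℕ, ∀ n ≥ n0, ∀ C : Finset (Wd n), IsCode (D n) C →
      pw n (1 / 2 - ε) ≤ C.card → ∃ s : Wd n, pw n (1 / 2 - c) * C.card ≤ ‖Tsum C s‖)
    (hIII : ∃ ε : ℝ, 0 < ε ∧ ∃ n0 : ℕ, ∀ n ≥ n0, ∀ C : Finset (Wd n), IsCode (D n) C →
      (∀ x ∈ C, ∀ y ∈ C, 4 ∣ wt (x - y)) → (C.card : ℝ) ≤ pw n (1 / 2 - ε))
    (hP : ∀ (n : ℕ) (A : Finset (Wd n)), A.Nonempty → ∀ K : ℝ, ((A + A).card : ℝ) ≤ K * A.card →
      ∃ (V : AddSubgroup (Wd n)) (x : Wd n) (A' : Finset (Wd n)), Nat.card V ≤ A.card ∧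
        (∀ a ∈ A', a ∈ A ∧ x - a ∈ V) ∧ (A.card : ℝ) / (2 * K ^ 200) ≤ A'.card) :
    ∃ ε : ℝ, 0 < ε ∧ ∃ n0 : ℕ, ∀ n ≥ n0, ∀ C : Finset (Wd n), IsCode (D n) C →
      (C.card : ℝ) < pw n (1 / 2 - ε) := by
  classical
  obtain ⟨ε0, hε0, n3, h3⟩ := hIII
  obtain ⟨ε', hε', n1, h1⟩ := hI (ε0 / 16) (by positivity)
  set κ : ℝ := min ε' ε0 / 8 with hκ
  have hκpos : 0 < κ := by rw [hκ]; have := lt_min hε' hε0; positivity
  have hκ1 : κ ≤ ε' := by
    rw [hκ]; have h := min_le_left ε' ε0; have := lt_min hε' hε0; linarith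
  have hκ2 : κ ≤ ε0 / 8 := by
    rw [hκ]; have h := min_le_right ε' ε0; linarith
  set c : ℝ := κ / 50000 with hc
  have hcpos : 0 < c := by positivity
  obtain ⟨ε2, hε2, n2, h2⟩ := hI c hcpos
  obtain ⟨nL, hLn⟩ := hL c hcpos
  obtain ⟨nA, hA⟩ := pw_large (192 * (2 ^ 106) ^ 200) (show (0 : ℝ) < 994 * c by positivity)
  obtain ⟨nB, hB⟩ := pw_large 3 (show (0 : ℝ) < ε0 / 2 by positivity)
  refine ⟨min ε2 c, lt_min hε2 hcpos, max n1 (max n2 (max n3 (max nL (max nA nB)))), ?_⟩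
  intro n hn C hC
  have hn1 : n1 ≤ n := (le_max_left _ _).trans hn
  have hn2 : n2 ≤ n := (le_max_left _ _).trans ((le_max_right _ _).trans hn)
  have hn3 : n3 ≤ n := (le_max_left _ _).trans ((le_max_right _ _).trans ((le_max_right _ _).trans hn))
  have hn4 : nL ≤ n := (le_max_left _ _).trans
    ((le_max_right _ _).trans ((le_max_right _ _).trans ((le_max_right _ _).trans hn)))
  have hn5 : nA ≤ n := (le_max_left _ _).trans ((le_max_right _ _).trans
    ((le_max_right _ _).trans ((le_max_right _ _).trans ((le_max_right _ _).trans hn))))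
  have hn6 : nB ≤ n := (le_max_right _ _).trans ((le_max_right _ _).trans
    ((le_max_right _ _).trans ((le_max_right _ _).trans ((le_max_right _ _).trans hn))))
  by_contra hcon
  rw [not_lt] at hcon
  have hClow : pw n (1 / 2 - ε2) ≤ C.card :=
    (pw_mono n (by have := min_le_left ε2 c; linarith)).trans hcon
  have hClow' : pw n (1 / 2 - c) ≤ C.card :=
    (pw_mono n (by have := min_le_right ε2 c; linarith)).trans hcon
  have hCup : (C.card : ℝ) ≤ pw n (1 / 2 + c) := hLn n hn4 C hC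
  have hCpos : (0 : ℝ) < C.card := lt_of_lt_of_le (pw_pos n _) hClow'
  have hCne : C.Nonempty := by rw [← Finset.card_pos]; exact_mod_cast hCpos
  -- first pass
  obtain ⟨s, hs⟩ := h2 n hn2 C hC hClow
  have hη : pw n (-(2 * c)) * (C.card : ℝ) ^ 2 ≤
      ‖∑ x ∈ C, ∑ y ∈ C, (qi x * (e s x : ℂ)) * (qi y * (e s y : ℂ)) * (e x y : ℂ)‖ := by
    rw [← Tsum_eq]
    refine le_trans ?_ hs
    have h4 : pw n (-(2 * c)) * (C.card : ℝ) ≤ pw n (1 / 2 - c) := by
      calc pw n (-(2 * c)) * (C.card : ℝ) ≤ pw n (-(2 * c)) * pw n (1 / 2 + c) :=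
            mul_le_mul_of_nonneg_left hCup (pw_pos n _).le
        _ = pw n (1 / 2 - c) := by rw [← pw_add]; congr 1; ring
    calc pw n (-(2 * c)) * (C.card : ℝ) ^ 2 = (pw n (-(2 * c)) * C.card) * C.card := by ring
      _ ≤ _ := mul_le_mul_of_nonneg_right h4 (by positivity)
  obtain ⟨S, hSC, hSne, hS1, hS2⟩ := PFR.spectrum_bsg (e : Wd n → Wd n → ℝ) (2 ^ n) abs_e_le
    e_add_left orth C hCne (fun x => qi x * (e s x : ℂ)) (fun x => qi x * (e s x : ℂ))
    (fun x _ => norm_w_le s x) (fun x _ => norm_w_le s x) (pw n (-(2 * c))) (pw_pos n _) hη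
  have hSpos : (0 : ℝ) < S.card := by exact_mod_cast hSne.card_pos
  have hK : ((S + S).card : ℝ) ≤ (2 ^ 106 * pw n (120 * c)) * S.card := by
    rw [sub_eq_add_finset] at hS2
    refine hS2.trans (mul_le_mul_of_nonneg_right ?_ hSpos.le)
    have h4 : (pw n (-(2 * c)))⁻¹ ^ 54 = pw n (108 * c) := by
      rw [← pw_neg, pw_pow]; congr 1; push_cast; ring
    have h5 : (2 : ℝ) ^ n / (C.card : ℝ) ^ 2 ≤ pw n (2 * c) := by
      rw [div_le_iff₀ (by positivity)]
      calc (2 : ℝ) ^ n = pw n (2 * c) * pw n (1 / 2 - c) ^ 2 := by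
            rw [pw_pow, ← pw_add, ← pw_one]; congr 1; push_cast; ring
        _ ≤ pw n (2 * c) * (C.card : ℝ) ^ 2 :=
            mul_le_mul_of_nonneg_left (pow_le_pow_left₀ (pw_pos n _).le hClow' 2) (pw_pos n _).le
    rw [h4]
    calc 2 ^ 106 * pw n (108 * c) * ((2 : ℝ) ^ n / (C.card : ℝ) ^ 2) ^ 6
        ≤ 2 ^ 106 * pw n (108 * c) * (pw n (2 * c)) ^ 6 := by
          apply mul_le_mul_of_nonneg_left _ (mul_nonneg (by positivity) (pw_pos n _).le)
          exact pow_le_pow_left₀ (by positivity) h5 6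
      _ = 2 ^ 106 * pw n (120 * c) := by
          rw [pw_pow, mul_assoc, ← pw_add]; congr 2; push_cast; ring
  obtain ⟨V, x0, A', hV, hA', hA'c⟩ := hP n S hSne _ hK
  set C1 : Finset (Wd n) := C.filter (fun y => y - x0 ∈ V) with hC1
  have hC1C : C1 ⊆ C := Finset.filter_subset _ _
  have hA'C1 : A' ⊆ C1 := by
    intro a ha
    obtain ⟨h4, h5⟩ := hA' a ha
    rw [hC1, Finset.mem_filter]
    refine ⟨hSC h4, ?_⟩
    rw [← neg_sub]; exact V.neg_mem h5
  have hC1card : pw n (1 / 2 - κ) ≤ C1.card := by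
    have h4 : (A'.card : ℝ) ≤ C1.card := by exact_mod_cast Finset.card_le_card hA'C1
    refine le_trans ?_ h4
    refine le_trans ?_ hA'c
    have hKK : (2 ^ 106 * pw n (120 * c)) ^ 200 = (2 ^ 106) ^ 200 * pw n (24000 * c) := by
      rw [mul_pow, pw_pow]; congr 2; push_cast; ring
    rw [hKK, le_div_iff₀ (by have := pw_pos n (24000 * c); positivity)]
    have h5 : pw n (-(2 * c)) ^ 3 / 96 * C.card ≤ S.card := hS1
    refine le_trans ?_ h5
    have h6 : 192 * (2 ^ 106) ^ 200 ≤ pw n (994 * c) := hA n hn5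
    have h7 : pw n (-(2 * c)) ^ 3 = pw n (-(6 * c)) := by
      rw [pw_pow]; congr 1; push_cast; ring
    rw [h7]
    have h8 : pw n (1 / 2 - κ) * (2 * ((2 ^ 106) ^ 200 * pw n (24000 * c))) =
        (192 * (2 ^ 106) ^ 200) * (pw n (1 / 2 - κ) * pw n (24000 * c)) / 96 := by ring
    have h9 : pw n (994 * c) * (pw n (1 / 2 - κ) * pw n (24000 * c)) ≤ pw n (-(6 * c)) * pw n (1 / 2 - c) := by
      rw [← pw_add, ← pw_add, ← pw_add]
      apply pw_mono
      rw [hc]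
      linarith
    rw [h8]
    calc (192 * (2 ^ 106) ^ 200) * (pw n (1 / 2 - κ) * pw n (24000 * c)) / 96
        ≤ pw n (994 * c) * (pw n (1 / 2 - κ) * pw n (24000 * c)) / 96 := by
          apply div_le_div_of_nonneg_right _ (by norm_num)
          exact mul_le_mul_of_nonneg_right h6 (mul_nonneg (pw_pos n _).le (pw_pos n _).le)
      _ ≤ pw n (-(6 * c)) * pw n (1 / 2 - c) / 96 := div_le_div_of_nonneg_right h9 (by norm_num)
      _ ≤ pw n (-(6 * c)) * C.card / 96 := by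
          apply div_le_div_of_nonneg_right _ (by norm_num)
          exact mul_le_mul_of_nonneg_left hClow' (pw_pos n _).le
      _ = pw n (-(6 * c)) / 96 * C.card := by ring
  have hC1pos : (0 : ℝ) < C1.card := lt_of_lt_of_le (pw_pos n _) hC1card
  -- second pass
  obtain ⟨s', hs'⟩ := h1 n hn1 C1 (hC.subset hC1C) ((pw_mono n (by linarith)).trans hC1card)
  have hZ : ∀ x ∈ C1, x - x0 ∈ V := fun x hx => (Finset.mem_filter.mp hx).2
  have hb := hull_bound V x0 C1 hZ (fun x => qi x * (e s' x : ℂ)) (fun x => qi x * (e s' x : ℂ))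
    (fun x _ => norm_w_le s' x) (fun x _ => norm_w_le s' x)
  rw [← Tsum_eq] at hb
  have hVup : (Nat.card V : ℝ) ≤ pw n (1 / 2 + c) := by
    have h4 : (Nat.card V : ℝ) ≤ S.card := by exact_mod_cast hV
    have h5 : (S.card : ℝ) ≤ C.card := by exact_mod_cast Finset.card_le_card hSC
    linarith
  have hVpos : (0 : ℝ) < Nat.card V := by exact_mod_cast Nat.card_pos
  have hVH : pw n (1 - ε0 / 8) ≤ Nat.card V * Nat.card (hull V) := by
    have h4 : (pw n (1 / 2 - ε0 / 16) * C1.card) ^ 2 ≤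
        (C1.card : ℝ) ^ 2 * (Nat.card V * Nat.card (hull V)) :=
      (pow_le_pow_left₀ (mul_nonneg (pw_pos n _).le hC1pos.le) hs' 2).trans hb
    have h5 : (pw n (1 / 2 - ε0 / 16) * C1.card) ^ 2 = (C1.card : ℝ) ^ 2 * pw n (1 - ε0 / 8) := by
      rw [mul_pow, pw_pow, mul_comm]; congr 2; push_cast; ring
    rw [h5] at h4
    exact le_of_mul_le_mul_left h4 (by positivity)
  obtain ⟨b, hb2⟩ := exists_coset (dev_le V) x0 C1 hZ
  set C2 : Finset (Wd n) := C1.filter (fun x => x - b ∈ dev V) with hC2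
  have hC2C : C2 ⊆ C := (Finset.filter_subset _ _).trans hC1C
  have hup := h3 n hn3 C2 (hC.subset hC2C) (by
    intro x hx y hy
    have h4 : x - y = (x - b) - (y - b) := by abel
    rw [h4]
    exact ((dev V).sub_mem (Finset.mem_filter.mp hx).2 (Finset.mem_filter.mp hy).2).2)
  -- contradiction
  have hb3 : (C1.card : ℝ) * Nat.card (dev V) ≤ Nat.card V * C2.card := by exact_mod_cast hb2
  have hdev : (Nat.card (hull V) : ℝ) ≤ 2 * Nat.card (dev V) := by exact_mod_cast card_hull_le V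
  have h10 : pw n (1 / 2 - κ) * pw n (1 - ε0 / 8) ≤ 2 * pw n (1 / 2 + c) ^ 2 * pw n (1 / 2 - ε0) := by
    calc pw n (1 / 2 - κ) * pw n (1 - ε0 / 8)
        ≤ C1.card * (Nat.card V * Nat.card (hull V)) :=
          mul_le_mul hC1card hVH (pw_pos n _).le hC1pos.le
      _ ≤ C1.card * (Nat.card V * (2 * Nat.card (dev V))) := by
          apply mul_le_mul_of_nonneg_left _ hC1pos.le
          exact mul_le_mul_of_nonneg_left hdev hVpos.le
      _ = 2 * Nat.card V * (C1.card * Nat.card (dev V)) := by ring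
      _ ≤ 2 * Nat.card V * (Nat.card V * C2.card) :=
          mul_le_mul_of_nonneg_left hb3 (by positivity)
      _ = 2 * (Nat.card V : ℝ) ^ 2 * C2.card := by ring
      _ ≤ 2 * pw n (1 / 2 + c) ^ 2 * pw n (1 / 2 - ε0) := by
          apply mul_le_mul _ hup (by positivity) (by have := pw_pos n (1 / 2 + c); positivity)
          exact mul_le_mul_of_nonneg_left (pow_le_pow_left₀ hVpos.le hVup 2) (by norm_num)
  have h11 : pw n (1 / 2 - κ) * pw n (1 - ε0 / 8) =
      pw n (7 * ε0 / 8 - κ - 2 * c) * (pw n (1 / 2 + c) ^ 2 * pw n (1 / 2 - ε0)) := by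
    rw [pw_pow, ← pw_add, ← pw_add, ← pw_add]; congr 1; push_cast; ring
  have h12 : (3 : ℝ) ≤ pw n (7 * ε0 / 8 - κ - 2 * c) :=
    (hB n hn6).trans (pw_mono n (by rw [hc]; linarith))
  have h13 : 0 < pw n (1 / 2 + c) ^ 2 * pw n (1 / 2 - ε0) := by
    have h4 := pw_pos n (1 / 2 + c); have h5 := pw_pos n (1 / 2 - ε0); positivity
  rw [h11] at h10
  nlinarith

end Pool.Agent.Lib.MP_0430e4_lc.BY
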