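import Pool.Agent.Lib.MP_0430e4_lc.BY.ThreeSer

/-!
(III) of project BEYOND, the certificate (helper71).

`G = (1+X)^e (1-X^4)^(-(s+1)) (1-X^2)^(-t)` with `4r = s + 4 + t`, `n + 4 + e = 4s + 8r`. All
coefficients are nonnegative, `[X^(4a+2b+1)] G >= multichoose (s+1) a * multichoose t b`, and
`[X^s] G (1-X)^w (1+X)^(n-w)` is `(-1)^s 8^s binom(m-r, s)` for `w = 4m`, `m >= r`, and
`8^s multichoose r s` for `w = 0`.
-/

open Finset PowerSeries

namespace Pool.Agent.Lib.MP_0430e4_lc.BY.Three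

/-- `1/(1-X^m)` -/
noncomputable def geo (m : ℕ) : ℝ⟦X⟧ := PowerSeries.mk fun k => if m ∣ k then (1 : ℝ) else 0

theorem geo_eq (m : ℕ) (hm : 0 < m) : geo m = 1 + X ^ m * geo m := by
  ext k
  rw [map_add, coeff_X_pow_mul', geo, coeff_mk, coeff_one]
  by_cases hk : m ≤ k
  · rw [if_pos hk, coeff_mk, if_neg (by omega : ¬ k = 0), zero_add]
    congr 1
    apply propext
    constructor
    · intro h; exact Nat.dvd_sub h (dvd_refl m)
    · intro h; have := (Nat.dvd_add_iff_left (dvd_refl m)).mp h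
      rwa [Nat.sub_add_cancel hk] at this
  · rw [if_neg hk, add_zero]
    push Not at hk
    congr 1
    apply propext
    constructor
    · intro h; exact Nat.eq_zero_of_dvd_of_lt h hk
    · rintro rfl; exact dvd_zero m

theorem geo_mul (m : ℕ) (hm : 0 < m) : (1 - X ^ m) * geo m = 1 := by
  have := geo_eq m hm
  linear_combination this

/-- all coefficients are nonnegative -/
def NN (f : ℝ⟦X⟧) : Prop := ∀ k, 0 ≤ coeff k f

theorem NN.mul {f g : ℝ⟦X⟧} (hf : NN f) (hg : NN g) : NN (f * g) := fun k => by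
  rw [coeff_mul]
  exact Finset.sum_nonneg fun p _ => mul_nonneg (hf _) (hg _)

theorem NN_one : NN 1 := fun k => by
  rw [coeff_one]; split_ifs <;> norm_num

theorem NN.pow {f : ℝ⟦X⟧} (hf : NN f) (k : ℕ) : NN (f ^ k) := by
  induction k with
  | zero => rw [pow_zero]; exact NN_one
  | succ k ih => rw [pow_succ]; exact ih.mul hf

theorem NN_geo (m : ℕ) : NN (geo m) := fun k => by
  rw [geo, coeff_mk]; split_ifs <;> norm_num

theorem NN_B : NN B := fun k => by
  unfold B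
  rw [map_add, coeff_one, coeff_X]
  split_ifs <;> norm_num

theorem coeff_ge {f g : ℝ⟦X⟧} (hf : NN f) (hg : NN g) (i j : ℕ) :
    coeff i f * coeff j g ≤ coeff (i + j) (f * g) := by
  rw [coeff_mul]
  have hmem : (i, j) ∈ Finset.HasAntidiagonal.antidiagonal (i + j) := by simp
  exact Finset.single_le_sum (f := fun p : ℕ × ℕ => coeff p.1 f * coeff p.2 g)
    (fun p _ => mul_nonneg (hf _) (hg _)) hmem

theorem coeff_geo_pow (m : ℕ) (hm : 0 < m) (k a : ℕ) :
    coeff (m * a) (geo m ^ k) = (k.multichoose a : ℝ) := by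
  induction k generalizing a with
  | zero =>
    rw [pow_zero, coeff_one]
    cases a with
    | zero => simp
    | succ a =>
      rw [if_neg (by positivity)]; simp
  | succ k ih =>
    induction a with
    | zero =>
      have h1 : geo m ^ (k + 1) = geo m ^ k + X ^ m * geo m ^ (k + 1) := by
        calc geo m ^ (k + 1) = geo m ^ k * geo m := pow_succ _ _
          _ = geo m ^ k * (1 + X ^ m * geo m) := by rw [← geo_eq m hm]
          _ = _ := by ring
      rw [h1, map_add, ih, coeff_X_pow_mul', if_neg (by omega)]; simp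
    | succ a iha =>
      have h1 : geo m ^ (k + 1) = geo m ^ k + X ^ m * geo m ^ (k + 1) := by
        calc geo m ^ (k + 1) = geo m ^ k * geo m := pow_succ _ _
          _ = geo m ^ k * (1 + X ^ m * geo m) := by rw [← geo_eq m hm]
          _ = _ := by ring
      rw [h1, map_add, ih, coeff_X_pow_mul', if_pos (by nlinarith),
        show m * (a + 1) - m = m * a by rw [Nat.mul_succ, Nat.add_sub_cancel], iha,
        Nat.multichoose_succ_succ]
      push_cast; ring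

/-- the certificate -/
noncomputable def G (e s t : ℕ) : ℝ⟦X⟧ := B ^ e * geo 4 ^ (s + 1) * geo 2 ^ t

theorem NN_G (e s t : ℕ) : NN (G e s t) :=
  ((NN_B.pow e).mul ((NN_geo 4).pow (s + 1))).mul ((NN_geo 2).pow t)

theorem coeff_one_B (e : ℕ) : coeff 1 (B ^ e) = (e : ℝ) := by
  induction e with
  | zero => simp [coeff_one]
  | succ e ih =>
    have h0 : coeff 0 (B ^ e) = (1 : ℝ) := by
      rw [coeff_zero_eq_constantCoeff_apply, map_pow]
      simp [B]
    have h1 : B ^ (e + 1) = B ^ e + X * B ^ e := by unfold B; ring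
    rw [h1, map_add, ih, show (1 : ℕ) = 0 + 1 from rfl, coeff_succ_X_mul, h0]
    push_cast; ring

theorem G_lower (e s t a b : ℕ) (he : 1 ≤ e) :
    ((s + 1).multichoose a : ℝ) * (t.multichoose b : ℝ) ≤ coeff (1 + 4 * a + 2 * b) (G e s t) := by
  have h1 := coeff_ge (NN_B.pow e) ((NN_geo 4).pow (s + 1)) 1 (4 * a)
  have h2 := coeff_ge ((NN_B.pow e).mul ((NN_geo 4).pow (s + 1))) ((NN_geo 2).pow t) (1 + 4 * a) (2 * b)
  rw [coeff_one_B, coeff_geo_pow 4 (by norm_num)] at h1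
  rw [coeff_geo_pow 2 (by norm_num)] at h2
  have he' : (1 : ℝ) ≤ e := by exact_mod_cast he
  have h3 : ((s + 1).multichoose a : ℝ) ≤ coeff (1 + 4 * a) (B ^ e * geo 4 ^ (s + 1)) := by
    refine le_trans ?_ h1
    have : (0 : ℝ) ≤ ((s + 1).multichoose a : ℝ) := Nat.cast_nonneg _
    nlinarith
  exact (mul_le_mul_of_nonneg_right h3 (Nat.cast_nonneg _)).trans h2

theorem geo4 : geo 4 = Ai * Bi * Qi := by
  have h1 : (1 - X ^ 4 : ℝ⟦X⟧) = A * B * Q := by unfold A B Q; ring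
  have h2 := geo_mul 4 (by norm_num)
  rw [h1] at h2
  calc geo 4 = (A * Ai) * (B * Bi) * (Q * Qi) * geo 4 := by rw [A_mul, B_mul, Q_mul]; ring
    _ = Ai * Bi * Qi * (A * B * Q * geo 4) := by ring
    _ = _ := by rw [h2, mul_one]

theorem geo2 : geo 2 = Ai * Bi := by
  have h1 : (1 - X ^ 2 : ℝ⟦X⟧) = A * B := by unfold A B; ring
  have h2 := geo_mul 2 (by norm_num)
  rw [h1] at h2
  calc geo 2 = (A * Ai) * (B * Bi) * geo 2 := by rw [A_mul, B_mul]; ring
    _ = Ai * Bi * (A * B * geo 2) := by ring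
    _ = _ := by rw [h2, mul_one]

theorem cancel {R : Type*} [CommRing R] {x y : R} (h : x * y = 1) {a b c d : ℕ} (habcd : a + d = c + b) :
    x ^ a * y ^ b = x ^ c * y ^ d := by
  have h1 : x ^ a * y ^ b * (x * y) ^ d = x ^ c * y ^ d * (x * y) ^ b := by
    calc x ^ a * y ^ b * (x * y) ^ d = x ^ (a + d) * y ^ (b + d) := by rw [mul_pow]; ring
      _ = x ^ (c + b) * y ^ (b + d) := by rw [habcd]
      _ = _ := by rw [mul_pow]; ring
  rw [h, one_pow, one_pow, mul_one, mul_one] at h1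
  exact h1

theorem C8pow (s : ℕ) : (C (8 : ℝ) : ℝ⟦X⟧) ^ s * (C (1 / 8 : ℝ) ^ (s + 1) * C (8 : ℝ)) = 1 := by
  rw [← map_pow, ← map_pow, ← map_mul, ← map_mul]
  have : (8 : ℝ) ^ s * ((1 / 8) ^ (s + 1) * 8) = 1 := by
    rw [pow_succ]
    have h : (8 : ℝ) ^ s * (1 / 8) ^ s = 1 := by rw [← mul_pow]; norm_num
    calc (8 : ℝ) ^ s * ((1 / 8) ^ s * (1 / 8) * 8) = (8 : ℝ) ^ s * (1 / 8) ^ s := by ring
      _ = 1 := h
  rw [this, map_one]

theorem value_pos {n e s t r i m : ℕ} (h1 : 4 * r = s + 4 + t) (h2 : n + 4 + e = 4 * s + 8 * r)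
    (hm : m = r + i) (hmn : 4 * m ≤ n) :
    coeff s (G e s t * A ^ (4 * m) * B ^ (n - 4 * m)) = (8 : ℝ) ^ s * ((-1) ^ s * (i.choose s : ℝ)) := by
  have hs : G e s t * A ^ (4 * m) * B ^ (n - 4 * m) = C ((8 : ℝ) ^ s) * (U ^ i * D * F ^ (s + 1)) := by
    have e1 : G e s t * A ^ (4 * m) * B ^ (n - 4 * m)
        = (A ^ (4 * m) * Ai ^ (s + 1 + t)) * (B ^ (e + (n - 4 * m)) * Bi ^ (s + 1 + t)) * Qi ^ (s + 1) := by
      unfold G
      rw [geo4, geo2, mul_pow, mul_pow, mul_pow]; ring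
    have e2 : C ((8 : ℝ) ^ s) * (U ^ i * D * F ^ (s + 1))
        = (C (8 : ℝ) ^ s * (C (1 / 8 : ℝ) ^ (s + 1) * C (8 : ℝ))) * (A ^ (4 * i + 3))
          * (B ^ (4 * (s + 1)) * Bi ^ (4 * i + 5)) * Qi ^ (s + 1) := by
      unfold U D F
      rw [map_pow, mul_pow, mul_pow, mul_pow, ← pow_mul, ← pow_mul, ← pow_mul]; ring
    rw [e1, e2, C8pow, one_mul]
    have e3 : A ^ (4 * m) * Ai ^ (s + 1 + t) = A ^ (4 * i + 3) * Ai ^ 0 :=
      cancel A_mul (by omega)
    have e4 : B ^ (e + (n - 4 * m)) * Bi ^ (s + 1 + t) = B ^ (4 * (s + 1)) * Bi ^ (4 * i + 5) :=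
      cancel B_mul (by omega)
    rw [e3, e4, pow_zero, mul_one]
  rw [hs, coeff_C_mul, coeff_U_pow]

theorem value_zero {n e s t r : ℕ} (h1 : 4 * r = s + 4 + t) (h2 : n + 4 + e = 4 * s + 8 * r) :
    coeff s (G e s t * B ^ n) = (8 : ℝ) ^ s * (r.multichoose s : ℝ) := by
  have hs : G e s t * B ^ n = C ((8 : ℝ) ^ s) * (Ui ^ r * D * F ^ (s + 1)) := by
    have e1 : G e s t * B ^ n
        = (A ^ 0 * Ai ^ (s + 1 + t)) * (B ^ (e + n) * Bi ^ (s + 1 + t)) * Qi ^ (s + 1) := by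
      unfold G
      rw [geo4, geo2, mul_pow, mul_pow, mul_pow]; ring
    have e2 : C ((8 : ℝ) ^ s) * (Ui ^ r * D * F ^ (s + 1))
        = (C (8 : ℝ) ^ s * (C (1 / 8 : ℝ) ^ (s + 1) * C (8 : ℝ))) * (A ^ 3 * Ai ^ (4 * r))
          * (B ^ (4 * r + 4 * (s + 1)) * Bi ^ 5) * Qi ^ (s + 1) := by
      unfold Ui D F
      rw [map_pow, mul_pow, mul_pow, mul_pow, ← pow_mul, ← pow_mul, ← pow_mul]; ring
    rw [e1, e2, C8pow, one_mul]
    have e3 : A ^ 0 * Ai ^ (s + 1 + t) = A ^ 3 * Ai ^ (4 * r) :=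
      cancel A_mul (by omega)
    have e4 : B ^ (e + n) * Bi ^ (s + 1 + t) = B ^ (4 * r + 4 * (s + 1)) * Bi ^ 5 :=
      cancel B_mul (by omega)
    rw [e3, e4]
  rw [hs, coeff_C_mul, coeff_Ui_pow]

end Pool.Agent.Lib.MP_0430e4_lc.BY.Three
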