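import Pool.Agent.Lib.MP_0430e4_lc.BY.Words
import Pool.Agent.Lib.MP_0430e4_lc.BY.ThreeCert

/-!
(III) of project BEYOND (helper71): codes all of whose distances are divisible by 4.

`four_bound`: `|C| * [X^s] G <= 8^s multichoose r s` for codes with all distances divisible by 4 and
distance at least `4r`, where `4r = s + 4 + t`, `n + 4 + e = 4s + 8r`, `s` odd.
-/

open Finset PowerSeries

namespace Pool.Agent.Lib.MP_0430e4_lc.BY.Three

variable {n : ℕ}

/-- number of codewords to a character -/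
theorem gen (u : Wd n) :
    ∑ x : Wd n, C (e x u) * (X : ℝ⟦X⟧) ^ wt x = A ^ wt u * B ^ (n - wt u) := by
  classical
  have h1 : ∀ x : Wd n, C (e x u) * (X : ℝ⟦X⟧) ^ wt x
      = ∏ i, (C (sg (x i * u i)) * (if x i = 0 then (1 : ℝ⟦X⟧) else X)) := by
    intro x
    rw [Finset.prod_mul_distrib, ← map_prod]
    congr 1
    · congr 1
      unfold e dotProduct
      rw [sg_sum]
    · rw [Finset.prod_ite, Finset.prod_const_one, one_mul, Finset.prod_const]
      rfl
  have h2 : ∑ x : Wd n, ∏ i, (C (sg (x i * u i)) * (if x i = 0 then (1 : ℝ⟦X⟧) else X))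
      = ∏ i, ∑ a : ZMod 2, (C (sg (a * u i)) * (if a = 0 then (1 : ℝ⟦X⟧) else X)) := by
    rw [Finset.prod_univ_sum, Fintype.piFinset_univ]
  rw [Finset.sum_congr rfl (fun x _ => h1 x), h2]
  have h3 : ∀ i, ∑ a : ZMod 2, (C (sg (a * u i)) * (if a = 0 then (1 : ℝ⟦X⟧) else X))
      = if u i = 0 then B else A := by
    intro i
    rw [show (Finset.univ : Finset (ZMod 2)) = {0, 1} from rfl, Finset.sum_pair (by decide)]
    rcases z01 (u i) with h | h
    · rw [h]; simp [sg, B]
    · rw [h]; simp [sg, A]; ring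
  rw [Finset.prod_congr rfl (fun i _ => h3 i), Finset.prod_ite, Finset.prod_const, Finset.prod_const,
    mul_comm]
  congr 2
  have h4 : (Finset.univ.filter fun i => u i = 0).card + (Finset.univ.filter fun i => ¬ u i = 0).card
      = n := by
    rw [Finset.card_filter_add_card_filter_not]; simp
  have h5 : (Finset.univ.filter fun i => ¬ u i = 0).card = wt u := rfl
  omega

theorem wt_le (u : Wd n) : wt u ≤ n := by
  unfold wt
  exact (hammingNorm_le_card_fintype).trans (by simp)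

/-- Delsarte inequality for the function `w ↦ [X^s] g (1-X)^w (1+X)^(n-w)` -/
theorem delsarte (g : ℝ⟦X⟧) (hg : NN g) (s : ℕ) (Cd : Finset (Wd n)) :
    coeff s g * (Cd.card : ℝ) ^ 2 ≤
      ∑ x ∈ Cd, ∑ y ∈ Cd, coeff s (g * (A ^ wt (x - y) * B ^ (n - wt (x - y)))) := by
  classical
  have h1 : ∀ x y : Wd n, coeff s (g * (A ^ wt (x - y) * B ^ (n - wt (x - y))))
      = ∑ u : Wd n, coeff s (g * X ^ wt u) * (e x u * e y u) := by
    intro x y
    rw [← gen, Finset.mul_sum, map_sum]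
    apply Finset.sum_congr rfl
    intro u _
    have : g * (C (e u (x - y)) * (X : ℝ⟦X⟧) ^ wt u) = C (e u (x - y)) * (g * X ^ wt u) := by ring
    rw [this, coeff_C_mul, sub_eq_add', e_add_right, e_comm u x, e_comm u y]; ring
  have h2 : ∑ x ∈ Cd, ∑ y ∈ Cd, coeff s (g * (A ^ wt (x - y) * B ^ (n - wt (x - y))))
      = ∑ u : Wd n, coeff s (g * X ^ wt u) * (∑ x ∈ Cd, e x u) ^ 2 := by
    calc ∑ x ∈ Cd, ∑ y ∈ Cd, coeff s (g * (A ^ wt (x - y) * B ^ (n - wt (x - y))))
        = ∑ x ∈ Cd, ∑ y ∈ Cd, ∑ u : Wd n, coeff s (g * X ^ wt u) * (e x u * e y u) := by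
          apply Finset.sum_congr rfl; intro x _
          apply Finset.sum_congr rfl; intro y _
          exact h1 x y
      _ = ∑ x ∈ Cd, ∑ u : Wd n, ∑ y ∈ Cd, coeff s (g * X ^ wt u) * (e x u * e y u) := by
          apply Finset.sum_congr rfl; intro x _
          exact Finset.sum_comm
      _ = ∑ u : Wd n, ∑ x ∈ Cd, ∑ y ∈ Cd, coeff s (g * X ^ wt u) * (e x u * e y u) :=
          Finset.sum_comm
      _ = _ := by
          apply Finset.sum_congr rfl; intro u _
          rw [sq, Finset.sum_mul_sum, Finset.mul_sum]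
          apply Finset.sum_congr rfl; intro x _
          rw [Finset.mul_sum]
  rw [h2]
  have h3 : ∀ u ∈ (Finset.univ : Finset (Wd n)), 0 ≤ coeff s (g * X ^ wt u) * (∑ x ∈ Cd, e x u) ^ 2 := by
    intro u _
    apply mul_nonneg _ (sq_nonneg _)
    rw [coeff_mul_X_pow']
    split_ifs
    · exact hg _
    · exact le_rfl
  have h4 := Finset.single_le_sum h3 (Finset.mem_univ (0 : Wd n))
  have h5 : wt (0 : Wd n) = 0 := by unfold wt; simp
  simp only [h5, pow_zero, mul_one, e_zero_right, Finset.sum_const, nsmul_eq_mul] at h4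
  exact h4

/-- the bound for codes with all distances divisible by 4 -/
theorem four_bound {e s t r : ℕ} (h1 : 4 * r = s + 4 + t) (h2 : n + 4 + e = 4 * s + 8 * r)
    (hs : Odd s) (Cd : Finset (Wd n)) (h4 : ∀ x ∈ Cd, ∀ y ∈ Cd, 4 ∣ wt (x - y))
    (hd : ∀ x ∈ Cd, ∀ y ∈ Cd, x ≠ y → 4 * r ≤ wt (x - y)) :
    coeff s (G e s t) * (Cd.card : ℝ) ≤ (8 : ℝ) ^ s * (r.multichoose s : ℝ) := by
  classical
  rcases Cd.eq_empty_or_nonempty with rfl | hne
  · simp only [Finset.card_empty, Nat.cast_zero, mul_zero]; positivity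
  have hcard : (0 : ℝ) < Cd.card := by exact_mod_cast Finset.card_pos.mpr hne
  have hD := delsarte (G e s t) (NN_G e s t) s Cd
  have hU : ∑ x ∈ Cd, ∑ y ∈ Cd, coeff s (G e s t * (A ^ wt (x - y) * B ^ (n - wt (x - y))))
      ≤ ∑ x ∈ Cd, (8 : ℝ) ^ s * (r.multichoose s : ℝ) := by
    apply Finset.sum_le_sum
    intro x hx
    have h5 : ∀ y ∈ Cd, coeff s (G e s t * (A ^ wt (x - y) * B ^ (n - wt (x - y))))
        ≤ if y = x then (8 : ℝ) ^ s * (r.multichoose s : ℝ) else 0 := by
      intro y hy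
      by_cases hxy : y = x
      · rw [if_pos hxy, hxy, sub_self]
        have h6 : wt (0 : Wd n) = 0 := by unfold wt; simp
        rw [h6, pow_zero, one_mul, Nat.sub_zero, value_zero h1 h2]
      · rw [if_neg hxy]
        obtain ⟨m, hm⟩ := h4 x hx y hy
        have h7 := hd x hx y hy (fun h => hxy h.symm)
        have h8 : wt (x - y) ≤ n := wt_le _
        rw [hm] at h7 h8 ⊢
        obtain ⟨i, hi⟩ := Nat.exists_eq_add_of_le (by omega : r ≤ m)
        rw [← mul_assoc, value_pos h1 h2 hi h8, hs.neg_one_pow]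
        have : (0 : ℝ) ≤ (8 : ℝ) ^ s * (i.choose s : ℝ) := by positivity
        linarith
    refine (Finset.sum_le_sum h5).trans ?_
    rw [Finset.sum_ite_eq' Cd x, if_pos hx]
  have h9 := hD.trans hU
  rw [Finset.sum_const, nsmul_eq_mul, sq, ← mul_assoc] at h9
  have h10 : (Cd.card : ℝ) * (coeff s (G e s t) * (Cd.card : ℝ))
      ≤ (Cd.card : ℝ) * ((8 : ℝ) ^ s * (r.multichoose s : ℝ)) := by
    calc (Cd.card : ℝ) * (coeff s (G e s t) * (Cd.card : ℝ))
        = coeff s (G e s t) * (Cd.card : ℝ) * (Cd.card : ℝ) := by ring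
      _ ≤ _ := h9
  exact le_of_mul_le_mul_left h10 hcard

end Pool.Agent.Lib.MP_0430e4_lc.BY.Three
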