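import Mathlib

/-!
(III) of project BEYOND, power series part (helper71).

`A = 1 - X`, `B = 1 + X`, `Q = 1 + X^2`, `F = B^4 / (8 Q)`, `D = 8 A^3 / B^5`, `U = (A/B)^4`.
Facts: `(1 - U) F = X`, `D F^2 = F - X F'`; hence `[X^s] D F^(s+1) = [s = 0]` (formal residue of
`V' V^(-s-1)`, `V = 1 - U = X / F`), and by induction
`[X^s] U^i D F^(s+1) = (-1)^s binom(i, s)`, `[X^s] U^(-r) D F^(s+1) = multichoose r s`.
-/

open Finset PowerSeries

namespace Pool.Agent.Lib.MP_0430e4_lc.BY.Three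

/-- `1 - X` -/
noncomputable def A : ℝ⟦X⟧ := 1 - X
/-- `1 + X` -/
noncomputable def B : ℝ⟦X⟧ := 1 + X
/-- `1 + X^2` -/
noncomputable def Q : ℝ⟦X⟧ := 1 + X ^ 2
/-- `1 / (1 - X)` -/
noncomputable def Ai : ℝ⟦X⟧ := A⁻¹
/-- `1 / (1 + X)` -/
noncomputable def Bi : ℝ⟦X⟧ := B⁻¹
/-- `1 / (1 + X^2)` -/
noncomputable def Qi : ℝ⟦X⟧ := Q⁻¹

theorem A_mul : A * Ai = 1 := PowerSeries.mul_inv_cancel _ (by simp [A])
theorem B_mul : B * Bi = 1 := PowerSeries.mul_inv_cancel _ (by simp [B])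
theorem Q_mul : Q * Qi = 1 := PowerSeries.mul_inv_cancel _ (by simp [Q])

/-- `B^4 / (8 Q)` -/
noncomputable def F : ℝ⟦X⟧ := C (1 / 8 : ℝ) * B ^ 4 * Qi
/-- `8 A^3 / B^5` -/
noncomputable def D : ℝ⟦X⟧ := C (8 : ℝ) * A ^ 3 * Bi ^ 5
/-- `(A / B)^4` -/
noncomputable def U : ℝ⟦X⟧ := A ^ 4 * Bi ^ 4
/-- `(B / A)^4` -/
noncomputable def Ui : ℝ⟦X⟧ := B ^ 4 * Ai ^ 4

theorem C8 : (C (1 / 8 : ℝ) : ℝ⟦X⟧) * C (8 : ℝ) = 1 := by
  rw [← map_mul]; norm_num

theorem C8' : (C (8 : ℝ) : ℝ⟦X⟧) = 8 := by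
  rw [show (8 : ℝ) = ((8 : ℕ) : ℝ) by norm_num, map_natCast]; norm_num

theorem UUi : U * Ui = 1 := by
  have h1 : U * Ui = (A * Ai) ^ 4 * (B * Bi) ^ 4 := by unfold U Ui; ring
  rw [h1, A_mul, B_mul]; ring

theorem VF : (1 - U) * F = X := by
  have h1 : (1 - U) * B ^ 4 = 8 * X * Q := by
    have h2 : U * B ^ 4 = A ^ 4 := by
      have : U * B ^ 4 = A ^ 4 * (B * Bi) ^ 4 := by unfold U; ring
      rw [this, B_mul]; ring
    rw [sub_mul, h2]
    unfold A B Q; ring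
  calc (1 - U) * F = C (1 / 8 : ℝ) * ((1 - U) * B ^ 4) * Qi := by unfold F; ring
    _ = (C (1 / 8 : ℝ) * C (8 : ℝ)) * X * (Q * Qi) := by rw [h1, C8']; ring
    _ = X := by rw [C8, Q_mul]; ring

theorem dX : d⁄dX ℝ (X : ℝ⟦X⟧) = 1 := PowerSeries.derivative_X

theorem dQi : d⁄dX ℝ Qi = - (2 * X * Qi ^ 2) := by
  have h1 : d⁄dX ℝ (Q * Qi) = 0 := by rw [Q_mul]; simp
  have h2 : d⁄dX ℝ Q = 2 * X := by
    unfold Q
    rw [map_add, Derivation.leibniz_pow, dX]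
    simp
  rw [Derivation.leibniz, h2, smul_eq_mul, smul_eq_mul] at h1
  have h3 : Qi * (Q * d⁄dX ℝ Qi + Qi * (2 * X)) = 0 := by rw [h1]; ring
  have h4 : (Q * Qi) * d⁄dX ℝ Qi + 2 * X * Qi ^ 2 = 0 := by rw [← h3]; ring
  rw [Q_mul, one_mul] at h4
  exact eq_neg_of_add_eq_zero_left h4

theorem dF : d⁄dX ℝ F = C (1 / 8 : ℝ) * (4 * B ^ 3 * Qi - 2 * X * B ^ 4 * Qi ^ 2) := by
  have h2 : d⁄dX ℝ B = 1 := by
    unfold B
    rw [map_add, dX]; simp
  unfold F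
  rw [mul_assoc, Derivation.leibniz, Derivation.leibniz, Derivation.leibniz_pow, dQi, h2]
  simp only [smul_eq_mul, nsmul_eq_mul, PowerSeries.derivative_C]
  push_cast
  ring

theorem DF : D * F ^ 2 = F - X * d⁄dX ℝ F := by
  rw [dF]
  have hB : Bi ^ 5 * B ^ 8 = B ^ 3 := by
    have : Bi ^ 5 * B ^ 8 = (B * Bi) ^ 5 * B ^ 3 := by ring
    rw [this, B_mul]; ring
  have h1 : D * F ^ 2 = C (1 / 8 : ℝ) * (C (1 / 8 : ℝ) * C (8 : ℝ)) * A ^ 3 * (Bi ^ 5 * B ^ 8) * Qi ^ 2 := by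
    unfold D F; ring
  rw [h1, C8, hB]
  have h2 : F = C (1 / 8 : ℝ) * B ^ 4 * Q * Qi ^ 2 := by
    have : C (1 / 8 : ℝ) * B ^ 4 * Q * Qi ^ 2 = C (1 / 8 : ℝ) * B ^ 4 * Qi * (Q * Qi) := by ring
    rw [this, Q_mul]; unfold F; ring
  have h3 : (4 * B ^ 3 * Qi - 2 * X * B ^ 4 * Qi ^ 2) = (4 * B ^ 3 * Q - 2 * X * B ^ 4) * Qi ^ 2 := by
    have : (4 * B ^ 3 * Q - 2 * X * B ^ 4) * Qi ^ 2 = 4 * B ^ 3 * Qi * (Q * Qi) - 2 * X * B ^ 4 * Qi ^ 2 := by
      ring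
    rw [this, Q_mul]; ring
  rw [h2, h3]
  have h4 : A ^ 3 * B ^ 3 = B ^ 4 * Q - X * (4 * B ^ 3 * Q - 2 * X * B ^ 4) := by
    unfold A B Q; ring
  calc C (1 / 8 : ℝ) * 1 * A ^ 3 * B ^ 3 * Qi ^ 2 = C (1 / 8 : ℝ) * (A ^ 3 * B ^ 3) * Qi ^ 2 := by ring
    _ = _ := by rw [h4]; ring

theorem coeff_zero_DF : coeff 0 (D * F) = 1 := by
  have hA : constantCoeff A = 1 := by simp [A]
  have hB : constantCoeff B = 1 := by simp [B]
  have hQ : constantCoeff Q = 1 := by simp [Q]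
  have hBi : constantCoeff Bi = 1 := by
    have := congrArg constantCoeff B_mul
    rwa [map_mul, hB, one_mul, map_one] at this
  have hQi : constantCoeff Qi = 1 := by
    have := congrArg constantCoeff Q_mul
    rwa [map_mul, hQ, one_mul, map_one] at this
  rw [coeff_zero_eq_constantCoeff_apply]
  unfold D F
  simp only [map_mul, map_pow, hA, hB, hBi, hQi, constantCoeff_C]
  norm_num

/-- the formal residue -/
theorem res (s : ℕ) : coeff s (D * F ^ (s + 1)) = if s = 0 then (1 : ℝ) else 0 := by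
  cases s with
  | zero => rw [zero_add, pow_one, if_pos rfl]; exact coeff_zero_DF
  | succ p =>
    rw [if_neg (Nat.succ_ne_zero p)]
    have h1 : D * F ^ (p + 1 + 1) = F ^ (p + 1) - X * (F ^ p * d⁄dX ℝ F) := by
      calc D * F ^ (p + 1 + 1) = (D * F ^ 2) * F ^ p := by ring
        _ = _ := by rw [DF]; ring
    rw [h1, map_sub, coeff_succ_X_mul]
    have h2 : coeff p (d⁄dX ℝ (F ^ (p + 1))) = coeff (p + 1) (F ^ (p + 1)) * (p + 1) :=
      coeff_derivative _ _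
    rw [Derivation.leibniz_pow, nsmul_eq_mul, smul_eq_mul, Nat.add_sub_cancel] at h2
    have h3 : coeff p (((p + 1 : ℕ) : ℝ⟦X⟧) * (F ^ p * d⁄dX ℝ F)) = (p + 1) * coeff p (F ^ p * d⁄dX ℝ F) := by
      rw [← map_natCast (C : ℝ →+* ℝ⟦X⟧), coeff_C_mul]; push_cast; ring
    rw [h3] at h2
    have hp : (0 : ℝ) < p + 1 := by positivity
    have h4 : coeff p (F ^ p * d⁄dX ℝ F) = coeff (p + 1) (F ^ (p + 1)) := by
      apply mul_left_cancel₀ hp.ne'
      rw [h2]; ring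
    rw [h4, sub_self]

theorem coeff_U_pow (i s : ℕ) :
    coeff s (U ^ i * D * F ^ (s + 1)) = (-1 : ℝ) ^ s * (i.choose s : ℝ) := by
  induction i generalizing s with
  | zero =>
    rw [pow_zero, one_mul, res]
    cases s with
    | zero => simp
    | succ s => simp
  | succ i ih =>
    have h1 : U ^ (i + 1) * D * F ^ (s + 1) = U ^ i * D * F ^ (s + 1) - X * (U ^ i * D * F ^ s) := by
      rw [← VF]; ring
    rw [h1, map_sub, ih]
    cases s with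
    | zero => rw [coeff_zero_X_mul]; simp
    | succ s =>
      rw [coeff_succ_X_mul, ih, Nat.choose_succ_succ]
      push_cast; ring

theorem coeff_Ui_pow (r s : ℕ) :
    coeff s (Ui ^ r * D * F ^ (s + 1)) = (r.multichoose s : ℝ) := by
  induction r generalizing s with
  | zero =>
    rw [pow_zero, one_mul, res]
    cases s with
    | zero => simp
    | succ s => simp
  | succ r ih =>
    induction s with
    | zero =>
      have h1 : Ui ^ (r + 1) * D * F ^ (0 + 1) = Ui ^ r * D * F ^ (0 + 1) + X * (Ui ^ (r + 1) * D) := by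
        have h2 : Ui ^ (r + 1) * U = Ui ^ r := by
          calc Ui ^ (r + 1) * U = Ui ^ r * (U * Ui) := by ring
            _ = _ := by rw [UUi, mul_one]
        rw [← VF]
        calc Ui ^ (r + 1) * D * F ^ (0 + 1)
            = (Ui ^ (r + 1) * U) * D * F ^ (0 + 1) + (1 - U) * F * (Ui ^ (r + 1) * D) := by ring
          _ = _ := by rw [h2]
      rw [h1, map_add, ih, coeff_zero_X_mul]; simp
    | succ s ihs =>
      have h1 : Ui ^ (r + 1) * D * F ^ (s + 1 + 1)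
          = Ui ^ r * D * F ^ (s + 1 + 1) + X * (Ui ^ (r + 1) * D * F ^ (s + 1)) := by
        have h2 : Ui ^ (r + 1) * U = Ui ^ r := by
          calc Ui ^ (r + 1) * U = Ui ^ r * (U * Ui) := by ring
            _ = _ := by rw [UUi, mul_one]
        rw [← VF]
        calc Ui ^ (r + 1) * D * F ^ (s + 1 + 1)
            = (Ui ^ (r + 1) * U) * D * F ^ (s + 1 + 1)
              + (1 - U) * F * (Ui ^ (r + 1) * D * F ^ (s + 1)) := by ring
          _ = _ := by rw [h2]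
      rw [h1, map_add, ih, coeff_succ_X_mul, ihs, Nat.multichoose_succ_succ]
      push_cast; ring

end Pool.Agent.Lib.MP_0430e4_lc.BY.Three
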