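import Mathlib

/-!
Words over `F_2`: the bicharacter `(-1)^(x·y)`, the quadratic function `i^(wt x)`, hull of a subgroup
and its doubly even part (helper1, project BEYOND of MP_0430e4_lc, ALLCODES.md (2), (3)).
-/

open Finset
open scoped Pointwise ComplexConjugate

namespace Pool.Agent.Lib.MP_0430e4_lc.BY

/-- words of length `n` -/
abbrev Wd (n : ℕ) := Fin n → ZMod 2

/-- the sign `(-1)^a` -/
noncomputable def sg (a : ZMod 2) : ℝ := if a = 0 then 1 else -1

theorem z01 (a : ZMod 2) : a = 0 ∨ a = 1 := by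
  revert a; decide

theorem one_add_one' : (1 : ZMod 2) + 1 = 0 := by decide

theorem sg_add (a b : ZMod 2) : sg (a + b) = sg a * sg b := by
  rcases z01 a with rfl | rfl <;> rcases z01 b with rfl | rfl <;> simp [sg, one_add_one']

theorem sg_zero : sg 0 = 1 := by simp [sg]
theorem sg_one : sg 1 = -1 := by simp [sg]

theorem sg_mul_self (a : ZMod 2) : sg a * sg a = 1 := by
  unfold sg; split_ifs <;> norm_num

theorem abs_sg (a : ZMod 2) : |sg a| = 1 := by
  unfold sg; split_ifs <;> norm_num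

theorem sg_sum {ι : Type*} (s : Finset ι) (f : ι → ZMod 2) : sg (∑ i ∈ s, f i) = ∏ i ∈ s, sg (f i) := by
  classical
  induction s using Finset.induction_on with
  | empty => simp [sg_zero]
  | insert a s ha ih => rw [Finset.sum_insert ha, Finset.prod_insert ha, sg_add, ih]

variable {n : ℕ}

/-- `(-1)^(x·y)` -/
noncomputable def e (x y : Wd n) : ℝ := sg (x ⬝ᵥ y)

theorem e_add_left (x x' y : Wd n) : e (x + x') y = e x y * e x' y := by
  unfold e; rw [add_dotProduct, sg_add]

theorem e_add_right (x y y' : Wd n) : e x (y + y') = e x y * e x y' := by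
  unfold e; rw [dotProduct_add, sg_add]

theorem e_comm (x y : Wd n) : e x y = e y x := by
  unfold e; rw [dotProduct_comm]

theorem abs_e (x y : Wd n) : |e x y| = 1 := abs_sg _

theorem abs_e_le (x y : Wd n) : |e x y| ≤ 1 := (abs_sg _).le

theorem e_mul_self (x y : Wd n) : e x y * e x y = 1 := sg_mul_self _

theorem e_zero_left (y : Wd n) : e 0 y = 1 := by unfold e; rw [zero_dotProduct]; exact sg_zero

theorem e_zero_right (x : Wd n) : e x 0 = 1 := by unfold e; rw [dotProduct_zero]; exact sg_zero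

theorem add_self (x : Wd n) : x + x = 0 := by
  funext i
  exact CharTwo.add_self_eq_zero (x i)

theorem neg_eq (x : Wd n) : -x = x := by
  funext i
  exact CharTwo.neg_eq (x i)

theorem sub_eq_add' (x y : Wd n) : x - y = x + y := by rw [sub_eq_add_neg, neg_eq]

/-- sum of a character over a subgroup -/
theorem sum_subgroup (V : AddSubgroup (Wd n)) [DecidablePred (· ∈ V)] (u : Wd n) :
    ∑ v ∈ univ.filter (· ∈ V), e v u =
      if ∀ v ∈ V, v ⬝ᵥ u = 0 then ((univ.filter (· ∈ V)).card : ℝ) else 0 := by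
  split_ifs with h
  · calc ∑ v ∈ univ.filter (· ∈ V), e v u = ∑ v ∈ univ.filter (· ∈ V), (1 : ℝ) := by
          apply Finset.sum_congr rfl
          intro v hv
          unfold e
          rw [h v (Finset.mem_filter.mp hv).2, sg_zero]
      _ = _ := by simp
  · push Not at h
    obtain ⟨w, hw, hwu⟩ := h
    have hew : e w u = -1 := by
      unfold e sg; rw [if_neg hwu]
    have h1 : ∑ v ∈ univ.filter (· ∈ V), e v u = ∑ v ∈ univ.filter (· ∈ V), e (v + w) u := by
      apply Finset.sum_bij' (fun v _ => v + w) (fun v _ => v + w)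
      · intro v hv
        rw [Finset.mem_filter] at hv ⊢
        exact ⟨Finset.mem_univ _, V.add_mem hv.2 hw⟩
      · intro v hv
        rw [Finset.mem_filter] at hv ⊢
        exact ⟨Finset.mem_univ _, V.add_mem hv.2 hw⟩
      · intro v _; rw [add_assoc, add_self, add_zero]
      · intro v _; rw [add_assoc, add_self, add_zero]
      · intro v _; rw [add_assoc, add_self, add_zero]
    have h2 : ∑ v ∈ univ.filter (· ∈ V), e (v + w) u = - ∑ v ∈ univ.filter (· ∈ V), e v u := by
      rw [← Finset.sum_neg_distrib]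
      apply Finset.sum_congr rfl
      intro v _
      rw [e_add_left, hew]; ring
    linarith

theorem eq_of_dot {y y' : Wd n} (h : ∀ v : Wd n, v ⬝ᵥ (y + y') = 0) : y = y' := by
  have h1 : y + y' = 0 := by
    funext i
    have := h (Pi.single i 1)
    rw [single_dotProduct, one_mul] at this
    exact this
  have h2 : y = -y' := eq_neg_of_add_eq_zero_left h1
  rw [h2, neg_eq]

theorem orth (y y' : Wd n) : ∑ u, e u y * e u y' = if y = y' then (2 : ℝ) ^ n else 0 := by
  classical
  have h1 : ∑ u, e u y * e u y' = ∑ u ∈ univ.filter (· ∈ (⊤ : AddSubgroup (Wd n))), e u (y + y') := by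
    rw [Finset.filter_true_of_mem (fun x _ => AddSubgroup.mem_top x)]
    apply Finset.sum_congr rfl
    intro u _
    rw [e_add_right]
  rw [h1, sum_subgroup]
  by_cases h : y = y'
  · rw [if_pos h, if_pos]
    · rw [Finset.filter_true_of_mem (fun x _ => AddSubgroup.mem_top x)]
      simp [ZMod.card]
    · intro v _
      rw [h, add_self, dotProduct_zero]
  · rw [if_neg h, if_neg]
    intro hcon
    exact h (eq_of_dot fun v => hcon v (AddSubgroup.mem_top v))

/-- Hamming weight -/
def wt (x : Wd n) : ℕ := hammingNorm x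

/-- `i^(wt x)` -/
noncomputable def qi (x : Wd n) : ℂ := Complex.I ^ wt x

noncomputable def gi (a : ZMod 2) : ℂ := if a = 0 then 1 else Complex.I

theorem qi_eq (x : Wd n) : qi x = ∏ i, gi (x i) := by
  unfold qi wt hammingNorm gi
  rw [Finset.prod_ite, Finset.prod_const_one, one_mul, Finset.prod_const]

theorem gi_add (a b : ZMod 2) : gi (a + b) = gi a * gi b * (sg (a * b) : ℂ) := by
  rcases z01 a with rfl | rfl <;> rcases z01 b with rfl | rfl <;> simp [gi, sg, one_add_one']

theorem qi_add (x y : Wd n) : qi (x + y) = qi x * qi y * (e x y : ℂ) := by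
  rw [qi_eq, qi_eq, qi_eq]
  unfold e dotProduct
  rw [sg_sum, Complex.ofReal_prod, ← Finset.prod_mul_distrib, ← Finset.prod_mul_distrib]
  apply Finset.prod_congr rfl
  intro i _
  rw [Pi.add_apply, gi_add]

theorem norm_qi (x : Wd n) : ‖qi x‖ = 1 := by
  unfold qi; rw [norm_pow, Complex.norm_I, one_pow]

theorem qi_zero : qi (0 : Wd n) = 1 := by
  unfold qi wt; rw [hammingNorm_zero, pow_zero]

theorem qi_eq_one_iff (x : Wd n) : qi x = 1 ↔ 4 ∣ wt x := by
  unfold qi
  constructor
  · intro h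
    have h1 : Complex.I ^ wt x = Complex.I ^ (wt x % 4) := Complex.I_pow_eq_pow_mod _
    rw [h1] at h
    have h2 : wt x % 4 < 4 := Nat.mod_lt _ (by norm_num)
    interval_cases h3 : wt x % 4
    · exact Nat.dvd_of_mod_eq_zero h3
    · exfalso; rw [pow_one] at h
      have := congrArg Complex.re h; simp at this
    · exfalso; rw [Complex.I_sq] at h
      have := congrArg Complex.re h; norm_num at this
    · exfalso; rw [Complex.I_pow_three] at h
      have := congrArg Complex.re h; simp at this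
  · rintro ⟨k, hk⟩
    rw [hk, pow_mul, Complex.I_pow_four, one_pow]

/-- `x·x = 0` in terms of `qi`: `(qi x)^2 = (-1)^(x·x)` -/
theorem qi_sq (x : Wd n) : qi x * qi x = (e x x : ℂ) := by
  have h := qi_add x x
  rw [add_self, qi_zero] at h
  have h2 : (e x x : ℂ) * (e x x : ℂ) = 1 := by exact_mod_cast e_mul_self x x
  calc qi x * qi x = qi x * qi x * ((e x x : ℂ) * (e x x : ℂ)) := by rw [h2, mul_one]
    _ = (qi x * qi x * (e x x : ℂ)) * (e x x : ℂ) := by ring
    _ = _ := by rw [← h, one_mul]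

section Hull

variable (V : AddSubgroup (Wd n))

/-- the hull `V ∩ V^⊥` -/
def hull : AddSubgroup (Wd n) where
  carrier := {h | h ∈ V ∧ ∀ v ∈ V, v ⬝ᵥ h = 0}
  zero_mem' := ⟨V.zero_mem, fun v _ => dotProduct_zero v⟩
  add_mem' := by
    rintro a b ⟨ha, ha'⟩ ⟨hb, hb'⟩
    refine ⟨V.add_mem ha hb, fun v hv => ?_⟩
    rw [dotProduct_add, ha' v hv, hb' v hv, add_zero]
  neg_mem' := by
    rintro a ⟨ha, ha'⟩
    refine ⟨V.neg_mem ha, fun v hv => ?_⟩
    rw [dotProduct_neg, ha' v hv, neg_zero]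

theorem mem_hull (h : Wd n) : h ∈ hull V ↔ h ∈ V ∧ ∀ v ∈ V, v ⬝ᵥ h = 0 := Iff.rfl

theorem hull_le : hull V ≤ V := fun _ h => h.1

/-- the doubly even part of the hull -/
def dev : AddSubgroup (Wd n) where
  carrier := {h | h ∈ hull V ∧ 4 ∣ wt h}
  zero_mem' := ⟨(hull V).zero_mem, by rw [← qi_eq_one_iff]; exact qi_zero⟩
  add_mem' := by
    rintro a b ⟨ha, ha'⟩ ⟨hb, hb'⟩
    refine ⟨(hull V).add_mem ha hb, ?_⟩
    rw [← qi_eq_one_iff] at ha' hb' ⊢
    rw [qi_add, ha', hb']
    unfold e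
    rw [hb.2 a ha.1, sg_zero]; norm_num
  neg_mem' := by
    rintro a ⟨ha, ha'⟩
    change -a ∈ hull V ∧ 4 ∣ wt (-a)
    rw [neg_eq]
    exact ⟨ha, ha'⟩

theorem mem_dev (h : Wd n) : h ∈ dev V ↔ h ∈ hull V ∧ 4 ∣ wt h := Iff.rfl

theorem dev_le : dev V ≤ V := fun _ h => h.1.1

theorem card_hull_le : Nat.card (hull V) ≤ 2 * Nat.card (dev V) := by
  classical
  have hH : Nat.card (hull V) = (univ.filter (· ∈ hull V)).card := by
    rw [Nat.card_eq_fintype_card, Fintype.card_subtype]
  have hD : Nat.card (dev V) = (univ.filter (· ∈ dev V)).card := by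
    rw [Nat.card_eq_fintype_card, Fintype.card_subtype]
  rw [hH, hD]
  have hsplit : (univ.filter (· ∈ hull V)).card =
      (univ.filter (· ∈ dev V)).card + (univ.filter (fun h => h ∈ hull V ∧ h ∉ dev V)).card := by
    rw [← Finset.card_union_of_disjoint]
    · congr 1
      ext h
      simp only [Finset.mem_filter, Finset.mem_univ, true_and, Finset.mem_union]
      constructor
      · intro hh
        by_cases h1 : h ∈ dev V
        · exact Or.inl h1
        · exact Or.inr ⟨hh, h1⟩
      · rintro (hh | hh)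
        · exact hh.1
        · exact hh.1
    · rw [Finset.disjoint_left]
      intro h h1 h2
      exact (Finset.mem_filter.mp h2).2.2 (Finset.mem_filter.mp h1).2
  have hle : (univ.filter (fun h => h ∈ hull V ∧ h ∉ dev V)).card ≤ (univ.filter (· ∈ dev V)).card := by
    by_cases hex : ∃ h1, h1 ∈ hull V ∧ h1 ∉ dev V
    · obtain ⟨h1, h1H, h1D⟩ := hex
      have key : ∀ h : Wd n, h ∈ hull V → h ∉ dev V → qi h = -1 := by
        intro h hh hd
        have h3 : qi h * qi h = 1 := by
          rw [qi_sq]; unfold e; rw [hh.2 h hh.1, sg_zero]; norm_num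
        have h4 : (qi h - 1) * (qi h + 1) = 0 := by ring_nf; rw [sq, h3]; ring
        rcases mul_eq_zero.mp h4 with h5 | h5
        · exfalso
          apply hd
          rw [mem_dev, ← qi_eq_one_iff]
          exact ⟨hh, sub_eq_zero.mp h5⟩
        · exact eq_neg_of_add_eq_zero_left h5
      apply Finset.card_le_card_of_injOn (fun h => h + h1)
      · intro h hh
        rw [Finset.mem_coe, Finset.mem_filter] at hh
        rw [Finset.mem_coe, Finset.mem_filter]
        refine ⟨Finset.mem_univ _, ?_⟩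
        rw [mem_dev, ← qi_eq_one_iff]
        refine ⟨(hull V).add_mem hh.2.1 h1H, ?_⟩
        simp only
        rw [qi_add, key h hh.2.1 hh.2.2, key h1 h1H h1D]
        unfold e
        rw [h1H.2 h hh.2.1.1, sg_zero]; norm_num
      · intro a _ b _ hab
        exact add_right_cancel hab
    · push Not at hex
      have : univ.filter (fun h => h ∈ hull V ∧ h ∉ dev V) = ∅ := by
        rw [Finset.filter_eq_empty_iff]
        intro h _ hh
        exact hh.2 (hex h hh.1)
      rw [this]; simp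
  omega

/-- **Norm of the character matrix on a subgroup**: sums over `Z × Z`, `Z ⊆ a + V`, are at most
`|Z| (|V| |V ∩ V^⊥|)^(1/2)`. -/
theorem hull_bound (a : Wd n) (Z : Finset (Wd n)) (hZ : ∀ x ∈ Z, x - a ∈ V) (φ ψ : Wd n → ℂ)
    (hφ : ∀ x ∈ Z, ‖φ x‖ ≤ 1) (hψ : ∀ x ∈ Z, ‖ψ x‖ ≤ 1) :
    ‖∑ x ∈ Z, ∑ y ∈ Z, φ x * ψ y * (e x y : ℂ)‖ ^ 2 ≤
      (Z.card : ℝ) ^ 2 * (Nat.card V * Nat.card (hull V)) := by
  classical
  have hVc : Nat.card V = (univ.filter (· ∈ V)).card := by
    rw [Nat.card_eq_fintype_card, Fintype.card_subtype]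
  have hHc : Nat.card (hull V) = (univ.filter (· ∈ hull V)).card := by
    rw [Nat.card_eq_fintype_card, Fintype.card_subtype]
  set Gf : Wd n → ℂ := fun v => ∑ y ∈ Z, (ψ y * (e a y : ℂ)) * (e v y : ℂ) with hGf
  have h1 : ∑ x ∈ Z, ∑ y ∈ Z, φ x * ψ y * (e x y : ℂ) = ∑ x ∈ Z, φ x * Gf (x - a) := by
    apply Finset.sum_congr rfl
    intro x _
    rw [hGf]; simp only
    rw [Finset.mul_sum]
    apply Finset.sum_congr rfl
    intro y _
    have h2 : e x y = e a y * e (x - a) y := by
      rw [← e_add_left]; congr 1; abel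
    rw [h2]; push_cast; ring
  have h2 : ‖∑ x ∈ Z, φ x * Gf (x - a)‖ ^ 2 ≤ Z.card * ∑ x ∈ Z, ‖Gf (x - a)‖ ^ 2 := by
    have h3 : ‖∑ x ∈ Z, φ x * Gf (x - a)‖ ≤ ∑ x ∈ Z, ‖Gf (x - a)‖ := by
      refine (norm_sum_le _ _).trans (Finset.sum_le_sum fun x hx => ?_)
      rw [norm_mul]
      calc ‖φ x‖ * ‖Gf (x - a)‖ ≤ 1 * ‖Gf (x - a)‖ :=
            mul_le_mul_of_nonneg_right (hφ x hx) (norm_nonneg _)
        _ = _ := one_mul _
    calc _ ≤ (∑ x ∈ Z, ‖Gf (x - a)‖) ^ 2 := pow_le_pow_left₀ (norm_nonneg _) h3 2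
      _ ≤ _ := sq_sum_le_card_mul_sum_sq
  have h3 : ∑ x ∈ Z, ‖Gf (x - a)‖ ^ 2 ≤ ∑ v ∈ univ.filter (· ∈ V), ‖Gf v‖ ^ 2 := by
    rw [← Finset.sum_image (f := fun v => ‖Gf v‖ ^ 2) (g := fun x => x - a) (s := Z)]
    · apply Finset.sum_le_sum_of_subset_of_nonneg
      · intro v hv
        obtain ⟨x, hx, rfl⟩ := Finset.mem_image.mp hv
        rw [Finset.mem_filter]
        exact ⟨Finset.mem_univ _, hZ x hx⟩
      · intro _ _ _; positivity
    · intro x _ y _ hxy
      exact sub_left_injective hxy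
  have h4 : ∑ v ∈ univ.filter (· ∈ V), ‖Gf v‖ ^ 2 ≤
      ∑ p ∈ Z ×ˢ Z, |∑ v ∈ univ.filter (· ∈ V), e v (p.1 + p.2)| := by
    have h5 : ((∑ v ∈ univ.filter (· ∈ V), ‖Gf v‖ ^ 2 : ℝ) : ℂ) =
        ∑ p ∈ Z ×ˢ Z, (ψ p.1 * (e a p.1 : ℂ)) * conj (ψ p.2 * (e a p.2 : ℂ)) *
          ((∑ v ∈ univ.filter (· ∈ V), e v (p.1 + p.2) : ℝ) : ℂ) := by
      push_cast
      have h6 : ∀ v, ((‖Gf v‖ : ℂ)) ^ 2 = ∑ p ∈ Z ×ˢ Z,
          (ψ p.1 * (e a p.1 : ℂ)) * conj (ψ p.2 * (e a p.2 : ℂ)) * (e v (p.1 + p.2) : ℂ) := by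
        intro v
        rw [← Complex.ofReal_pow, ← Complex.normSq_eq_norm_sq, ← Complex.mul_conj,
          Finset.sum_product]
        simp only [hGf, map_sum, map_mul, Complex.conj_ofReal]
        rw [Finset.sum_mul_sum]
        apply Finset.sum_congr rfl; intro x _
        apply Finset.sum_congr rfl; intro x' _
        rw [e_add_right]; push_cast; ring
      rw [Finset.sum_congr rfl fun v _ => h6 v, Finset.sum_comm]
      apply Finset.sum_congr rfl
      intro p _
      rw [Finset.mul_sum]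
    have h6 : (∑ v ∈ univ.filter (· ∈ V), ‖Gf v‖ ^ 2) =
        ‖((∑ v ∈ univ.filter (· ∈ V), ‖Gf v‖ ^ 2 : ℝ) : ℂ)‖ := by
      rw [Complex.norm_real, Real.norm_eq_abs, abs_of_nonneg]
      exact Finset.sum_nonneg fun _ _ => by positivity
    rw [h6, h5]
    refine (norm_sum_le _ _).trans (Finset.sum_le_sum fun p hp => ?_)
    rw [Finset.mem_product] at hp
    have hb : ∀ y ∈ Z, ‖ψ y * (e a y : ℂ)‖ ≤ 1 := by
      intro y hy
      rw [norm_mul, Complex.norm_real, Real.norm_eq_abs, abs_e, mul_one]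
      exact hψ y hy
    rw [norm_mul, norm_mul, Complex.norm_conj, Complex.norm_real, Real.norm_eq_abs]
    calc _ ≤ 1 * 1 * |∑ v ∈ univ.filter (· ∈ V), e v (p.1 + p.2)| := by
          apply mul_le_mul_of_nonneg_right _ (abs_nonneg _)
          exact mul_le_mul (hb _ hp.1) (hb _ hp.2) (norm_nonneg _) (by norm_num)
      _ = _ := by ring
  have h5 : ∑ p ∈ Z ×ˢ Z, |∑ v ∈ univ.filter (· ∈ V), e v (p.1 + p.2)| ≤
      Z.card * (Nat.card V * Nat.card (hull V)) := by
    have h6 : ∀ p ∈ Z ×ˢ Z, |∑ v ∈ univ.filter (· ∈ V), e v (p.1 + p.2)| =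
        if p.1 + p.2 ∈ hull V then (Nat.card V : ℝ) else 0 := by
      intro p hp
      rw [Finset.mem_product] at hp
      rw [sum_subgroup, hVc]
      have hmem : p.1 + p.2 ∈ V := by
        have h7 : p.1 + p.2 = (p.1 - a) + (p.2 - a) := by
          rw [sub_eq_add', sub_eq_add']
          calc p.1 + p.2 = p.1 + p.2 + (a + a) := by rw [add_self, add_zero]
            _ = _ := by abel
        rw [h7]; exact V.add_mem (hZ _ hp.1) (hZ _ hp.2)
      by_cases h8 : ∀ v ∈ V, v ⬝ᵥ (p.1 + p.2) = 0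
      · rw [if_pos h8, if_pos ⟨hmem, h8⟩, abs_of_nonneg (by positivity)]
      · rw [if_neg h8, if_neg (fun h9 => h8 h9.2), abs_zero]
    rw [Finset.sum_congr rfl h6, Finset.sum_product]
    calc ∑ x ∈ Z, ∑ y ∈ Z, (if x + y ∈ hull V then (Nat.card V : ℝ) else 0)
        ≤ ∑ x ∈ Z, ((Nat.card V : ℝ) * Nat.card (hull V)) := by
          apply Finset.sum_le_sum
          intro x _
          rw [← Finset.sum_filter, Finset.sum_const, nsmul_eq_mul, mul_comm]
          apply mul_le_mul_of_nonneg_left _ (by positivity)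
          rw [hHc]
          have h9 : (Z.filter (fun y => x + y ∈ hull V)).card ≤ (univ.filter (· ∈ hull V)).card := by
            apply Finset.card_le_card_of_injOn (fun y => x + y)
            · intro y hy
              rw [Finset.mem_coe, Finset.mem_filter] at hy
              rw [Finset.mem_coe, Finset.mem_filter]
              exact ⟨Finset.mem_univ _, hy.2⟩
            · intro a _ b _ hab
              exact add_left_cancel hab
          exact_mod_cast h9
      _ = _ := by rw [Finset.sum_const, nsmul_eq_mul]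
  rw [h1]
  calc _ ≤ (Z.card : ℝ) * ∑ x ∈ Z, ‖Gf (x - a)‖ ^ 2 := h2
    _ ≤ Z.card * (Z.card * (Nat.card V * Nat.card (hull V))) :=
        mul_le_mul_of_nonneg_left ((h3.trans h4).trans h5) (by positivity)
    _ = _ := by ring

end Hull

/-- **Pigeonhole**: some coset of the subgroup `U ≤ V` contains at least the average number of the
points of `Z ⊆ a + V`. -/
theorem exists_coset {V U : AddSubgroup (Wd n)} (hUV : U ≤ V) (a : Wd n) (Z : Finset (Wd n))
    (hZ : ∀ x ∈ Z, x - a ∈ V) [DecidablePred (· ∈ U)] :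
    ∃ b : Wd n, Z.card * Nat.card U ≤ Nat.card V * (Z.filter (fun x => x - b ∈ U)).card := by
  classical
  by_contra hcon
  push Not at hcon
  have hVc : Nat.card V = (univ.filter (· ∈ V)).card := by
    rw [Nat.card_eq_fintype_card, Fintype.card_subtype]
  have hUc : Nat.card U = (univ.filter (· ∈ U)).card := by
    rw [Nat.card_eq_fintype_card, Fintype.card_subtype]
  have hVpos : 0 < (univ.filter (· ∈ V)).card := by
    rw [Finset.card_pos]; exact ⟨0, Finset.mem_filter.mpr ⟨Finset.mem_univ _, V.zero_mem⟩⟩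
  have h1 : ∑ v ∈ univ.filter (· ∈ V), (Z.filter (fun x => x - (a + v) ∈ U)).card =
      Z.card * Nat.card U := by
    have h2 : ∀ x ∈ Z, ((univ.filter (· ∈ V)).filter (fun v => x - (a + v) ∈ U)).card = Nat.card U := by
      intro x hx
      rw [hUc]
      apply Finset.card_bij' (fun v _ => x - (a + v)) (fun u _ => (x - a) - u)
      · intro v hv
        rw [Finset.mem_filter] at hv ⊢
        exact ⟨Finset.mem_univ _, hv.2⟩
      · intro u hu
        rw [Finset.mem_filter] at hu
        rw [Finset.mem_filter, Finset.mem_filter]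
        refine ⟨⟨Finset.mem_univ _, V.sub_mem (hZ x hx) (hUV hu.2)⟩, ?_⟩
        have h3 : x - (a + ((x - a) - u)) = u := by abel
        rw [h3]; exact hu.2
      · intro v _; abel
      · intro u _; abel
    calc ∑ v ∈ univ.filter (· ∈ V), (Z.filter (fun x => x - (a + v) ∈ U)).card
        = ∑ x ∈ Z, ((univ.filter (· ∈ V)).filter (fun v => x - (a + v) ∈ U)).card := by
          simp only [Finset.card_filter]
          rw [Finset.sum_comm]
      _ = ∑ x ∈ Z, Nat.card U := Finset.sum_congr rfl h2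
      _ = _ := by rw [Finset.sum_const, smul_eq_mul]
  have h2 : ∑ v ∈ univ.filter (· ∈ V), Nat.card V * (Z.filter (fun x => x - (a + v) ∈ U)).card <
      ∑ v ∈ univ.filter (· ∈ V), Z.card * Nat.card U := by
    apply Finset.sum_lt_sum_of_nonempty (Finset.card_pos.mp hVpos)
    intro v _
    exact hcon (a + v)
  rw [← Finset.mul_sum, h1, Finset.sum_const, smul_eq_mul, hVc] at h2
  exact lt_irrefl _ h2

end Pool.Agent.Lib.MP_0430e4_lc.BY
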